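import Pool.Agent.KS.Core

/-! Assembly: the bound for doubly stochastic matrices without large entries. -/

namespace Pool.KS

open Finset

set_option linter.unusedSectionVars false

variable {I J : Type*} [Fintype I] [Fintype J] [DecidableEq I] [DecidableEq J]

theorem col_exp {l : ℝ} (hl : Real.exp (-l) = l) (p : I × J → ℝ) (hp0 : ∀ e, 0 ≤ p e)
    (hp1 : ∀ e, p e ≤ 7722 / 10000) (i : I) (hsum : ∑ j, p (i, j) = 1) :
    Ex p (Xi i) ≤
      Ex p (fun E => Qf l (∑ j ∈ Rm E, p (i, j)) (∑ j ∈ Rm E, p (i, j) ^ 2)) -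
      ∑ j, om (p (i, j)) * Ex p (mij i j) := by
  have hlt : ∀ j, p (i, j) < 1 := fun j => by linarith [hp1 (i, j)]
  have hle1 : ∀ e, p e ≤ 1 := fun e => by linarith [hp1 e]
  rw [← Ex_omega p i (fun j => om (p (i, j))), Ex_Xi,
    Ex_Phi1 p i (fun S => Qf l (∑ j ∈ S, p (i, j)) (∑ j ∈ S, p (i, j) ^ 2)), ← Ex_sub]
  refine Ex_mono hp0 hle1 (fun E => ?_)
  have hA1 : ∑ j ∈ Rm (dR i E), p (i, j) ≤ 1 := by
    rw [← hsum]
    exact Finset.sum_le_sum_of_subset_of_nonneg (Finset.subset_univ _) (fun j _ _ => hp0 _)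
  have h := col_ineq hl (a := fun j => p (i, j)) (fun j => hp0 _) (fun j => hp1 _)
    (Rm (dR i E)) hA1 (cls (dR i E))
  rw [← U_eq p i hlt] at h
  have e1 : ∀ c : Finset J, U p i (Rm (dR i E)) *
      (Real.exp (TT (fun j => p (i, j)) ((Rm (dR i E)).filter (fun j => cls (dR i E) j = c))) - 1)
      = pcl p i (dR i E) c := by
    intro c
    rw [pcl_eq p i hlt, ← U_eq p i hlt]; rfl
  simp only [e1] at h
  refine h.trans (le_of_eq ?_)
  rw [add_sub_assoc, ← Finset.sum_sub_distrib]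
  congr 1
  refine Finset.sum_congr rfl (fun c _ => ?_)
  unfold cl
  ring

/-- the column inequality, in the original orientation -/
theorem col_exp' {l : ℝ} (hl : Real.exp (-l) = l) (p : I × J → ℝ) (hp0 : ∀ e, 0 ≤ p e)
    (hp1 : ∀ e, p e ≤ 7722 / 10000) (j : J) (hsum : ∑ i, p (i, j) = 1) :
    Ex p (Yj j) ≤
      Ex p (fun E => Qf l (∑ i ∈ Lm E, p (i, j)) (∑ i ∈ Lm E, p (i, j) ^ 2)) -
      ∑ i, om (p (i, j)) * Ex p (mij i j) := by
  have h := col_exp hl (pt p) (fun e => hp0 _) (fun e => hp1 _) j hsum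
  rw [Ex_Yj]
  refine h.trans (le_of_eq ?_)
  rw [Ex_PsiL p (fun S => Qf l (∑ i ∈ S, p (i, j)) (∑ i ∈ S, p (i, j) ^ 2))]
  congr 1
  refine Finset.sum_congr rfl (fun i _ => ?_)
  rw [Ex_mij p i j]
  rfl

theorem Xi_sq (i : I) (E : Finset (I × J)) : Xi i E ^ 2 = Xi i E := by
  unfold Xi; split_ifs <;> norm_num

/-- the Gram matrix of the rows -/
noncomputable def gg (p : I × J → ℝ) (T : Finset J) (i k : I) : ℝ :=
  ∑ j ∈ T, p (i, j) * p (k, j)

theorem col_sum {l : ℝ} (p : I × J → ℝ) (S : Finset I) (T : Finset J)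
    (hrow : ∀ i ∈ S, ∑ j ∈ T, p (i, j) = 1) (hcol : ∀ j ∈ T, ∑ i ∈ S, p (i, j) = 1)
    (hS : ∀ i, i ∉ S → ∀ j, p (i, j) = 0) (E : Finset (I × J)) :
    ∑ j ∈ T, Qf l (∑ i ∈ Lm E, p (i, j)) (∑ i ∈ Lm E, p (i, j) ^ 2) =
      (l * T.card - l * ∑ i ∈ S, (Xi i E - l)) +
      9 / 20 * (∑ i ∈ S, gg p T i i * ((1 - 2 * l) * Xi i E + l ^ 2) +
        ∑ i ∈ S, ∑ k ∈ S.erase i, gg p T i k * ((Xi i E - l) * (Xi k E - l))) -
      117 / 500 * ∑ i ∈ S, gg p T i i * Xi i E := by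
  have e1 : ∀ j ∈ T, ∑ i ∈ Lm E, p (i, j) = l + ∑ i ∈ S, p (i, j) * (Xi i E - l) := by
    intro j hj
    have a1 : ∑ i ∈ Lm E, p (i, j) = ∑ i, p (i, j) * Xi i E := by
      rw [← Finset.sum_filter_add_sum_filter_not univ (fun i => i ∈ Lm E)]
      have z : ∑ x ∈ univ.filter (fun i => ¬ i ∈ Lm E), p (x, j) * Xi x E = 0 := by
        refine Finset.sum_eq_zero (fun i hi => ?_)
        unfold Xi; rw [if_neg (Finset.mem_filter.mp hi).2, mul_zero]
      rw [z, add_zero]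
      refine Finset.sum_congr (by ext i; simp) (fun i hi => ?_)
      unfold Xi; rw [if_pos (Finset.mem_filter.mp hi).2, mul_one]
    have a2 : ∑ i, p (i, j) * Xi i E = ∑ i ∈ S, p (i, j) * Xi i E := by
      symm
      refine Finset.sum_subset (Finset.subset_univ _) (fun i _ hi => ?_)
      rw [hS i hi j, zero_mul]
    rw [a1, a2]
    have a3 : ∑ i ∈ S, p (i, j) * (Xi i E - l) =
        ∑ i ∈ S, p (i, j) * Xi i E - (∑ i ∈ S, p (i, j)) * l := by
      rw [Finset.sum_mul, ← Finset.sum_sub_distrib]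
      exact Finset.sum_congr rfl (fun i _ => by ring)
    rw [a3, hcol j hj]; ring
  have e2 : ∀ j ∈ T, ∑ i ∈ Lm E, p (i, j) ^ 2 = ∑ i ∈ S, p (i, j) * p (i, j) * Xi i E := by
    intro j _
    have a1 : ∑ i ∈ Lm E, p (i, j) ^ 2 = ∑ i, p (i, j) * p (i, j) * Xi i E := by
      rw [← Finset.sum_filter_add_sum_filter_not univ (fun i => i ∈ Lm E)]
      have z : ∑ x ∈ univ.filter (fun i => ¬ i ∈ Lm E), p (x, j) * p (x, j) * Xi x E = 0 := by
        refine Finset.sum_eq_zero (fun i hi => ?_)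
        unfold Xi; rw [if_neg (Finset.mem_filter.mp hi).2, mul_zero]
      rw [z, add_zero]
      refine Finset.sum_congr (by ext i; simp) (fun i hi => ?_)
      unfold Xi; rw [if_pos (Finset.mem_filter.mp hi).2]; ring
    rw [a1]
    symm
    refine Finset.sum_subset (Finset.subset_univ _) (fun i _ hi => ?_)
    rw [hS i hi j]; ring
  have e3 : ∀ j ∈ T, Qf l (∑ i ∈ Lm E, p (i, j)) (∑ i ∈ Lm E, p (i, j) ^ 2) =
      l - l * (∑ i ∈ S, p (i, j) * (Xi i E - l)) +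
      9 / 20 * (∑ i ∈ S, ∑ k ∈ S, p (i, j) * p (k, j) * ((Xi i E - l) * (Xi k E - l))) -
      117 / 500 * ∑ i ∈ S, p (i, j) * p (i, j) * Xi i E := by
    intro j hj
    rw [e1 j hj, e2 j hj]
    unfold Qf
    have : (∑ i ∈ S, p (i, j) * (Xi i E - l)) ^ 2 =
        ∑ i ∈ S, ∑ k ∈ S, p (i, j) * p (k, j) * ((Xi i E - l) * (Xi k E - l)) := by
      rw [sq, Finset.sum_mul_sum]
      refine Finset.sum_congr rfl (fun i _ => Finset.sum_congr rfl (fun k _ => by ring))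
    rw [add_sub_cancel_left, this]
  rw [Finset.sum_congr rfl e3, Finset.sum_sub_distrib, Finset.sum_add_distrib,
    Finset.sum_sub_distrib, ← Finset.mul_sum, ← Finset.mul_sum, ← Finset.mul_sum,
    Finset.sum_const, nsmul_eq_mul]
  have s1 : ∑ j ∈ T, ∑ i ∈ S, p (i, j) * (Xi i E - l) = ∑ i ∈ S, (Xi i E - l) := by
    rw [Finset.sum_comm]
    refine Finset.sum_congr rfl (fun i hi => ?_)
    rw [← Finset.sum_mul, hrow i hi, one_mul]
  have s2 : ∑ j ∈ T, ∑ i ∈ S, p (i, j) * p (i, j) * Xi i E = ∑ i ∈ S, gg p T i i * Xi i E := by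
    rw [Finset.sum_comm]
    refine Finset.sum_congr rfl (fun i hi => ?_)
    rw [← Finset.sum_mul]; rfl
  have s3 : ∑ j ∈ T, ∑ i ∈ S, ∑ k ∈ S, p (i, j) * p (k, j) * ((Xi i E - l) * (Xi k E - l)) =
      ∑ i ∈ S, ∑ k ∈ S, gg p T i k * ((Xi i E - l) * (Xi k E - l)) := by
    rw [Finset.sum_comm]
    refine Finset.sum_congr rfl (fun i hi => ?_)
    rw [Finset.sum_comm]
    refine Finset.sum_congr rfl (fun k hk => ?_)
    rw [← Finset.sum_mul]; rfl
  have s4 : ∑ i ∈ S, ∑ k ∈ S, gg p T i k * ((Xi i E - l) * (Xi k E - l)) =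
      ∑ i ∈ S, gg p T i i * ((1 - 2 * l) * Xi i E + l ^ 2) +
        ∑ i ∈ S, ∑ k ∈ S.erase i, gg p T i k * ((Xi i E - l) * (Xi k E - l)) := by
    rw [← Finset.sum_add_distrib]
    refine Finset.sum_congr rfl (fun i hi => ?_)
    rw [← Finset.add_sum_erase S _ hi]
    congr 1
    have := Xi_sq i E
    have h2 : (Xi i E - l) * (Xi i E - l) = Xi i E ^ 2 - 2 * l * Xi i E + l ^ 2 := by ring
    rw [h2, this]; ring
  rw [s1, s2, s3, s4]
  ring

/-- symmetric double sums -/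
theorem off_diag {l : ℝ} (p : I × J → ℝ) (S : Finset I) (T : Finset J)
    (hrow : ∀ i ∈ S, ∑ j ∈ T, p (i, j) = 1) (hcol : ∀ j ∈ T, ∑ i ∈ S, p (i, j) = 1)
    (F : I → ℝ) :
    ∑ i ∈ S, ∑ k ∈ S.erase i, gg p T i k * (F i + F k) =
      2 * ∑ i ∈ S, (1 - gg p T i i) * F i := by
  have hg : ∀ i ∈ S, ∑ k ∈ S, gg p T i k = 1 := by
    intro i hi
    unfold gg
    rw [Finset.sum_comm, ← hrow i hi]
    refine Finset.sum_congr rfl (fun j hj => ?_)
    rw [← Finset.mul_sum, hcol j hj, mul_one]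
  have hsymm : ∀ i k, gg p T i k = gg p T k i := fun i k =>
    Finset.sum_congr rfl (fun j _ => mul_comm _ _)
  have h1 : ∑ i ∈ S, ∑ k ∈ S, gg p T i k * F i = ∑ i ∈ S, F i := by
    refine Finset.sum_congr rfl (fun i hi => ?_)
    rw [← Finset.sum_mul, hg i hi, one_mul]
  have h2 : ∑ i ∈ S, ∑ k ∈ S, gg p T i k * F k = ∑ i ∈ S, F i := by
    rw [Finset.sum_comm]
    refine Finset.sum_congr rfl (fun i hi => ?_)
    rw [← Finset.sum_mul]
    have : ∑ k ∈ S, gg p T k i = 1 := by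
      rw [← hg i hi]; exact Finset.sum_congr rfl (fun k _ => hsymm k i)
    rw [this, one_mul]
  have h3 : ∑ i ∈ S, ∑ k ∈ S, gg p T i k * (F i + F k) =
      ∑ i ∈ S, ∑ k ∈ S.erase i, gg p T i k * (F i + F k) + ∑ i ∈ S, gg p T i i * (2 * F i) := by
    rw [← Finset.sum_add_distrib]
    refine Finset.sum_congr rfl (fun i hi => ?_)
    rw [← Finset.add_sum_erase S _ hi]
    ring
  have h4 : ∑ i ∈ S, ∑ k ∈ S, gg p T i k * (F i + F k) = 2 * ∑ i ∈ S, F i := by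
    have : ∀ i ∈ S, ∑ k ∈ S, gg p T i k * (F i + F k) =
        ∑ k ∈ S, gg p T i k * F i + ∑ k ∈ S, gg p T i k * F k := by
      intro i _
      rw [← Finset.sum_add_distrib]
      exact Finset.sum_congr rfl (fun k _ => by ring)
    rw [Finset.sum_congr rfl this, Finset.sum_add_distrib, h1, h2]; ring
  have h5 : ∑ i ∈ S, (1 - gg p T i i) * F i = ∑ i ∈ S, F i - ∑ i ∈ S, gg p T i i * F i := by
    rw [← Finset.sum_sub_distrib]
    exact Finset.sum_congr rfl (fun i _ => by ring)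
  have h6 : ∑ i ∈ S, gg p T i i * (2 * F i) = 2 * ∑ i ∈ S, gg p T i i * F i := by
    rw [Finset.mul_sum]
    exact Finset.sum_congr rfl (fun i _ => by ring)
  rw [h5]
  rw [h6] at h3
  linarith

theorem bound_small {l : ℝ} (hl : Real.exp (-l) = l) (p : I × J → ℝ) (S : Finset I)
    (T : Finset J) (hp0 : ∀ e, 0 ≤ p e) (hp1 : ∀ e, p e ≤ 7722 / 10000)
    (hrow : ∀ i ∈ S, ∑ j, p (i, j) = 1) (hcol : ∀ j ∈ T, ∑ i, p (i, j) = 1)
    (hS : ∀ i, i ∉ S → ∀ j, p (i, j) = 0) (hT : ∀ j, j ∉ T → ∀ i, p (i, j) = 0)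
    (hc : S.card = T.card) :
    (2 * (1 - l) - l ^ 2) * S.card ≤ Ex p (fun E => (nu E : ℝ)) := by
  have hle1 : ∀ e, p e ≤ 1 := fun e => by linarith [hp1 e]
  have hlo := lam_lo hl
  have hrow' : ∀ i ∈ S, ∑ j ∈ T, p (i, j) = 1 := by
    intro i hi
    rw [← hrow i hi]
    exact Finset.sum_subset (Finset.subset_univ _) (fun j _ hj => hT j hj i)
  have hcol' : ∀ j ∈ T, ∑ i ∈ S, p (i, j) = 1 := by
    intro j hj
    rw [← hcol j hj]
    exact Finset.sum_subset (Finset.subset_univ _) (fun i _ hi => hS i hi j)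
  have hgi : ∀ i, ∑ j, p (i, j) ^ 2 = gg p T i i := by
    intro i
    unfold gg
    symm
    have : ∑ j ∈ T, p (i, j) * p (i, j) = ∑ j ∈ T, p (i, j) ^ 2 :=
      Finset.sum_congr rfl (fun j _ => by ring)
    rw [this]
    refine Finset.sum_subset (Finset.subset_univ _) (fun j _ hj => ?_)
    rw [hT j hj i]; norm_num
  have hom0 : om 0 = 0 := by unfold om; norm_num
  -- abbreviations
  set x : I → ℝ := fun i => Ex p (Xi i) with hx
  set F : I → ℝ := fun i => Ex p (fun E => ff l (U p i (Rm (dR i E)))) with hF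
  set RR : I → ℝ := fun i => Ex p (fun E => U p i (Rm (dR i E)) +
    ∑ c : Finset J, pcl p i (dR i E) c) with hRR
  set M : ℝ := ∑ i ∈ S, ∑ j ∈ T, om (p (i, j)) * Ex p (mij i j) with hM
  -- rows
  have hrows : ∑ i ∈ S, RR i ≤ ∑ i ∈ S, (l * x i + l - F i + 1 / 10 * F i +
      gg p T i i * (9 / 10 * F i - 9 / 20 * ((1 - 2 * l) * x i + l ^ 2) + 117 / 500 * x i)) + M := by
    rw [hM, ← Finset.sum_add_distrib]
    refine Finset.sum_le_sum (fun i hi => ?_)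
    have h := row_exp hl p hp0 hp1 i (hrow i hi)
    rw [hgi i] at h
    have e : ∑ j ∈ T, om (p (i, j)) * Ex p (mij i j) = ∑ j, om (p (i, j)) * Ex p (mij i j) := by
      refine Finset.sum_subset (Finset.subset_univ _) (fun j _ hj => ?_)
      rw [hT j hj i, hom0, zero_mul]
    rw [e]
    exact h
  -- columns
  have hcols : ∑ j ∈ T, Ex p (Yj j) ≤
      Ex p (fun E => ∑ j ∈ T, Qf l (∑ i ∈ Lm E, p (i, j)) (∑ i ∈ Lm E, p (i, j) ^ 2)) - M := by
    rw [Ex_sum, hM, Finset.sum_comm, ← Finset.sum_sub_distrib]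
    refine Finset.sum_le_sum (fun j hj => ?_)
    have h := col_exp' hl p hp0 hp1 j (hcol j hj)
    have e : ∑ i ∈ S, om (p (i, j)) * Ex p (mij i j) = ∑ i, om (p (i, j)) * Ex p (mij i j) := by
      refine Finset.sum_subset (Finset.subset_univ _) (fun i _ hi => ?_)
      rw [hS i hi j, hom0, zero_mul]
    rw [e]
    exact h
  have hcs : Ex p (fun E => ∑ j ∈ T, Qf l (∑ i ∈ Lm E, p (i, j)) (∑ i ∈ Lm E, p (i, j) ^ 2)) =
      (l * T.card - l * ∑ i ∈ S, (x i - l)) +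
      9 / 20 * (∑ i ∈ S, gg p T i i * ((1 - 2 * l) * x i + l ^ 2) +
        ∑ i ∈ S, ∑ k ∈ S.erase i, gg p T i k * Ex p (fun E => (Xi i E - l) * (Xi k E - l))) -
      117 / 500 * ∑ i ∈ S, gg p T i i * x i := by
    rw [Ex_congr p (fun E => col_sum (l := l) p S T hrow' hcol' hS E)]
    rw [Ex_sub, Ex_add, Ex_sub, Ex_const, Ex_mul_left, Ex_mul_left, Ex_mul_left, Ex_add, Ex_sum,
      Ex_sum, Ex_sum, Ex_sum]
    have a1 : ∑ k ∈ S, Ex p (fun E => Xi k E - l) = ∑ i ∈ S, (x i - l) := by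
      refine Finset.sum_congr rfl (fun i _ => ?_)
      rw [Ex_sub, Ex_const]
    have a2 : ∑ k ∈ S, Ex p (fun E => gg p T k k * ((1 - 2 * l) * Xi k E + l ^ 2)) =
        ∑ i ∈ S, gg p T i i * ((1 - 2 * l) * x i + l ^ 2) := by
      refine Finset.sum_congr rfl (fun i _ => ?_)
      rw [Ex_mul_left, Ex_add, Ex_mul_left, Ex_const]
    have a3 : ∑ k ∈ S, Ex p (fun E => ∑ k_1 ∈ S.erase k,
        gg p T k k_1 * ((Xi k E - l) * (Xi k_1 E - l))) =
        ∑ i ∈ S, ∑ k ∈ S.erase i, gg p T i k * Ex p (fun E => (Xi i E - l) * (Xi k E - l)) := by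
      refine Finset.sum_congr rfl (fun i _ => ?_)
      rw [Ex_sum]
      refine Finset.sum_congr rfl (fun k _ => ?_)
      rw [Ex_mul_left]
    have a4 : ∑ k ∈ S, Ex p (fun E => gg p T k k * Xi k E) = ∑ i ∈ S, gg p T i i * x i := by
      refine Finset.sum_congr rfl (fun i _ => ?_)
      rw [Ex_mul_left]
    rw [a1, a2, a3, a4]
  have hpair : ∑ i ∈ S, ∑ k ∈ S.erase i, gg p T i k * Ex p (fun E => (Xi i E - l) * (Xi k E - l)) ≤
      2 * ∑ i ∈ S, (1 - gg p T i i) * F i := by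
    rw [← off_diag (l := l) p S T hrow' hcol' F]
    refine Finset.sum_le_sum (fun i hi => Finset.sum_le_sum (fun k hk => ?_))
    have hk' := Finset.mem_erase.mp hk
    refine mul_le_mul_of_nonneg_left ?_ (Finset.sum_nonneg (fun j _ => mul_nonneg (hp0 _) (hp0 _)))
    exact pair_exp hl p hp0 hp1 hk'.1 (hrow i hi) (hrow k hk'.2)
  -- the matching number
  rw [Ex_nu]
  have n1 : ∑ j ∈ T, (1 - Ex p (Yj j)) ≤ ∑ j, (1 - Ex p (Yj j)) := by
    refine Finset.sum_le_sum_of_subset_of_nonneg (Finset.subset_univ _) (fun j _ _ => ?_)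
    have : Ex p (Yj j) ≤ Ex p (fun _ => 1) := Ex_mono hp0 hle1 (fun E => by
      unfold Yj; split_ifs <;> norm_num)
    rw [Ex_one] at this
    linarith
  have n2 : ∑ i ∈ S, (1 - RR i) ≤ ∑ i, (1 - RR i) := by
    refine Finset.sum_le_sum_of_subset_of_nonneg (Finset.subset_univ _) (fun i _ _ => ?_)
    have : RR i ≤ Ex p (fun _ => 1) := by
      rw [hRR]
      simp only
      rw [← Ex_adj]
      exact Ex_mono hp0 hle1 (fun E => by unfold av; split_ifs <;> norm_num)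
    rw [Ex_one] at this
    linarith
  have n3 : ∑ j ∈ T, (1 - Ex p (Yj j)) = T.card - ∑ j ∈ T, Ex p (Yj j) := by
    rw [Finset.sum_sub_distrib]; simp
  have n4 : ∑ i ∈ S, (1 - RR i) = S.card - ∑ i ∈ S, RR i := by
    rw [Finset.sum_sub_distrib]; simp
  -- algebra
  have alg : ∑ i ∈ S, (l * x i + l - F i + 1 / 10 * F i +
      gg p T i i * (9 / 10 * F i - 9 / 20 * ((1 - 2 * l) * x i + l ^ 2) + 117 / 500 * x i)) =
      (l + l ^ 2) * S.card + l * ∑ i ∈ S, (x i - l) - 9 / 10 * ∑ i ∈ S, (1 - gg p T i i) * F i -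
      9 / 20 * ∑ i ∈ S, gg p T i i * ((1 - 2 * l) * x i + l ^ 2) +
      117 / 500 * ∑ i ∈ S, gg p T i i * x i := by
    have c1 : ((l + l ^ 2) * S.card : ℝ) = ∑ i ∈ S, (l + l ^ 2) := by
      rw [Finset.sum_const, nsmul_eq_mul]; ring
    rw [c1, Finset.mul_sum, Finset.mul_sum, Finset.mul_sum, Finset.mul_sum,
      ← Finset.sum_add_distrib, ← Finset.sum_sub_distrib, ← Finset.sum_sub_distrib,
      ← Finset.sum_add_distrib]
    exact Finset.sum_congr rfl (fun i _ => by ring)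
  rw [alg] at hrows
  rw [hcs] at hcols
  have hcR : (S.card : ℝ) = T.card := by exact_mod_cast hc
  have fin : (2 * (1 - l) - l ^ 2) * (S.card : ℝ) ≤
      (T.card - ∑ j ∈ T, Ex p (Yj j)) + (S.card - ∑ i ∈ S, RR i) := by
    rw [← hcR] at hcols ⊢
    nlinarith [hcols, hrows, hpair]
  rw [n3] at n1
  rw [n4] at n2
  refine fin.trans ?_
  exact add_le_add n1 n2

end Pool.KS
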