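import Pool.Agent.KS.Scal9

/-! The row inequality with a quadratic gain. -/

namespace Pool.KS

open Real Finset

theorem row_num2 {l u : ℝ} (hl : exp (-l) = l) (hu : 0 < u) :
    4 / 10000 ≤ 10542 / 10000 * ff l u - 9 / 20 * ((1 - 2 * l) * u + l ^ 2) + 117 / 500 * u := by
  have hlo := lam_lo hl
  have hhi := lam_hi hl
  have hl0 : 0 < l := by linarith
  have hr : -(279 / 1000) ≤ log (7566 / 10000) := by
    rw [le_log_iff_exp_le (by norm_num)]
    have h := Real.exp_bound (x := -(279 / 1000))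
      (by rw [abs_neg, abs_of_nonneg] <;> norm_num) (n := 7) (by norm_num)
    rw [abs_le] at h
    have h3 := h.2
    norm_num [Finset.sum_range_succ, Nat.factorial] at h3
    norm_num
    linarith
  set r : ℝ := 7566 / 10000 with hrd
  have hrl : 0 < r * l := by positivity
  have h1 : 1 - (r * l) / u ≤ log (u / (r * l)) := by
    have := one_sub_inv_le_log_of_pos (show 0 < u / (r * l) by positivity)
    rw [inv_div] at this
    exact this
  rw [log_div hu.ne' hrl.ne', log_mul (by norm_num) hl0.ne', log_lam hl] at h1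
  have h2 := mul_le_mul_of_nonneg_left h1 hu.le
  have h3 : u * (1 - r * l / u) = u - r * l := by field_simp
  rw [h3] at h2
  have h4 := mul_le_mul_of_nonneg_left hr hu.le
  unfold ff
  have h5 : 0 ≤ (10542 / 10000 * (1 - r) - 9 / 20 * l - 8 / 10000) * l := by
    apply mul_nonneg _ hl0.le
    rw [hrd]; linarith
  have h6 : 0 ≤ (-(10542 / 10000) * (279 / 1000) + 9 / 20 * (2 * l - 1) + 117 / 500) * u := by
    apply mul_nonneg _ hu.le
    linarith
  rw [hrd] at h5 h2 h4
  nlinarith

theorem sum_sq_le {J : Type*} [Fintype J] {a : J → ℝ} (h0 : ∀ j, 0 ≤ a j)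
    (h1 : ∀ j, a j ≤ 7722 / 10000) (hsum : ∑ j, a j = 1) : ∑ j, a j ^ 2 ≤ 6483 / 10000 := by
  classical
  have hne : (univ : Finset J).Nonempty := by
    rw [Finset.nonempty_iff_ne_empty]
    intro h
    rw [h] at hsum
    simp at hsum
  obtain ⟨j₀, _, hmax⟩ := Finset.exists_max_image univ a hne
  by_cases hm : a j₀ ≤ 2278 / 10000
  · calc ∑ j, a j ^ 2 ≤ ∑ j, 2278 / 10000 * a j := by
          refine Finset.sum_le_sum (fun j hj => ?_)
          have := hmax j hj
          nlinarith [h0 j]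
      _ = 2278 / 10000 := by rw [← Finset.mul_sum, hsum, mul_one]
      _ ≤ _ := by norm_num
  · push Not at hm
    have e1 : ∑ j ∈ univ.erase j₀, a j = 1 - a j₀ := by
      have := Finset.add_sum_erase univ a (Finset.mem_univ j₀)
      rw [hsum] at this; linarith
    have e2 : ∑ j ∈ univ.erase j₀, a j ^ 2 ≤ (1 - a j₀) ^ 2 := by
      calc ∑ j ∈ univ.erase j₀, a j ^ 2 ≤ ∑ j ∈ univ.erase j₀, (1 - a j₀) * a j := by
            refine Finset.sum_le_sum (fun j hj => ?_)
            have : a j ≤ 1 - a j₀ := by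
              rw [← e1]
              exact Finset.single_le_sum (fun j _ => h0 j) hj
            nlinarith [h0 j]
        _ = (1 - a j₀) ^ 2 := by rw [← Finset.mul_sum, e1]; ring
    rw [← Finset.add_sum_erase univ _ (Finset.mem_univ j₀)]
    have h3 := h1 j₀
    nlinarith [mul_nonneg (sub_nonneg.mpr h3) (sub_nonneg.mpr hm.le)]

/-- The row inequality. -/
theorem row_ineq2 {J K : Type*} [Fintype J] [Fintype K] [DecidableEq K] {l : ℝ}
    (hl : exp (-l) = l) {a : J → ℝ} (h0 : ∀ j, 0 ≤ a j) (h1 : ∀ j, a j ≤ 7722 / 10000)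
    (hsum : ∑ j, a j = 1) (R : Finset J) (κ : J → K) :
    exp (-TT a R) + ∑ k, exp (-TT a R) * (exp (TT a (R.filter (fun j => κ j = k))) - 1) ≤
      l * exp (-TT a R) + l - ff l (exp (-TT a R)) + 1 / 10 * ff l (exp (-TT a R)) +
      (∑ j, a j ^ 2) * (9 / 10 * ff l (exp (-TT a R)) -
        9 / 20 * ((1 - 2 * l) * exp (-TT a R) + l ^ 2) + 117 / 500 * exp (-TT a R)
        - 4 / 10000) +
      ∑ k, exp (-TT a R) * (exp (TT a (R.filter (fun j => κ j = k))) - 1) *
        ∑ j ∈ R.filter (fun j => κ j = k), om (a j) := by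
  have h1' : ∀ j, a j ≤ 78 / 100 := fun j => by linarith [h1 j]
  set u := exp (-TT a R) with hu
  have hu0 : 0 < u := exp_pos _
  have hT : ∑ k, TT a (R.filter (fun j => κ j = k)) = TT a R := by
    unfold TT
    exact Finset.sum_fiberwise R κ (fun j => -log (1 - a j))
  have hcl : ∑ k, (u * (exp (TT a (R.filter (fun j => κ j = k))) - 1) -
      u * (exp (TT a (R.filter (fun j => κ j = k))) - 1) *
        ∑ j ∈ R.filter (fun j => κ j = k), om (a j)) ≤ u * TT a R := by
    rw [← hT, Finset.mul_sum]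
    refine Finset.sum_le_sum (fun k _ => ?_)
    have := mul_le_mul_of_nonneg_left
      (class_row' h0 h1' (R.filter (fun j => κ j = k))) hu0.le
    linarith
  rw [Finset.sum_sub_distrib] at hcl
  have hff : ff l u = -(u * TT a R) - (1 - l) * u + l := by
    unfold ff
    rw [hu, log_exp]; ring
  have hg0 : 0 ≤ ∑ j, a j ^ 2 := Finset.sum_nonneg (fun j _ => sq_nonneg _)
  have hg := sum_sq_le h0 h1 hsum
  have hf0 := ff_nonneg hl hu0
  have hnum := row_num2 hl hu0
  have h2 : (∑ j, a j ^ 2) * (1542 / 10000 * ff l u) ≤ 1 / 10 * ff l u := by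
    nlinarith [mul_le_mul_of_nonneg_right hg hf0]
  have h3 := mul_le_mul_of_nonneg_left hnum hg0
  have h4 : (∑ j, a j ^ 2) * (10542 / 10000 * ff l u - 9 / 20 * ((1 - 2 * l) * u + l ^ 2)
      + 117 / 500 * u) = (∑ j, a j ^ 2) * (9 / 10 * ff l u - 9 / 20 * ((1 - 2 * l) * u + l ^ 2)
      + 117 / 500 * u - 4 / 10000) + (∑ j, a j ^ 2) * (1542 / 10000 * ff l u)
      + (∑ j, a j ^ 2) * (4 / 10000) := by ring
  rw [h4] at h3
  have h5 : u + u * TT a R = l * u + l - ff l u := by rw [hff]; ring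
  linarith

end Pool.KS
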