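import Pool.Agent.KS.Main
import Pool.Agent.KS.Scal10

/-! The bound with a quadratic gain. -/

namespace Pool.KS

open Finset

set_option linter.unusedSectionVars false

variable {I J : Type*} [Fintype I] [Fintype J] [DecidableEq I] [DecidableEq J]

theorem row_exp2 {l : ℝ} (hl : Real.exp (-l) = l) (p : I × J → ℝ) (hp0 : ∀ e, 0 ≤ p e)
    (hp1 : ∀ e, p e ≤ 7722 / 10000) (i : I) (hsum : ∑ j, p (i, j) = 1) :
    Ex p (fun E => U p i (Rm (dR i E)) + ∑ c : Finset J, pcl p i (dR i E) c) ≤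
      l * Ex p (Xi i) + l - Ex p (fun E => ff l (U p i (Rm (dR i E)))) +
      1 / 10 * Ex p (fun E => ff l (U p i (Rm (dR i E)))) +
      (∑ j, p (i, j) ^ 2) * (9 / 10 * Ex p (fun E => ff l (U p i (Rm (dR i E)))) -
        9 / 20 * ((1 - 2 * l) * Ex p (Xi i) + l ^ 2) + 117 / 500 * Ex p (Xi i) - 4 / 10000) +
      ∑ j, om (p (i, j)) * Ex p (mij i j) := by
  have hlt : ∀ j, p (i, j) < 1 := fun j => by linarith [hp1 (i, j)]
  have hle1 : ∀ e, p e ≤ 1 := fun e => by linarith [hp1 e]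
  rw [← Ex_omega p i (fun j => om (p (i, j))), Ex_Xi]
  have hpt : ∀ E : Finset (I × J), U p i (Rm (dR i E)) + ∑ c : Finset J, pcl p i (dR i E) c ≤
      (l * U p i (Rm (dR i E)) + l - ff l (U p i (Rm (dR i E))) +
        1 / 10 * ff l (U p i (Rm (dR i E)))) +
      (∑ j, p (i, j) ^ 2) * (9 / 10 * ff l (U p i (Rm (dR i E))) -
        9 / 20 * ((1 - 2 * l) * U p i (Rm (dR i E)) + l ^ 2) +
        117 / 500 * U p i (Rm (dR i E)) - 4 / 10000) +
      ∑ c : Finset J, pcl p i (dR i E) c * ∑ j ∈ cl (dR i E) c, om (p (i, j)) := by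
    intro E
    have h := row_ineq2 hl (a := fun j => p (i, j)) (fun j => hp0 _) (fun j => hp1 _) hsum
      (Rm (dR i E)) (cls (dR i E))
    rw [← U_eq p i hlt] at h
    have e1 : ∀ c : Finset J, U p i (Rm (dR i E)) *
        (Real.exp (TT (fun j => p (i, j)) ((Rm (dR i E)).filter (fun j => cls (dR i E) j = c))) - 1)
        = pcl p i (dR i E) c := by
      intro c
      rw [pcl_eq p i hlt, ← U_eq p i hlt]; rfl
    simp only [e1] at h
    exact h
  refine le_trans (Ex_mono hp0 hle1 hpt) (le_of_eq ?_)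
  rw [Ex_add, Ex_add, Ex_mul_left, Ex_add, Ex_sub, Ex_add, Ex_mul_left, Ex_mul_left, Ex_const,
    Ex_sub, Ex_add, Ex_sub, Ex_mul_left, Ex_mul_left, Ex_mul_left, Ex_add, Ex_mul_left, Ex_const,
    Ex_const]

theorem bound_small2 {l : ℝ} (hl : Real.exp (-l) = l) (p : I × J → ℝ) (S : Finset I)
    (T : Finset J) (hp0 : ∀ e, 0 ≤ p e) (hp1 : ∀ e, p e ≤ 7722 / 10000)
    (hrow : ∀ i ∈ S, ∑ j, p (i, j) = 1) (hcol : ∀ j ∈ T, ∑ i, p (i, j) = 1)
    (hS : ∀ i, i ∉ S → ∀ j, p (i, j) = 0) (hT : ∀ j, j ∉ T → ∀ i, p (i, j) = 0)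
    (hc : S.card = T.card) :
    (2 * (1 - l) - l ^ 2) * S.card + 4 / 10000 * ∑ i ∈ S, gg p T i i ≤
      Ex p (fun E => (nu E : ℝ)) := by
  have hle1 : ∀ e, p e ≤ 1 := fun e => by linarith [hp1 e]
  have hlo := lam_lo hl
  have hrow' : ∀ i ∈ S, ∑ j ∈ T, p (i, j) = 1 := by
    intro i hi
    rw [← hrow i hi]
    exact Finset.sum_subset (Finset.subset_univ _) (fun j _ hj => hT j hj i)
  have hcol' : ∀ j ∈ T, ∑ i ∈ S, p (i, j) = 1 := by
    intro j hj
    rw [← hcol j hj]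
    exact Finset.sum_subset (Finset.subset_univ _) (fun i _ hi => hS i hi j)
  have hgi : ∀ i, ∑ j, p (i, j) ^ 2 = gg p T i i := by
    intro i
    unfold gg
    symm
    have : ∑ j ∈ T, p (i, j) * p (i, j) = ∑ j ∈ T, p (i, j) ^ 2 :=
      Finset.sum_congr rfl (fun j _ => by ring)
    rw [this]
    refine Finset.sum_subset (Finset.subset_univ _) (fun j _ hj => ?_)
    rw [hT j hj i]; norm_num
  have hom0 : om 0 = 0 := by unfold om; norm_num
  -- abbreviations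
  set x : I → ℝ := fun i => Ex p (Xi i) with hx
  set F : I → ℝ := fun i => Ex p (fun E => ff l (U p i (Rm (dR i E)))) with hF
  set RR : I → ℝ := fun i => Ex p (fun E => U p i (Rm (dR i E)) +
    ∑ c : Finset J, pcl p i (dR i E) c) with hRR
  set M : ℝ := ∑ i ∈ S, ∑ j ∈ T, om (p (i, j)) * Ex p (mij i j) with hM
  -- rows
  have hrows : ∑ i ∈ S, RR i ≤ ∑ i ∈ S, (l * x i + l - F i + 1 / 10 * F i +
      gg p T i i * (9 / 10 * F i - 9 / 20 * ((1 - 2 * l) * x i + l ^ 2) + 117 / 500 * x i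
        - 4 / 10000)) + M := by
    rw [hM, ← Finset.sum_add_distrib]
    refine Finset.sum_le_sum (fun i hi => ?_)
    have h := row_exp2 hl p hp0 hp1 i (hrow i hi)
    rw [hgi i] at h
    have e : ∑ j ∈ T, om (p (i, j)) * Ex p (mij i j) = ∑ j, om (p (i, j)) * Ex p (mij i j) := by
      refine Finset.sum_subset (Finset.subset_univ _) (fun j _ hj => ?_)
      rw [hT j hj i, hom0, zero_mul]
    rw [e]
    exact h
  -- columns
  have hcols : ∑ j ∈ T, Ex p (Yj j) ≤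
      Ex p (fun E => ∑ j ∈ T, Qf l (∑ i ∈ Lm E, p (i, j)) (∑ i ∈ Lm E, p (i, j) ^ 2)) - M := by
    rw [Ex_sum, hM, Finset.sum_comm, ← Finset.sum_sub_distrib]
    refine Finset.sum_le_sum (fun j hj => ?_)
    have h := col_exp' hl p hp0 hp1 j (hcol j hj)
    have e : ∑ i ∈ S, om (p (i, j)) * Ex p (mij i j) = ∑ i, om (p (i, j)) * Ex p (mij i j) := by
      refine Finset.sum_subset (Finset.subset_univ _) (fun i _ hi => ?_)
      rw [hS i hi j, hom0, zero_mul]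
    rw [e]
    exact h
  have hcs : Ex p (fun E => ∑ j ∈ T, Qf l (∑ i ∈ Lm E, p (i, j)) (∑ i ∈ Lm E, p (i, j) ^ 2)) =
      (l * T.card - l * ∑ i ∈ S, (x i - l)) +
      9 / 20 * (∑ i ∈ S, gg p T i i * ((1 - 2 * l) * x i + l ^ 2) +
        ∑ i ∈ S, ∑ k ∈ S.erase i, gg p T i k * Ex p (fun E => (Xi i E - l) * (Xi k E - l))) -
      117 / 500 * ∑ i ∈ S, gg p T i i * x i := by
    rw [Ex_congr p (fun E => col_sum (l := l) p S T hrow' hcol' hS E)]
    rw [Ex_sub, Ex_add, Ex_sub, Ex_const, Ex_mul_left, Ex_mul_left, Ex_mul_left, Ex_add, Ex_sum,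
      Ex_sum, Ex_sum, Ex_sum]
    have a1 : ∑ k ∈ S, Ex p (fun E => Xi k E - l) = ∑ i ∈ S, (x i - l) := by
      refine Finset.sum_congr rfl (fun i _ => ?_)
      rw [Ex_sub, Ex_const]
    have a2 : ∑ k ∈ S, Ex p (fun E => gg p T k k * ((1 - 2 * l) * Xi k E + l ^ 2)) =
        ∑ i ∈ S, gg p T i i * ((1 - 2 * l) * x i + l ^ 2) := by
      refine Finset.sum_congr rfl (fun i _ => ?_)
      rw [Ex_mul_left, Ex_add, Ex_mul_left, Ex_const]
    have a3 : ∑ k ∈ S, Ex p (fun E => ∑ k_1 ∈ S.erase k,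
        gg p T k k_1 * ((Xi k E - l) * (Xi k_1 E - l))) =
        ∑ i ∈ S, ∑ k ∈ S.erase i, gg p T i k * Ex p (fun E => (Xi i E - l) * (Xi k E - l)) := by
      refine Finset.sum_congr rfl (fun i _ => ?_)
      rw [Ex_sum]
      refine Finset.sum_congr rfl (fun k _ => ?_)
      rw [Ex_mul_left]
    have a4 : ∑ k ∈ S, Ex p (fun E => gg p T k k * Xi k E) = ∑ i ∈ S, gg p T i i * x i := by
      refine Finset.sum_congr rfl (fun i _ => ?_)
      rw [Ex_mul_left]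
    rw [a1, a2, a3, a4]
  have hpair : ∑ i ∈ S, ∑ k ∈ S.erase i, gg p T i k * Ex p (fun E => (Xi i E - l) * (Xi k E - l)) ≤
      2 * ∑ i ∈ S, (1 - gg p T i i) * F i := by
    rw [← off_diag (l := l) p S T hrow' hcol' F]
    refine Finset.sum_le_sum (fun i hi => Finset.sum_le_sum (fun k hk => ?_))
    have hk' := Finset.mem_erase.mp hk
    refine mul_le_mul_of_nonneg_left ?_ (Finset.sum_nonneg (fun j _ => mul_nonneg (hp0 _) (hp0 _)))
    exact pair_exp hl p hp0 hp1 hk'.1 (hrow i hi) (hrow k hk'.2)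
  -- the matching number
  rw [Ex_nu]
  have n1 : ∑ j ∈ T, (1 - Ex p (Yj j)) ≤ ∑ j, (1 - Ex p (Yj j)) := by
    refine Finset.sum_le_sum_of_subset_of_nonneg (Finset.subset_univ _) (fun j _ _ => ?_)
    have : Ex p (Yj j) ≤ Ex p (fun _ => 1) := Ex_mono hp0 hle1 (fun E => by
      unfold Yj; split_ifs <;> norm_num)
    rw [Ex_one] at this
    linarith
  have n2 : ∑ i ∈ S, (1 - RR i) ≤ ∑ i, (1 - RR i) := by
    refine Finset.sum_le_sum_of_subset_of_nonneg (Finset.subset_univ _) (fun i _ _ => ?_)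
    have : RR i ≤ Ex p (fun _ => 1) := by
      rw [hRR]
      simp only
      rw [← Ex_adj]
      exact Ex_mono hp0 hle1 (fun E => by unfold av; split_ifs <;> norm_num)
    rw [Ex_one] at this
    linarith
  have n3 : ∑ j ∈ T, (1 - Ex p (Yj j)) = T.card - ∑ j ∈ T, Ex p (Yj j) := by
    rw [Finset.sum_sub_distrib]; simp
  have n4 : ∑ i ∈ S, (1 - RR i) = S.card - ∑ i ∈ S, RR i := by
    rw [Finset.sum_sub_distrib]; simp
  -- algebra
  have alg : ∑ i ∈ S, (l * x i + l - F i + 1 / 10 * F i +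
      gg p T i i * (9 / 10 * F i - 9 / 20 * ((1 - 2 * l) * x i + l ^ 2) + 117 / 500 * x i
        - 4 / 10000)) =
      (l + l ^ 2) * S.card + l * ∑ i ∈ S, (x i - l) - 9 / 10 * ∑ i ∈ S, (1 - gg p T i i) * F i -
      9 / 20 * ∑ i ∈ S, gg p T i i * ((1 - 2 * l) * x i + l ^ 2) +
      117 / 500 * ∑ i ∈ S, gg p T i i * x i - 4 / 10000 * ∑ i ∈ S, gg p T i i := by
    have c1 : ((l + l ^ 2) * S.card : ℝ) = ∑ i ∈ S, (l + l ^ 2) := by
      rw [Finset.sum_const, nsmul_eq_mul]; ring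
    rw [c1, Finset.mul_sum, Finset.mul_sum, Finset.mul_sum, Finset.mul_sum, Finset.mul_sum,
      ← Finset.sum_add_distrib, ← Finset.sum_sub_distrib, ← Finset.sum_sub_distrib,
      ← Finset.sum_add_distrib, ← Finset.sum_sub_distrib]
    exact Finset.sum_congr rfl (fun i _ => by ring)
  rw [alg] at hrows
  rw [hcs] at hcols
  have hcR : (S.card : ℝ) = T.card := by exact_mod_cast hc
  have fin : (2 * (1 - l) - l ^ 2) * (S.card : ℝ) + 4 / 10000 * ∑ i ∈ S, gg p T i i ≤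
      (T.card - ∑ j ∈ T, Ex p (Yj j)) + (S.card - ∑ i ∈ S, RR i) := by
    rw [← hcR] at hcols ⊢
    nlinarith [hcols, hrows, hpair]
  rw [n3] at n1
  rw [n4] at n2
  refine fin.trans ?_
  exact add_le_add n1 n2


end Pool.KS
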