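import Mathlib

/-! Matching number of finite bipartite graphs, missable vertices, parallel classes. -/

namespace Pool.KS

open Finset

set_option linter.unusedSectionVars false

variable {I J : Type*} [Fintype I] [Fintype J] [DecidableEq I] [DecidableEq J]

/-- A set of edges is a matching when no two different members share an endpoint. -/
def IsMatching (M : Finset (I × J)) : Prop :=
  ∀ e ∈ M, ∀ e' ∈ M, (e.1 = e'.1 ∨ e.2 = e'.2) → e = e'

open Classical in
/-- The matching number of the bipartite graph with edge set `E`. -/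
noncomputable def nu (E : Finset (I × J)) : ℕ :=
  (E.powerset.filter IsMatching).sup Finset.card

omit [Fintype I] [Fintype J] [DecidableEq I] [DecidableEq J] in
theorem IsMatching.mono {M M' : Finset (I × J)} (h : IsMatching M) (hs : M' ⊆ M) :
    IsMatching M' := fun e he e' he' hh => h e (hs he) e' (hs he') hh

omit [Fintype I] [Fintype J] [DecidableEq I] [DecidableEq J] in
theorem card_le_nu {E M : Finset (I × J)} (hM : IsMatching M) (hs : M ⊆ E) :
    M.card ≤ nu E := by
  classical
  unfold nu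
  exact Finset.le_sup (f := Finset.card) (by simp [hs, hM])

omit [Fintype I] [Fintype J] [DecidableEq I] [DecidableEq J] in
theorem exists_max (E : Finset (I × J)) :
    ∃ M : Finset (I × J), M ⊆ E ∧ IsMatching M ∧ M.card = nu E := by
  classical
  have hne : (E.powerset.filter IsMatching).Nonempty :=
    ⟨∅, by simp [IsMatching]⟩
  obtain ⟨M, hM, hc⟩ := Finset.exists_mem_eq_sup _ hne Finset.card
  refine ⟨M, ?_, ?_, ?_⟩
  · simpa using (Finset.mem_powerset.mp (Finset.mem_filter.mp hM).1)
  · exact (Finset.mem_filter.mp hM).2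
  · unfold nu; exact hc.symm

omit [Fintype I] [Fintype J] [DecidableEq I] [DecidableEq J] in
theorem nu_mono {E E' : Finset (I × J)} (h : E ⊆ E') : nu E ≤ nu E' := by
  obtain ⟨M, hs, hM, hc⟩ := exists_max E
  rw [← hc]; exact card_le_nu hM (hs.trans h)

/-- Delete row `i`. -/
def dR (i : I) (E : Finset (I × J)) : Finset (I × J) := E.filter (fun e => e.1 ≠ i)

/-- Delete column `j`. -/
def dC (j : J) (E : Finset (I × J)) : Finset (I × J) := E.filter (fun e => e.2 ≠ j)

omit [Fintype I] [Fintype J] [DecidableEq J] in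
theorem mem_dR {i : I} {E : Finset (I × J)} {e : I × J} :
    e ∈ dR i E ↔ e ∈ E ∧ e.1 ≠ i := by simp [dR]

omit [Fintype I] [Fintype J] [DecidableEq I] in
theorem mem_dC {j : J} {E : Finset (I × J)} {e : I × J} :
    e ∈ dC j E ↔ e ∈ E ∧ e.2 ≠ j := by simp [dC]

omit [Fintype I] [Fintype J] [DecidableEq J] in
theorem dR_sub (i : I) (E : Finset (I × J)) : dR i E ⊆ E := Finset.filter_subset _ _

omit [Fintype I] [Fintype J] [DecidableEq I] in
theorem dC_sub (j : J) (E : Finset (I × J)) : dC j E ⊆ E := Finset.filter_subset _ _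

omit [Fintype I] [Fintype J] in
theorem dR_dC (i : I) (j : J) (E : Finset (I × J)) : dR i (dC j E) = dC j (dR i E) := by
  ext e; simp [mem_dR, mem_dC]; tauto

omit [Fintype I] [Fintype J] [DecidableEq I] in
theorem dC_comm (j l : J) (E : Finset (I × J)) : dC j (dC l E) = dC l (dC j E) := by
  ext e; simp [mem_dC]; tauto

omit [Fintype I] [Fintype J] [DecidableEq J] in
theorem dR_comm (i k : I) (E : Finset (I × J)) : dR i (dR k E) = dR k (dR i E) := by
  ext e; simp [mem_dR]; tauto

omit [Fintype I] [Fintype J] [DecidableEq I] in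
theorem dC_dC (j : J) (E : Finset (I × J)) : dC j (dC j E) = dC j E := by
  ext e; simp [mem_dC]

omit [Fintype I] [Fintype J] [DecidableEq J] in
theorem dR_dR (i : I) (E : Finset (I × J)) : dR i (dR i E) = dR i E := by
  ext e; simp [mem_dR]

omit [Fintype I] [Fintype J] [DecidableEq J] in
theorem nu_dR_le (i : I) (E : Finset (I × J)) : nu (dR i E) ≤ nu E := nu_mono (dR_sub i E)

omit [Fintype I] [Fintype J] [DecidableEq I] in
theorem nu_dC_le (j : J) (E : Finset (I × J)) : nu (dC j E) ≤ nu E := nu_mono (dC_sub j E)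

omit [Fintype I] [Fintype J] [DecidableEq I] in
theorem nu_le_dC (j : J) (E : Finset (I × J)) : nu E ≤ nu (dC j E) + 1 := by
  classical
  obtain ⟨M, hs, hM, hc⟩ := exists_max E
  rw [← hc]
  have h1 : (dC j M).card ≤ nu (dC j E) := by
    refine card_le_nu (hM.mono (dC_sub j M)) ?_
    intro e he
    rw [mem_dC] at he ⊢
    exact ⟨hs he.1, he.2⟩
  have h2 : (M.filter (fun e => ¬ (e.2 ≠ j))).card ≤ 1 := by
    rw [Finset.card_le_one]
    intro a ha b hb
    simp only [Finset.mem_filter, not_not] at ha hb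
    exact hM a ha.1 b hb.1 (Or.inr (ha.2.trans hb.2.symm))
  have h3 := Finset.card_filter_add_card_filter_not (s := M) (fun e : I × J => e.2 ≠ j)
  have h4 : (dC j M).card = (M.filter (fun e => e.2 ≠ j)).card := rfl
  omega

omit [Fintype I] [Fintype J] [DecidableEq J] in
theorem nu_le_dR (i : I) (E : Finset (I × J)) : nu E ≤ nu (dR i E) + 1 := by
  classical
  obtain ⟨M, hs, hM, hc⟩ := exists_max E
  rw [← hc]
  have h1 : (dR i M).card ≤ nu (dR i E) := by
    refine card_le_nu (hM.mono (dR_sub i M)) ?_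
    intro e he
    rw [mem_dR] at he ⊢
    exact ⟨hs he.1, he.2⟩
  have h2 : (M.filter (fun e => ¬ (e.1 ≠ i))).card ≤ 1 := by
    rw [Finset.card_le_one]
    intro a ha b hb
    simp only [Finset.mem_filter, not_not] at ha hb
    exact hM a ha.1 b hb.1 (Or.inl (ha.2.trans hb.2.symm))
  have h3 := Finset.card_filter_add_card_filter_not (s := M) (fun e : I × J => e.1 ≠ i)
  have h4 : (dR i M).card = (M.filter (fun e => e.1 ≠ i)).card := rfl
  omega

/-- Columns missed by some maximum matching. -/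
noncomputable def Rm (E : Finset (I × J)) : Finset J :=
  univ.filter (fun j => nu (dC j E) = nu E)

/-- Rows missed by some maximum matching. -/
noncomputable def Lm (E : Finset (I × J)) : Finset I :=
  univ.filter (fun i => nu (dR i E) = nu E)

omit [Fintype I] [DecidableEq I] in
theorem mem_Rm {E : Finset (I × J)} {j : J} : j ∈ Rm E ↔ nu (dC j E) = nu E := by simp [Rm]

omit [Fintype J] [DecidableEq J] in
theorem mem_Lm {E : Finset (I × J)} {i : I} : i ∈ Lm E ↔ nu (dR i E) = nu E := by simp [Lm]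

omit [Fintype I] [DecidableEq I] in
theorem not_mem_Rm {E : Finset (I × J)} {j : J} : j ∉ Rm E ↔ nu E = nu (dC j E) + 1 := by
  rw [mem_Rm]
  have h1 := nu_dC_le j E
  have h2 := nu_le_dC j E
  omega

omit [Fintype J] [DecidableEq J] in
theorem not_mem_Lm {E : Finset (I × J)} {i : I} : i ∉ Lm E ↔ nu E = nu (dR i E) + 1 := by
  rw [mem_Lm]
  have h1 := nu_dR_le i E
  have h2 := nu_le_dR i E
  omega

/-- Neighbours of row `i`. -/
def nb (i : I) (E : Finset (I × J)) : Finset J := univ.filter (fun j => (i, j) ∈ E)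

omit [Fintype I] in
theorem mem_nb {i : I} {E : Finset (I × J)} {j : J} : j ∈ nb i E ↔ (i, j) ∈ E := by simp [nb]

omit [Fintype I] in
/-- Row recursion for the matching number, gain case. -/
theorem nu_rec_pos {i : I} {E : Finset (I × J)} {j : J} (hij : (i, j) ∈ E)
    (hj : j ∈ Rm (dR i E)) : nu E = nu (dR i E) + 1 := by
  refine le_antisymm (nu_le_dR i E) ?_
  rw [mem_Rm] at hj
  obtain ⟨M, hs, hM, hc⟩ := exists_max (dC j (dR i E))
  rw [← hj, ← hc]
  have hnot : (i, j) ∉ M := by
    intro h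
    have := hs h
    rw [mem_dC] at this
    exact this.2 rfl
  rw [← Finset.card_insert_of_notMem hnot]
  refine card_le_nu ?_ ?_
  · intro e he e' he' hh
    rw [Finset.mem_insert] at he he'
    rcases he with rfl | he
    · rcases he' with rfl | he'
      · rfl
      · exfalso
        have := hs he'
        rw [mem_dC, mem_dR] at this
        rcases hh with hh | hh
        · exact this.1.2 hh.symm
        · exact this.2 hh.symm
    · rcases he' with rfl | he'
      · exfalso
        have := hs he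
        rw [mem_dC, mem_dR] at this
        rcases hh with hh | hh
        · exact this.1.2 hh
        · exact this.2 hh
      · exact hM e he e' he' hh
  · intro e he
    rw [Finset.mem_insert] at he
    rcases he with rfl | he
    · exact hij
    · have := hs he
      rw [mem_dC, mem_dR] at this
      exact this.1.1

omit [Fintype I] in
/-- Row recursion for the matching number, no gain case. -/
theorem nu_rec_neg {i : I} {E : Finset (I × J)} (h : ∀ j, (i, j) ∈ E → j ∉ Rm (dR i E)) :
    nu E = nu (dR i E) := by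
  refine le_antisymm ?_ (nu_dR_le i E)
  obtain ⟨M, hs, hM, hc⟩ := exists_max E
  by_cases hi : ∃ j, (i, j) ∈ M
  · obtain ⟨j, hj⟩ := hi
    have h1 := h j (hs hj)
    rw [not_mem_Rm] at h1
    have h2 : (M.erase (i, j)).card ≤ nu (dC j (dR i E)) := by
      refine card_le_nu (hM.mono (Finset.erase_subset _ _)) ?_
      intro e he
      rw [Finset.mem_erase] at he
      rw [mem_dC, mem_dR]
      refine ⟨⟨hs he.2, ?_⟩, ?_⟩
      · intro hh; exact he.1 (hM e he.2 (i, j) hj (Or.inl hh))
      · intro hh; exact he.1 (hM e he.2 (i, j) hj (Or.inr hh))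
    have h3 := Finset.card_erase_add_one hj
    omega
  · rw [← hc]
    refine card_le_nu hM ?_
    intro e he
    rw [mem_dR]
    refine ⟨hs he, ?_⟩
    intro hh
    apply hi
    refine ⟨e.2, ?_⟩
    rw [← hh]; exact he

/-- the gain when row `i` is added -/
theorem mem_Lm_iff {i : I} {E : Finset (I × J)} :
    i ∈ Lm E ↔ ∀ j, (i, j) ∈ E → j ∉ Rm (dR i E) := by
  constructor
  · intro h j hj hR
    have := nu_rec_pos hj hR
    rw [mem_Lm] at h
    omega
  · intro h
    rw [mem_Lm]
    exact (nu_rec_neg h).symm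


omit [Fintype I] in
/-- Row recursion as one formula. -/
theorem nu_rec (i : I) (E : Finset (I × J)) :
    ((∃ t, (i, t) ∈ E ∧ t ∈ Rm (dR i E)) ∧ nu E = nu (dR i E) + 1) ∨
    ((∀ t, (i, t) ∈ E → t ∉ Rm (dR i E)) ∧ nu E = nu (dR i E)) := by
  by_cases h : ∃ t, (i, t) ∈ E ∧ t ∈ Rm (dR i E)
  · obtain ⟨t, h1, h2⟩ := h
    exact Or.inl ⟨⟨t, h1, h2⟩, nu_rec_pos h1 h2⟩
  · push Not at h
    exact Or.inr ⟨h, nu_rec_neg h⟩

omit [Fintype I] [DecidableEq I] in
theorem submod_of {E : Finset (I × J)} {j l : J} (h : j ∈ Rm (dC l E) → j ∈ Rm E) :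
    nu E + nu (dC j (dC l E)) ≤ nu (dC j E) + nu (dC l E) := by
  by_cases h1 : j ∈ Rm (dC l E)
  · have h2 := h h1
    rw [mem_Rm] at h1 h2
    omega
  · rw [not_mem_Rm] at h1
    have := nu_le_dC j E
    omega

omit [Fintype I] in
/-- submodularity in the columns: a column missable after deletion of `l` is missable. -/
theorem mono_Rm_aux : ∀ (n : ℕ) (E : Finset (I × J)), (E.image Prod.fst).card ≤ n →
    ∀ j l : J, j ≠ l → j ∈ Rm (dC l E) → j ∈ Rm E := by
  intro n
  induction n with
  | zero =>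
    intro E hE j l _ _
    have h0 : E = ∅ := by
      have : E.image Prod.fst = ∅ := Finset.card_eq_zero.mp (Nat.le_zero.mp hE)
      exact Finset.image_eq_empty.mp this
    subst h0
    rw [mem_Rm]; simp [dC]
  | succ n ih =>
    intro E hE j l hjl hj
    by_cases hemp : E = ∅
    · subst hemp; rw [mem_Rm]; simp [dC]
    obtain ⟨⟨i, j1⟩, hij1⟩ := Finset.nonempty_of_ne_empty hemp
    have hcard0 : ((dR i E).image Prod.fst).card ≤ n := by
      have hlt : ((dR i E).image Prod.fst).card < (E.image Prod.fst).card := by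
        refine Finset.card_lt_card ⟨Finset.image_subset_image (dR_sub i E), ?_⟩
        intro hsub
        have h1 : i ∈ E.image Prod.fst := Finset.mem_image.mpr ⟨(i, j1), hij1, rfl⟩
        have h2 := hsub h1
        rw [Finset.mem_image] at h2
        obtain ⟨e, he, hei⟩ := h2
        rw [mem_dR] at he
        exact he.2 hei
      omega
    have hcardC : ∀ t, ((dC t (dR i E)).image Prod.fst).card ≤ n := by
      intro t
      exact le_trans (Finset.card_le_card (Finset.image_subset_image (dC_sub t _))) hcard0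
    have ih0 := ih (dR i E) hcard0
    have ihC := fun t => ih (dC t (dR i E)) (hcardC t)
    by_contra hnot
    rw [not_mem_Rm] at hnot
    rw [mem_Rm] at hj
    -- recursions
    have r0 := nu_rec i E
    have rj := nu_rec i (dC j E)
    have rl := nu_rec i (dC l E)
    have rjl := nu_rec i (dC j (dC l E))
    rw [dR_dC i j E] at rj
    rw [dR_dC i l E] at rl
    rw [dR_dC i j (dC l E), dR_dC i l E] at rjl
    set E0 := dR i E with hE0
    have hle := nu_dC_le j (dC l E0)
    -- e_jl ≤ e_l
    have hjl_l : (∃ t, (i, t) ∈ dC j (dC l E) ∧ t ∈ Rm (dC j (dC l E0))) →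
        (∃ t, (i, t) ∈ dC l E ∧ t ∈ Rm (dC l E0)) := by
      rintro ⟨t, ht, htR⟩
      rw [mem_dC] at ht
      exact ⟨t, ht.1, ihC l t j ht.2 htR⟩
    have hjl_j : (∃ t, (i, t) ∈ dC j (dC l E) ∧ t ∈ Rm (dC j (dC l E0))) →
        (∃ t, (i, t) ∈ dC j E ∧ t ∈ Rm (dC j E0)) := by
      rintro ⟨t, ht, htR⟩
      rw [mem_dC, mem_dC] at ht
      rw [dC_comm j l E0] at htR
      exact ⟨t, by rw [mem_dC]; exact ⟨ht.1.1, ht.2⟩, ihC j t l ht.1.2 htR⟩
    have key1 : nu (dC j (dC l E0)) = nu (dC l E0) ∧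
        ((∃ t, (i, t) ∈ dC l E ∧ t ∈ Rm (dC l E0)) →
          (∃ t, (i, t) ∈ dC j (dC l E) ∧ t ∈ Rm (dC j (dC l E0)))) := by
      rcases rl with ⟨hl1, hl2⟩ | ⟨hl1, hl2⟩
      · rcases rjl with ⟨h1, h2⟩ | ⟨h1, h2⟩
        · exact ⟨by omega, fun _ => h1⟩
        · exfalso; omega
      · rcases rjl with ⟨h1, h2⟩ | ⟨h1, h2⟩
        · exfalso
          obtain ⟨t, ht1, ht2⟩ := hjl_l h1
          exact hl1 t ht1 ht2
        · refine ⟨by omega, ?_⟩
          rintro ⟨t, ht1, ht2⟩
          exact absurd ht2 (hl1 t ht1)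
    have hjRl : j ∈ Rm (dC l E0) := by rw [mem_Rm]; exact key1.1
    have hjR0 : j ∈ Rm E0 := ih0 j l hjl hjRl
    have hjR0' : nu (dC j E0) = nu E0 := mem_Rm.mp hjR0
    -- e = 1, e_j = 0
    have he : ∃ t, (i, t) ∈ E ∧ t ∈ Rm E0 := by
      rcases r0 with ⟨h1, h2⟩ | ⟨h1, h2⟩
      · exact h1
      · exfalso
        rcases rj with ⟨h3, h4⟩ | ⟨h3, h4⟩ <;> omega
    have hej : ∀ t, (i, t) ∈ dC j E → t ∉ Rm (dC j E0) := by
      rcases rj with ⟨h3, h4⟩ | ⟨h3, h4⟩
      · exfalso
        rcases r0 with ⟨h1, h2⟩ | ⟨h1, h2⟩ <;> omega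
      · exact h3
    have hel : ∀ t, (i, t) ∈ dC l E → t ∉ Rm (dC l E0) := by
      intro t ht htR
      obtain ⟨t', h1, h2⟩ := hjl_j (key1.2 ⟨t, ht, htR⟩)
      exact hej t' h1 h2
    obtain ⟨t, htE, htR⟩ := he
    have htj : t ≠ j := by
      rintro rfl
      exact hel t (by rw [mem_dC]; exact ⟨htE, hjl⟩) hjRl
    have htj' := hej t (by rw [mem_dC]; exact ⟨htE, htj⟩)
    rw [not_mem_Rm] at htj'
    by_cases htl : t = l
    · subst htl
      rw [mem_Rm] at htR
      rw [dC_comm t j E0] at htj'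
      omega
    · have htl' := hel t (by rw [mem_dC]; exact ⟨htE, htl⟩)
      rw [not_mem_Rm] at htl'
      have hs := submod_of (E := dC t E0) (j := j) (l := l) (ihC t j l hjl)
      rw [mem_Rm] at htR
      have h5 := nu_le_dC t (dC j (dC l E0))
      have e1 : dC j (dC l (dC t E0)) = dC t (dC j (dC l E0)) := by
        rw [dC_comm l t E0, dC_comm j t (dC l E0)]
      rw [e1, dC_comm j t E0, dC_comm l t E0] at hs
      have := key1.1
      omega

omit [Fintype I] in
/-- A column missable after deletion of another column is missable. -/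
theorem mono_Rm {E : Finset (I × J)} {j l : J} (hjl : j ≠ l) (h : j ∈ Rm (dC l E)) :
    j ∈ Rm E := mono_Rm_aux _ E le_rfl j l hjl h

omit [Fintype I] in
theorem submod {E : Finset (I × J)} {j l : J} (hjl : j ≠ l) :
    nu E + nu (dC j (dC l E)) ≤ nu (dC j E) + nu (dC l E) :=
  submod_of (fun h => mono_Rm hjl h)

/-- The class of the missable column `j`: the missable columns that cannot be missed together
with `j` (and `j` itself). -/
noncomputable def cls (E : Finset (I × J)) (j : J) : Finset J :=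
  (Rm E).filter (fun l => l = j ∨ l ∉ Rm (dC j E))

omit [Fintype I] [DecidableEq I] in
theorem mem_cls {E : Finset (I × J)} {j l : J} :
    l ∈ cls E j ↔ l ∈ Rm E ∧ (l = j ∨ l ∉ Rm (dC j E)) := by simp [cls]

omit [Fintype I] in
theorem not_mem_both {E : Finset (I × J)} {j l : J} (hj : j ∈ Rm E) :
    l ∉ Rm (dC j E) ↔ nu E = nu (dC l (dC j E)) + 1 := by
  rw [not_mem_Rm]
  rw [mem_Rm] at hj
  rw [hj]

omit [Fintype I] in
theorem cls_self {E : Finset (I × J)} {j : J} (hj : j ∈ Rm E) : j ∈ cls E j := by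
  rw [mem_cls]; exact ⟨hj, Or.inl rfl⟩

omit [Fintype I] in
theorem cls_symm {E : Finset (I × J)} {j l : J} (hj : j ∈ Rm E) (h : l ∈ cls E j) :
    j ∈ cls E l := by
  rw [mem_cls] at h ⊢
  refine ⟨hj, ?_⟩
  rcases h.2 with rfl | h2
  · exact Or.inl rfl
  · right
    rw [not_mem_both hj] at h2
    rw [not_mem_both h.1, dC_comm j l E]
    exact h2

omit [Fintype I] in
theorem cls_trans {E : Finset (I × J)} {j l t : J} (hj : j ∈ Rm E) (h1 : l ∈ cls E j)
    (h2 : t ∈ cls E l) : t ∈ cls E j := by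
  rw [mem_cls] at h1 h2 ⊢
  refine ⟨h2.1, ?_⟩
  by_cases htj : t = j
  · exact Or.inl htj
  right
  rcases h1.2 with rfl | h3
  · rcases h2.2 with h4 | h4
    · exact absurd h4 htj
    · exact h4
  rcases h2.2 with rfl | h4
  · exact h3
  rw [not_mem_both hj] at h3
  rw [not_mem_both h1.1] at h4
  rw [not_mem_both hj]
  by_contra hcon
  have hl := h1.1
  rw [mem_Rm] at hj hl
  have hs := submod (E := dC l E) (j := j) (l := t) (fun h => htj h.symm)
  have h5 := nu_dC_le t (dC j E)
  have h6 := nu_le_dC t (dC j E)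
  have h7 := nu_le_dC l (dC j (dC t E))
  have e1 : dC j (dC t (dC l E)) = dC l (dC j (dC t E)) := by
    rw [dC_comm t l E, dC_comm j l (dC t E)]
  rw [e1, dC_comm j l E] at hs
  rw [dC_comm t j E] at hcon h5 h6
  omega

omit [Fintype I] in
theorem cls_eq {E : Finset (I × J)} {j l : J} (hj : j ∈ Rm E) (h : l ∈ cls E j) :
    cls E l = cls E j := by
  have hl : l ∈ Rm E := (mem_cls.mp h).1
  ext t
  constructor
  · intro ht; exact cls_trans hj h ht
  · intro ht
    exact cls_trans hl (cls_symm hj h) ht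

omit [Fintype I] in
/-- Missable columns after adding row `i`. -/
theorem mem_Rm_add {i : I} {E : Finset (I × J)} {j : J} :
    j ∈ Rm E ↔ j ∈ Rm (dR i E) ∧
      ((∀ t, (i, t) ∈ E → t ∉ Rm (dR i E)) ∨
        ∃ t, (i, t) ∈ E ∧ t ∈ Rm (dR i E) ∧ t ∉ cls (dR i E) j) := by
  have r0 := nu_rec i E
  have rj := nu_rec i (dC j E)
  rw [dR_dC i j E] at rj
  set E0 := dR i E with hE0
  have hle := nu_dC_le j E0
  have hle2 := nu_le_dC j E0
  constructor
  · intro h
    rw [mem_Rm] at h
    have hmono : (∃ t, (i, t) ∈ dC j E ∧ t ∈ Rm (dC j E0)) →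
        (∃ t, (i, t) ∈ E ∧ t ∈ Rm E0) := by
      rintro ⟨t, ht, htR⟩
      rw [mem_dC] at ht
      exact ⟨t, ht.1, mono_Rm ht.2 htR⟩
    rcases r0 with ⟨h1, h2⟩ | ⟨h1, h2⟩
    · rcases rj with ⟨h3, h4⟩ | ⟨h3, h4⟩
      · have hj0 : j ∈ Rm E0 := by rw [mem_Rm]; omega
        refine ⟨hj0, Or.inr ?_⟩
        obtain ⟨t, ht, htR⟩ := h3
        rw [mem_dC] at ht
        refine ⟨t, ht.1, mono_Rm ht.2 htR, ?_⟩
        rw [mem_cls]
        rintro ⟨_, h5 | h5⟩
        · exact ht.2 h5
        · exact h5 htR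
      · exfalso; omega
    · rcases rj with ⟨h3, h4⟩ | ⟨h3, h4⟩
      · exfalso
        obtain ⟨t, ht, htR⟩ := hmono h3
        exact h1 t ht htR
      · exact ⟨by rw [mem_Rm]; omega, Or.inl h1⟩
  · rintro ⟨hj0, h⟩
    rw [mem_Rm] at hj0 ⊢
    rcases h with h | ⟨t, ht, htR, htc⟩
    · have h3 : ∀ t, (i, t) ∈ dC j E → t ∉ Rm (dC j E0) := by
        intro t ht htR
        rw [mem_dC] at ht
        exact h t ht.1 (mono_Rm ht.2 htR)
      rcases r0 with ⟨⟨t, h1, h1'⟩, h2⟩ | ⟨h1, h2⟩
      · exact absurd h1' (h t h1)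
      · rcases rj with ⟨⟨t, h4, h4'⟩, h5⟩ | ⟨h4, h5⟩
        · exact absurd h4' (h3 t h4)
        · omega
    · rw [mem_cls] at htc
      push Not at htc
      have htc' := htc htR
      have h3 : (i, t) ∈ dC j E := by rw [mem_dC]; exact ⟨ht, htc'.1⟩
      rcases r0 with ⟨_, h2⟩ | ⟨h1, h2⟩
      · rcases rj with ⟨_, h5⟩ | ⟨h4, h5⟩
        · omega
        · exact absurd htc'.2 (h4 t h3)
      · exact absurd htR (h1 t ht)

/-- The class with label `k`. -/
noncomputable def cl (H : Finset (I × J)) (k : Finset J) : Finset J :=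
  (Rm H).filter (fun l => cls H l = k)

theorem mem_cl {H : Finset (I × J)} {k : Finset J} {l : J} :
    l ∈ cl H k ↔ l ∈ Rm H ∧ cls H l = k := by simp [cl]

/-- indicator that row `i` has no neighbour in `S` -/
noncomputable def av (i : I) (E : Finset (I × J)) (S : Finset J) : ℝ :=
  if ∀ j ∈ S, (i, j) ∉ E then 1 else 0

theorem av_one {i : I} {E : Finset (I × J)} {S : Finset J} (h : ∀ j ∈ S, (i, j) ∉ E) :
    av i E S = 1 := if_pos h

theorem av_zero {i : I} {E : Finset (I × J)} {S : Finset J} {j : J} (h : j ∈ S)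
    (h' : (i, j) ∈ E) : av i E S = 0 := by
  unfold av
  rw [if_neg]
  intro hh
  exact hh j h h'

/-- The missable columns after adding row `i` in terms of those before. -/
theorem Phi_Rm (Φ : Finset J → ℝ) (i : I) (E : Finset (I × J)) :
    Φ (Rm E) = Φ (Rm (dR i E)) + ∑ k : Finset J,
      (av i E (Rm (dR i E) \ cl (dR i E) k) - av i E (Rm (dR i E))) *
        (Φ (Rm (dR i E) \ cl (dR i E) k) - Φ (Rm (dR i E))) := by
  classical
  set H := dR i E with hH
  by_cases h1 : ∀ t, (i, t) ∈ E → t ∉ Rm H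
  · have e1 : Rm E = Rm H := by
      ext j
      rw [mem_Rm_add (i := i), ← hH]
      constructor
      · exact fun h => h.1
      · exact fun h => ⟨h, Or.inl h1⟩
    have e2 : av i E (Rm H) = 1 := av_one (fun j hj hij => h1 j hij hj)
    have e3 : ∀ k, av i E (Rm H \ cl H k) = 1 := fun k =>
      av_one (fun j hj hij => h1 j hij (Finset.mem_sdiff.mp hj).1)
    rw [e1]
    simp [e2, e3]
  · push Not at h1
    obtain ⟨t0, ht0, ht0R⟩ := h1
    have e2 : av i E (Rm H) = 0 := av_zero ht0R ht0
    have hne : ∀ k, k ≠ cls H t0 → av i E (Rm H \ cl H k) = 0 := by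
      intro k hk
      refine av_zero (j := t0) ?_ ht0
      rw [Finset.mem_sdiff, mem_cl]
      exact ⟨ht0R, fun hh => hk hh.2.symm⟩
    have hcl : cl H (cls H t0) = cls H t0 := by
      ext j
      rw [mem_cl]
      constructor
      · rintro ⟨h1, h2⟩
        rw [← h2]; exact cls_self h1
      · intro h
        exact ⟨(mem_cls.mp h).1, cls_eq ht0R h⟩
    by_cases h2 : ∀ t, (i, t) ∈ E → t ∈ Rm H → t ∈ cls H t0
    · have e1 : Rm E = Rm H \ cl H (cls H t0) := by
        ext j
        rw [mem_Rm_add (i := i), ← hH, hcl, Finset.mem_sdiff]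
        constructor
        · rintro ⟨hj, hh⟩
          refine ⟨hj, ?_⟩
          intro hjc
          rcases hh with hh | ⟨t, ht, htR, htc⟩
          · exact hh t0 ht0 ht0R
          · rw [cls_eq ht0R hjc] at htc
            exact htc (h2 t ht htR)
        · rintro ⟨hj, hjc⟩
          refine ⟨hj, Or.inr ⟨t0, ht0, ht0R, ?_⟩⟩
          intro hh
          exact hjc (cls_symm hj hh)
      rw [Finset.sum_eq_single (cls H t0)]
      · have e3 : av i E (Rm H \ cl H (cls H t0)) = 1 := by
          refine av_one ?_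
          intro j hj hij
          rw [hcl, Finset.mem_sdiff] at hj
          exact hj.2 (h2 j hij hj.1)
        rw [e3, e2, e1]; ring
      · intro k _ hk
        rw [hne k hk, e2]; ring
      · intro h; exact absurd (Finset.mem_univ _) h
    · push Not at h2
      obtain ⟨t1, ht1, ht1R, ht1c⟩ := h2
      have hc1 : cls H t1 ≠ cls H t0 := by
        intro hh
        apply ht1c
        rw [← hh]; exact cls_self ht1R
      have e1 : Rm E = Rm H := by
        ext j
        rw [mem_Rm_add (i := i), ← hH]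
        constructor
        · exact fun h => h.1
        · intro hj
          refine ⟨hj, Or.inr ?_⟩
          by_cases h3 : t0 ∈ cls H j
          · refine ⟨t1, ht1, ht1R, ?_⟩
            rw [← cls_eq hj h3]; exact ht1c
          · exact ⟨t0, ht0, ht0R, h3⟩
      have e3 : ∀ k, av i E (Rm H \ cl H k) = 0 := by
        intro k
        by_cases hk : k = cls H t0
        · refine av_zero (j := t1) ?_ ht1
          rw [Finset.mem_sdiff, mem_cl]
          exact ⟨ht1R, fun hh => hc1 (hh.2.trans hk)⟩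
        · exact hne k hk
      rw [e1]
      simp [e2, e3]

/-- indicator of a missed row -/
noncomputable def Xi (i : I) (E : Finset (I × J)) : ℝ := if i ∈ Lm E then 1 else 0

theorem Xi_eq (i : I) (E : Finset (I × J)) : Xi i E = av i E (Rm (dR i E)) := by
  unfold Xi av
  congr 1
  rw [mem_Lm_iff]
  apply propext
  constructor
  · intro h j hj hij; exact h j hij hj
  · intro h j hij hj; exact h j hj hij

theorem mem_dR_other {i k : I} (h : k ≠ i) {E : Finset (I × J)} {j : J} :
    (k, j) ∈ dR i E ↔ (k, j) ∈ E := by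
  rw [mem_dR]; simp [h]

theorem av_dR {i k : I} (h : k ≠ i) {E : Finset (I × J)} {S : Finset J} :
    av k (dR i E) S = av k E S := by
  unfold av
  simp only [mem_dR_other h]

/-- the pair sum -/
noncomputable def Sp (i k : I) (E : Finset (I × J)) : ℝ :=
  ∑ c : Finset J,
    (av k E (Rm (dR k (dR i E)) \ cl (dR k (dR i E)) c) - av k E (Rm (dR k (dR i E)))) *
    (av i E (Rm (dR k (dR i E)) \ cl (dR k (dR i E)) c) - av i E (Rm (dR k (dR i E))))

theorem Xi_pair1 {i k : I} (h : k ≠ i) (E : Finset (I × J)) :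
    Xi i E = av i E (Rm (dR k (dR i E))) + Sp i k E := by
  rw [Xi_eq, Phi_Rm (fun S => av i E S) k (dR i E)]
  simp only [av_dR h]
  rfl

theorem Sp_symm (i k : I) (E : Finset (I × J)) : Sp i k E = Sp k i E := by
  unfold Sp
  rw [dR_comm k i E]
  exact Finset.sum_congr rfl (fun c _ => mul_comm _ _)

theorem Xi_pair2 {i k : I} (h : k ≠ i) (E : Finset (I × J)) :
    Xi k E = av k E (Rm (dR k (dR i E))) + Sp i k E := by
  rw [Xi_pair1 (i := k) (k := i) h.symm E, dR_comm i k E, Sp_symm k i E]

theorem av_mono {i : I} {E : Finset (I × J)} {S S' : Finset J} (h : S' ⊆ S)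
    (h1 : av i E S = 1) : av i E S' = 1 := by
  unfold av at *
  by_cases h2 : ∀ j ∈ S, (i, j) ∉ E
  · exact if_pos (fun j hj => h2 j (h hj))
  · rw [if_neg h2] at h1; norm_num at h1

theorem av_cases (i : I) (E : Finset (I × J)) (S : Finset J) :
    av i E S = 0 ∨ av i E S = 1 := by
  unfold av; split_ifs <;> simp

theorem Xi_mul {i k : I} (h : k ≠ i) (E : Finset (I × J)) :
    Xi i E * Xi k E = av i E (Rm (dR k (dR i E))) * av k E (Rm (dR k (dR i E))) + Sp i k E := by
  have h1 := Xi_pair1 h E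
  have h2 := Xi_pair2 h E
  set R := Rm (dR k (dR i E)) with hR
  have hx : Xi i E = 0 ∨ Xi i E = 1 := by unfold Xi; split_ifs <;> simp
  rcases av_cases i E R with ha | ha
  · rcases av_cases k E R with hb | hb
    · rw [h1, h2, ha, hb]
      rw [ha, zero_add] at h1
      rw [← h1]
      rcases hx with hx | hx <;> rw [hx] <;> ring
    · have hS : Sp i k E = 0 := by
        unfold Sp
        refine Finset.sum_eq_zero (fun c _ => ?_)
        rw [av_mono Finset.sdiff_subset hb, hb]; ring
      rw [h1, h2, ha, hb, hS]; ring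
  · have hS : Sp i k E = 0 := by
      unfold Sp
      refine Finset.sum_eq_zero (fun c _ => ?_)
      rw [av_mono (S := R) Finset.sdiff_subset ha, ha]; ring
    rw [h1, h2, ha, hS]; ring

/-- Symmetry of the exchange event. -/
theorem cross_symm (i : I) (j : J) (E : Finset (I × J)) :
    (j ∈ Rm (dR i E) ∧ j ∉ Rm E) ↔ (i ∈ Lm (dC j E) ∧ i ∉ Lm E) := by
  rw [not_mem_Rm, mem_Rm, not_mem_Lm, mem_Lm, dR_dC i j E]
  have h1 := nu_dR_le i (dC j E)
  have h2 := nu_dC_le j (dR i E)
  have h3 := nu_dC_le j E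
  have h4 := nu_dR_le i E
  have h5 := nu_le_dC j E
  have h6 := nu_le_dR i E
  rw [dR_dC i j E] at h1
  omega


/-- Koenig's theorem in terms of missable columns. -/
theorem koenig (E : Finset (I × J)) :
    nu E = (univ.filter (fun j => j ∉ Rm E)).card +
      (univ.filter (fun i : I => ∃ j ∈ Rm E, (i, j) ∈ E)).card := by
  classical
  obtain ⟨M, hs, hM, hc⟩ := exists_max E
  have hi : ∀ i j', (i, j') ∈ E → j' ∈ Rm E → i ∉ Lm E := by
    intro i j' hij hj' hL
    rw [mem_Lm_iff] at hL
    rw [mem_Rm_add (i := i)] at hj'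
    exact hL j' hij hj'.1
  have ha : ∀ j, j ∉ Rm E → ∃ i, (i, j) ∈ M := by
    intro j hj
    by_contra hno
    push Not at hno
    rw [not_mem_Rm] at hj
    have : M.card ≤ nu (dC j E) := by
      refine card_le_nu hM ?_
      intro e he
      rw [mem_dC]
      refine ⟨hs he, ?_⟩
      intro hh
      apply hno e.1
      rw [← hh]; exact he
    omega
  have hb : ∀ i j', (i, j') ∈ E → j' ∈ Rm E → ∃ j, (i, j) ∈ M := by
    intro i j' hij hj'
    by_contra hno
    push Not at hno
    have h1 := hi i j' hij hj'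
    rw [not_mem_Lm] at h1
    have : M.card ≤ nu (dR i E) := by
      refine card_le_nu hM ?_
      intro e he
      rw [mem_dR]
      refine ⟨hs he, ?_⟩
      intro hh
      apply hno e.2
      rw [← hh]; exact he
    omega
  have hcc : ∀ i j, (i, j) ∈ M → j ∉ Rm E → ∀ j', (i, j') ∈ E → j' ∉ Rm E := by
    intro i j hij hj j' hij' hj'
    have h1 := hi i j' hij' hj'
    rw [not_mem_Lm] at h1
    have h2 : (M.erase (i, j)).card ≤ nu (dC j (dR i E)) := by
      refine card_le_nu (hM.mono (Finset.erase_subset _ _)) ?_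
      intro e he
      rw [Finset.mem_erase] at he
      rw [mem_dC, mem_dR]
      refine ⟨⟨hs he.2, ?_⟩, ?_⟩
      · intro hh; exact he.1 (hM e he.2 (i, j) hij (Or.inl hh))
      · intro hh; exact he.1 (hM e he.2 (i, j) hij (Or.inr hh))
    have h3 := Finset.card_erase_add_one hij
    have h4 := nu_dC_le j (dR i E)
    have hj0 : j ∈ Rm (dR i E) := by rw [mem_Rm]; omega
    rw [mem_Rm_add (i := i)] at hj hj'
    push Not at hj
    have hj1 := hj hj0
    obtain ⟨hj'0, hj'1⟩ := hj'
    have hj'c : j' ∈ cls (dR i E) j := hj1.2 j' hij' hj'0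
    rcases hj'1 with h5 | ⟨t, ht, htR, htc⟩
    · exact h5 j' hij' hj'0
    · rw [cls_eq hj0 hj'c] at htc
      exact htc (hj1.2 t ht htR)
  have e1 : (univ.filter (fun j => j ∉ Rm E)).card = (M.filter (fun e => e.2 ∉ Rm E)).card := by
    rw [← Finset.card_image_of_injOn (s := M.filter (fun e => e.2 ∉ Rm E)) (f := Prod.snd)]
    · congr 1
      ext j
      simp only [Finset.mem_filter, Finset.mem_univ, true_and, Finset.mem_image]
      constructor
      · intro hj
        obtain ⟨i, hij⟩ := ha j hj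
        exact ⟨(i, j), ⟨hij, hj⟩, rfl⟩
      · rintro ⟨e, ⟨_, he⟩, rfl⟩; exact he
    · intro e he e' he' hh
      simp only [Finset.coe_filter, Set.mem_setOf_eq] at he he'
      exact hM e he.1 e' he'.1 (Or.inr hh)
  have e2 : (univ.filter (fun i : I => ∃ j ∈ Rm E, (i, j) ∈ E)).card =
      (M.filter (fun e => ¬ (e.2 ∉ Rm E))).card := by
    rw [← Finset.card_image_of_injOn (s := M.filter (fun e => ¬ (e.2 ∉ Rm E))) (f := Prod.fst)]
    · congr 1
      ext i
      simp only [Finset.mem_filter, Finset.mem_univ, true_and, Finset.mem_image, not_not]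
      constructor
      · rintro ⟨j', hj', hij'⟩
        obtain ⟨j, hij⟩ := hb i j' hij' hj'
        refine ⟨(i, j), ⟨hij, ?_⟩, rfl⟩
        by_contra hj
        exact hcc i j hij hj j' hij' hj'
      · rintro ⟨e, ⟨he, he'⟩, rfl⟩; exact ⟨e.2, he', hs he⟩
    · intro e he e' he' hh
      simp only [Finset.coe_filter, Set.mem_setOf_eq] at he he'
      exact hM e he.1 e' he'.1 (Or.inl hh)
  rw [e1, e2, ← hc]
  exact (Finset.card_filter_add_card_filter_not (s := M) (fun e : I × J => e.2 ∉ Rm E)).symm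

end Pool.KS
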