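import Pool.Agent.KS.Scal8

/-! The column inequality. -/

namespace Pool.KS

open Real

/-- small second moment ratio: bound by `E((1+κℓ) - μ r)` -/
theorem col_half {J : Type*} {a : J → ℝ} (h0 : ∀ j, 0 ≤ a j) (h1 : ∀ j, a j < 1)
    (S : Finset J) {x κ : ℝ} (hx : 0 ≤ x) (hx2 : x ≤ 1 / 2)
    (hs : ∑ j ∈ S, a j ^ 2 = (∑ j ∈ S, a j) * x) (hA1 : ∑ j ∈ S, a j ≤ 1)
    (hκ0 : 0 ≤ κ) (hκ1 : κ ≤ 1) :
    exp (-TT a S) * (1 + κ * TT a S) ≤ exp (-∑ j ∈ S, a j) * ((1 + κ * ∑ j ∈ S, a j) -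
      (1 + κ * (∑ j ∈ S, a j) - κ) * ((∑ j ∈ S, a j) * x / 2 +
      ((∑ j ∈ S, a j) / 3 - (∑ j ∈ S, a j) ^ 2 / 8) * x ^ 2)) := by
  have hV := V_le h0 h1 S hx hx2 hs hA1
  have hA0 : 0 ≤ ∑ j ∈ S, a j := Finset.sum_nonneg (fun j _ => h0 j)
  set A := ∑ j ∈ S, a j with hA
  set r := A * x / 2 + (A / 3 - A ^ 2 / 8) * x ^ 2 with hr
  have hr0 : 0 ≤ r := by
    have : 0 ≤ A / 3 - A ^ 2 / 8 := by nlinarith
    positivity
  have hr1 : r < 1 := by
    have h3 : A * x ≤ 1 / 2 := by nlinarith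
    have h4 : (A / 3 - A ^ 2 / 8) * x ^ 2 ≤ (1 / 3) * (1 / 4) := by
      apply mul_le_mul
      · nlinarith [sq_nonneg A]
      · nlinarith
      · positivity
      · norm_num
    rw [hr]; linarith
  set E := exp (-A) with hE
  have hE0 : 0 < E := exp_pos _
  have hE1 : E ≤ 1 := exp_le_one_iff.mpr (by linarith)
  have hW0 : 0 < E * (1 - r) := mul_pos hE0 (by linarith)
  have hW1 : E * (1 - r) ≤ 1 := by nlinarith
  have hk := V_kappa (exp_pos (-TT a S)) hV hW1 hκ1 hκ0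
  rw [log_exp, neg_neg] at hk
  refine le_trans hk ?_
  have hlog : -log (E * (1 - r)) ≤ A + r / (1 - r) := by
    rw [log_mul hE0.ne' (by linarith), hE, log_exp]
    have := one_sub_inv_le_log_of_pos (show 0 < 1 - r by linarith)
    have e : 1 - (1 - r)⁻¹ = -(r / (1 - r)) := by
      have : (1 - r) ≠ 0 := by linarith
      field_simp; ring
    linarith
  have h2 : E * (1 - r) * (1 + κ * -log (E * (1 - r))) ≤
      E * (1 - r) * (1 + κ * (A + r / (1 - r))) := by
    refine mul_le_mul_of_nonneg_left ?_ hW0.le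
    have := mul_le_mul_of_nonneg_left hlog hκ0
    linarith
  refine le_trans h2 (le_of_eq ?_)
  have : (1 - r) ≠ 0 := by linarith
  field_simp
  ring

theorem fin_quad {H x : ℝ} (hH0 : 0 ≤ H) (hH1 : H ≤ 2501 / 10000) :
    0 ≤ (96 / 10000 - 295 / 10000 * H) -
            (503 / 10000 - 205 / 1000 * H) * x + 764 / 10000 * x ^ 2 := by
  have h8 : 0 ≤ 4 * (764 / 10000) * (96 / 10000 - 295 / 10000 * H) -
      (503 / 10000 - 205 / 1000 * H) ^ 2 := by
    nlinarith [mul_nonneg hH0 (show 0 ≤ 2501 / 10000 - H by linarith)]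
  have h9 := sq_nonneg (2 * (764 / 10000) * x - (503 / 10000 - 205 / 1000 * H))
  linarith

theorem large_case {l y κ x A Ey : ℝ} (hlo : 567143 / 1000000 < l) (hhi : l < 567144 / 1000000)
    (hy0 : 1828 / 10000 ≤ y) (hy1 : y ≤ 432857 / 1000000) (hy : A = l + y) (hA1 : A ≤ 1)
    (hκ0 : 0 ≤ κ) (hκu : κ ≤ 3 / 5 * (y - 746 / 10000) ^ 2) (hx0 : 0 ≤ x) (hey0 : 0 < Ey)
    (hEup : Ey ≤ 1 - y + y ^ 2 / 2 - y ^ 3 / 6 + y ^ 4 / 24)
    (hElo : 1 - y + y ^ 2 / 2 - y ^ 3 / 6 + y ^ 4 / 24 - y ^ 5 / 120 ≤ Ey) :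
    l * Ey * (1 + κ * A - (1 + κ * A - κ) * (A * x / 2 + (A / 3 - A ^ 2 / 8) * x ^ 2)) +
      117 / 500 * (A * x) ≤ l - l * y + 9 / 20 * y ^ 2 := by
  have hA0 : 0 ≤ A := by linarith
  have hAb := A_big hlo hhi hy0 hy1
  have hBb := B_big hy0 hy1
  have hCb := C_big hy0 hy1
  have hy00 : 0 ≤ y := by linarith
  have he5pos : 0 ≤ 1 - y + y ^ 2 / 2 - y ^ 3 / 6 + y ^ 4 / 24 - y ^ 5 / 120 := by
    have h1y : 0 ≤ 1 - y := by linarith
    have h3 := mul_nonneg (pow_nonneg hy00 2) h1y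
    have h5 := mul_nonneg (pow_nonneg hy00 4) h1y
    have h2 := pow_nonneg hy00 2
    have h4 := pow_nonneg hy00 4
    linarith
  have hk00 : 0 ≤ 3 / 5 * (y - 746 / 10000) ^ 2 := by positivity
  have hk01 : 3 / 5 * (y - 746 / 10000) ^ 2 ≤ 8 / 100 := by
    have := pow_le_pow_left₀ (show 0 ≤ y - 746 / 10000 by linarith)
      (show y - 746 / 10000 ≤ 36 / 100 by linarith) 2
    linarith
  generalize 3 / 5 * (y - 746 / 10000) ^ 2 = k0 at *
  generalize 1 - y + y ^ 2 / 2 - y ^ 3 / 6 + y ^ 4 / 24 - y ^ 5 / 120 = e5 at *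
  generalize 1 - y + y ^ 2 / 2 - y ^ 3 / 6 + y ^ 4 / 24 = e4 at *
  -- A part
  have hP1 : l * Ey * (1 + κ * A) ≤ 567144 / 1000000 * e4 *
      (1 + k0 * (567144 / 1000000 + y)) := by
    have hlE : l * Ey ≤ 567144 / 1000000 * e4 :=
      mul_le_mul (by linarith) hEup hey0.le (by norm_num)
    have hkA : κ * A ≤ k0 * (567144 / 1000000 + y) :=
      mul_le_mul hκu (by linarith) hA0 hk00
    have h1 := mul_nonneg hκ0 hA0
    refine mul_le_mul hlE (by linarith) (by linarith) ?_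
    exact le_trans (mul_nonneg (by linarith) hey0.le) hlE
  -- μ
  have hμ : 1 - k0 * (432857 / 1000000 - y) ≤ 1 + κ * A - κ := by
    have h5 : κ * (1 - A) ≤ k0 * (432857 / 1000000 - y) :=
      mul_le_mul hκu (by linarith) (by linarith) hk00
    linarith
  have hμ0 : 0 ≤ 1 - k0 * (432857 / 1000000 - y) := by
    have := mul_le_mul hk01 (show 432857 / 1000000 - y ≤ 1 by linarith) (by linarith)
      (by norm_num)
    linarith
  have hEl : 567143 / 1000000 * e5 ≤ l * Ey :=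
    mul_le_mul (by linarith) hElo he5pos (by linarith)
  have hEl0 : 0 ≤ 567143 / 1000000 * e5 := by positivity
  have hEl1 : 0 ≤ l * Ey := by linarith
  have hEμ : 567143 / 1000000 * e5 * (1 - k0 * (432857 / 1000000 - y)) ≤
      l * Ey * (1 + κ * A - κ) :=
    mul_le_mul hEl hμ hμ0 hEl1
  have hEμ0 : 0 ≤ 567143 / 1000000 * e5 * (1 - k0 * (432857 / 1000000 - y)) :=
    mul_nonneg hEl0 hμ0
  have e : l * Ey * (1 + κ * A - (1 + κ * A - κ) * (A * x / 2 + (A / 3 - A ^ 2 / 8) * x ^ 2))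
    = l * Ey * (1 + κ * A) - (1 / 2 * (A * (l * Ey * (1 + κ * A - κ)))) * x -
      l * Ey * (1 + κ * A - κ) * (A / 3 - A ^ 2 / 8) * x ^ 2 := by ring
  rw [e]
  have hBb' : 117 / 500 * (567144 / 1000000 + y) - 1 / 2 * ((567143 / 1000000 + y) *
      (567143 / 1000000 * e5 * (1 - k0 * (432857 / 1000000 - y)))) ≤
      503 / 10000 - 205 / 1000 * (432857 / 1000000 - y) := by
    linarith
  clear e hBb hElo hEup hκu hEl hEl0 hEl1 hμ hμ0 he5pos hk00 hk01
  generalize l * Ey * (1 + κ * A - κ) = G at *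
  generalize 567143 / 1000000 * e5 * (1 - k0 * (432857 / 1000000 - y)) = G0 at *
  -- B part
  have hP2 : 117 / 500 * A - 1 / 2 * (A * G) ≤
      503 / 10000 - 205 / 1000 * (432857 / 1000000 - y) := by
    have h6 : (567143 / 1000000 + y) * G0 ≤ A * G :=
      mul_le_mul (by linarith) hEμ hEμ0 hA0
    linarith
  have hP3 : 764 / 10000 ≤ G * (A / 3 - A ^ 2 / 8) := by
    refine le_trans hCb ?_
    have h0y : 0 ≤ (567143 / 1000000 + y) / 3 - (567143 / 1000000 + y) ^ 2 / 8 := by nlinarith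
    have h1y : (567143 / 1000000 + y) / 3 - (567143 / 1000000 + y) ^ 2 / 8 ≤
        A / 3 - A ^ 2 / 8 := by nlinarith
    exact mul_le_mul hEμ h1y h0y (by linarith)
  -- final
  have hfin := fin_quad (H := 432857 / 1000000 - y) (x := x) (by linarith) (by linarith)
  have h9 := mul_le_mul_of_nonneg_right hP2 hx0
  have h10 := mul_le_mul_of_nonneg_right hP3 (sq_nonneg x)
  linarith

theorem col_F {J : Type*} {a : J → ℝ} (h0 : ∀ j, 0 ≤ a j) (h1 : ∀ j, a j ≤ 7722 / 10000)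
    (S : Finset J) {l : ℝ} (hl : exp (-l) = l) (hA1 : ∑ j ∈ S, a j ≤ 1) :
    exp (-TT a S) * (1 + 20 / 27 * (max (1 / 2 - l + 9 / 10 * ((∑ j ∈ S, a j) - l)) 0) ^ 2 *
      TT a S) + 117 / 500 * ∑ j ∈ S, a j ^ 2 ≤
      l - l * ((∑ j ∈ S, a j) - l) + 9 / 20 * ((∑ j ∈ S, a j) - l) ^ 2 := by
  have hlo := lam_lo hl
  have hhi := lam_hi hl
  have h1' : ∀ j, a j < 1 := fun j => by linarith [h1 j]
  have h1'' : ∀ j, a j ≤ 78 / 100 := fun j => by linarith [h1 j]
  have hA0 : 0 ≤ ∑ j ∈ S, a j := Finset.sum_nonneg (fun j _ => h0 j)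
  have hT0 := TT_nonneg h0 h1'' S
  have hθ1 : max (1 / 2 - l + 9 / 10 * ((∑ j ∈ S, a j) - l)) 0 ≤ 32243 / 100000 :=
    max_le (by linarith) (by norm_num)
  have hθ0 : 0 ≤ max (1 / 2 - l + 9 / 10 * ((∑ j ∈ S, a j) - l)) 0 := le_max_right _ _
  have hκ1 : 20 / 27 * (max (1 / 2 - l + 9 / 10 * ((∑ j ∈ S, a j) - l)) 0) ^ 2 ≤ 771 / 10000 := by
    have := pow_le_pow_left₀ hθ0 hθ1 2
    norm_num at this ⊢
    linarith
  have hκ0 : 0 ≤ 20 / 27 * (max (1 / 2 - l + 9 / 10 * ((∑ j ∈ S, a j) - l)) 0) ^ 2 := by positivity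
  rcases hA0.eq_or_lt with hz | hpos
  · -- zero mass
    have hz' : ∀ j ∈ S, a j = 0 := (Finset.sum_eq_zero_iff_of_nonneg (fun j _ => h0 j)).mp hz.symm
    have hT : TT a S = 0 := by
      unfold TT
      refine Finset.sum_eq_zero (fun j hj => ?_)
      rw [hz' j hj]; simp
    have hs : ∑ j ∈ S, a j ^ 2 = 0 := Finset.sum_eq_zero (fun j hj => by rw [hz' j hj]; ring)
    rw [hT, hs, ← hz]
    simp only [neg_zero, exp_zero, mul_zero, add_zero, mul_one, zero_sub]
    nlinarith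
  · obtain ⟨x, hx⟩ : ∃ x, ∑ j ∈ S, a j ^ 2 = (∑ j ∈ S, a j) * x :=
      ⟨(∑ j ∈ S, a j ^ 2) / (∑ j ∈ S, a j), by field_simp⟩
    have hs0 : 0 ≤ ∑ j ∈ S, a j ^ 2 := Finset.sum_nonneg (fun j _ => sq_nonneg _)
    have hx0 : 0 ≤ x := by
      rw [hx] at hs0
      exact nonneg_of_mul_nonneg_right hs0 hpos
    have hb := bonf h0 h1' S
    have hhalf := fun hx2 => col_half h0 h1' S hx0 hx2 hx hA1 hκ0 (by linarith : 20 / 27 *
      (max (1 / 2 - l + 9 / 10 * ((∑ j ∈ S, a j) - l)) 0) ^ 2 ≤ 1)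
    have hsm := fun h => A_small hl hA0 h
    rw [hx] at hb ⊢
    clear hs0 hx
    set A := ∑ j ∈ S, a j with hA
    clear_value A
    set T := TT a S with hT
    clear_value T
    clear hT hA h0 h1 h1' h1''
    rcases le_total x (1 / 2) with hx2 | hx2
    · have hh := hhalf hx2
      clear hhalf hb
      rcases le_total A (3 / 4) with hA3 | hA3
      · -- small mass
        have hs := hsm hA3
        have hθs : max (1 / 2 - l + 9 / 10 * (A - l)) 0 ≤ 975 / 10000 :=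
          max_le (by linarith) (by norm_num)
        set θ := max (1 / 2 - l + 9 / 10 * (A - l)) 0 with hθ
        clear_value θ
        have hκs : 20 / 27 * θ ^ 2 ≤ 71 / 10000 := by
          have := pow_le_pow_left₀ hθ0 hθs 2
          norm_num at this ⊢
          linarith
        set κ := 20 / 27 * θ ^ 2 with hκ
        clear_value κ
        have hE : 4721 / 10000 ≤ exp (-A) := by
          have h1 : exp (-(3 / 4)) ≤ exp (-A) := exp_le_exp.mpr (by linarith)
          have h2 := exp_neg_lower (y := 3 / 4) (by norm_num) (by norm_num)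
          norm_num at h2
          linarith
        set E := exp (-A) with hEd
        clear_value E
        have hμ : 992 / 1000 ≤ 1 + κ * A - κ := by
          have : 0 ≤ κ * A := mul_nonneg hκ0 hA0
          linarith
        have hEμ : 468 / 1000 ≤ E * (1 + κ * A - κ) := by
          have := mul_le_mul hE hμ (by norm_num) (by linarith)
          linarith
        have h3 : 468 / 1000 * (A * x / 2) ≤ E * (1 + κ * A - κ) * (A * x / 2) :=
          mul_le_mul_of_nonneg_right hEμ (by positivity)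
        have h4 : 0 ≤ E * (1 + κ * A - κ) * ((A / 3 - A ^ 2 / 8) * x ^ 2) := by
          have h5 : 0 ≤ A / 3 - A ^ 2 / 8 := by nlinarith
          have h6 : 0 ≤ E * (1 + κ * A - κ) := by linarith
          positivity
        linarith
      · -- large mass
        obtain ⟨y, hy⟩ : ∃ y, A = l + y := ⟨A - l, by ring⟩
        have hyy : A - l = y := by rw [hy]; ring
        have hy0 : 1828 / 10000 ≤ y := by linarith
        have hy1 : y ≤ 432857 / 1000000 := by linarith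
        have hθpos : 0 ≤ 1 / 2 - l + 9 / 10 * y := by linarith
        rw [hyy, max_eq_left hθpos] at hh hκ0
        rw [hyy, max_eq_left hθpos]
        have hκu : 20 / 27 * (1 / 2 - l + 9 / 10 * y) ^ 2 ≤ 3 / 5 * (y - 746 / 10000) ^ 2 := by
          have : (1 / 2 - l + 9 / 10 * y) ^ 2 ≤ (9 / 10 * (y - 746 / 10000)) ^ 2 :=
            pow_le_pow_left₀ hθpos (by linarith) 2
          linarith
        have hEq : exp (-A) = l * exp (-y) := by rw [hy, neg_add, exp_add, hl]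
        rw [hEq] at hh
        have := large_case hlo hhi hy0 hy1 hy hA1 hκ0 hκu hx0 (exp_pos (-y))
          (exp_neg_upper (y := y) (by linarith) (by linarith))
          (exp_neg_lower (y := y) (by linarith) (by linarith))
        linarith
    · -- large second moment
      clear hhalf hsm
      obtain ⟨hb1, hb2⟩ := hb
      set κ := 20 / 27 * (max (1 / 2 - l + 9 / 10 * (A - l)) 0) ^ 2 with hκ
      clear_value κ
      have h2 : exp (-T) * (1 + κ * T) = exp (-T) + κ * (T * exp (-T)) := by ring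
      rw [h2]
      have h3 := mul_exp_le (t := T)
      have h4 : κ * (T * exp (-T)) ≤ 771 / 10000 * (36788 / 100000) := by
        have h5 := mul_le_mul_of_nonneg_left h3 hκ0
        have h6 := mul_le_mul_of_nonneg_right hκ1 (show (0:ℝ) ≤ 36788 / 100000 by norm_num)
        linarith
      have h5 : A / 2 ≤ A * x := by nlinarith
      nlinarith

/-- The quadratic test function of a column. -/
noncomputable def Qf (l A s : ℝ) : ℝ := l - l * (A - l) + 9 / 20 * (A - l) ^ 2 - 117 / 500 * s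

/-- The column inequality. -/
theorem col_ineq {I K : Type*} [Fintype K] [DecidableEq I] [DecidableEq K] {l : ℝ}
    (hl : exp (-l) = l)
    {a : I → ℝ} (h0 : ∀ j, 0 ≤ a j) (h1 : ∀ j, a j ≤ 7722 / 10000)
    (L : Finset I) (hA1 : ∑ j ∈ L, a j ≤ 1) (κ : I → K) :
    exp (-TT a L) ≤ Qf l (∑ j ∈ L, a j) (∑ j ∈ L, a j ^ 2) +
      ∑ k, exp (-TT a L) * (exp (TT a (L.filter (fun j => κ j = k))) - 1) *
        (Qf l (∑ j ∈ L \ L.filter (fun j => κ j = k), a j)
            (∑ j ∈ L \ L.filter (fun j => κ j = k), a j ^ 2) -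
          Qf l (∑ j ∈ L, a j) (∑ j ∈ L, a j ^ 2) -
          ∑ j ∈ L.filter (fun j => κ j = k), om (a j)) := by
  have hlo := lam_lo hl
  have hF := col_F h0 h1 L hl hA1
  have hV0 : 0 < exp (-TT a L) := exp_pos _
  set A := ∑ j ∈ L, a j with hA
  set s := ∑ j ∈ L, a j ^ 2 with hs
  set θ := 1 / 2 - l + 9 / 10 * (A - l) with hθ
  have hθ1 : θ ≤ 32243 / 100000 := by rw [hθ]; linarith
  have hT : ∑ k, TT a (L.filter (fun j => κ j = k)) = TT a L := by
    unfold TT
    exact Finset.sum_fiberwise L κ (fun j => -log (1 - a j))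
  have hcl : ∀ k, -(20 / 27 * (max θ 0) ^ 2 * TT a (L.filter (fun j => κ j = k))) ≤
      (exp (TT a (L.filter (fun j => κ j = k))) - 1) *
        (Qf l (∑ j ∈ L \ L.filter (fun j => κ j = k), a j)
            (∑ j ∈ L \ L.filter (fun j => κ j = k), a j ^ 2) - Qf l A s -
          ∑ j ∈ L.filter (fun j => κ j = k), om (a j)) := by
    intro k
    set C := L.filter (fun j => κ j = k) with hC
    have hCL : C ⊆ L := Finset.filter_subset _ _
    have e1 : ∑ j ∈ L \ C, a j = A - ∑ j ∈ C, a j := by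
      rw [hA, ← Finset.sum_sdiff hCL]; ring
    have e3 : ∑ j ∈ L \ C, a j ^ 2 = s - ∑ j ∈ C, a j ^ 2 := by
      rw [hs, ← Finset.sum_sdiff hCL]; ring
    have hA1' : ∑ j ∈ C, a j ≤ 1 :=
      le_trans (Finset.sum_le_sum_of_subset_of_nonneg hCL (fun j _ _ => h0 j)) hA1
    have hcc := class_col h0 h1 C hA1' hθ1
    have e4 : ∑ j ∈ C, e2 (a j) = ∑ j ∈ C, om (a j) - (∑ j ∈ C, a j) / 2 -
        117 / 500 * ∑ j ∈ C, a j ^ 2 := by
      unfold e2
      rw [Finset.sum_sub_distrib, Finset.sum_sub_distrib, Finset.sum_div, Finset.mul_sum]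
    rw [e1, e3]
    rw [e4] at hcc
    have e5 : Qf l (A - ∑ j ∈ C, a j) (s - ∑ j ∈ C, a j ^ 2) - Qf l A s - ∑ j ∈ C, om (a j) =
        -(θ * (∑ j ∈ C, a j) - 9 / 20 * (∑ j ∈ C, a j) ^ 2 +
          (∑ j ∈ C, om (a j) - (∑ j ∈ C, a j) / 2 - 117 / 500 * ∑ j ∈ C, a j ^ 2)) := by
      unfold Qf; rw [hθ]; ring
    rw [e5]
    linarith
  have hsum : -(exp (-TT a L) * (20 / 27 * (max θ 0) ^ 2 * TT a L)) ≤
      ∑ k, exp (-TT a L) * (exp (TT a (L.filter (fun j => κ j = k))) - 1) *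
        (Qf l (∑ j ∈ L \ L.filter (fun j => κ j = k), a j)
            (∑ j ∈ L \ L.filter (fun j => κ j = k), a j ^ 2) - Qf l A s -
          ∑ j ∈ L.filter (fun j => κ j = k), om (a j)) := by
    have e : -(exp (-TT a L) * (20 / 27 * (max θ 0) ^ 2 * TT a L)) =
        ∑ k, exp (-TT a L) * -(20 / 27 * (max θ 0) ^ 2 * TT a (L.filter (fun j => κ j = k))) := by
      rw [← Finset.mul_sum, Finset.sum_neg_distrib, ← Finset.mul_sum, hT]; ring
    rw [e]
    refine Finset.sum_le_sum (fun k _ => ?_)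
    have := mul_le_mul_of_nonneg_left (hcl k) hV0.le
    linarith
  have e6 : Qf l A s = l - l * (A - l) + 9 / 20 * (A - l) ^ 2 - 117 / 500 * s := rfl
  linarith

end Pool.KS
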