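import Pool.Agent.KS.Tr
import Pool.Agent.KS.Scal9

/-! Assembly of the bound for matrices without large entries. -/

namespace Pool.KS

open Finset

set_option linter.unusedSectionVars false

variable {I J : Type*} [Fintype I] [Fintype J] [DecidableEq I] [DecidableEq J]

theorem U_eq (p : I × J → ℝ) (i : I) (h : ∀ j, p (i, j) < 1) (S : Finset J) :
    U p i S = Real.exp (-TT (fun j => p (i, j)) S) := by
  unfold U TT
  rw [← Finset.sum_neg_distrib, Real.exp_sum]
  refine Finset.prod_congr rfl (fun j _ => ?_)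
  rw [neg_neg, Real.exp_log (by linarith [h j])]

theorem TT_sdiff {a : J → ℝ} {R C : Finset J} (h : C ⊆ R) :
    TT a (R \ C) = TT a R - TT a C := by
  unfold TT
  rw [← Finset.sum_sdiff h]; ring

theorem pcl_eq (p : I × J → ℝ) (i : I) (h : ∀ j, p (i, j) < 1) (H : Finset (I × J))
    (c : Finset J) :
    pcl p i H c = Real.exp (-TT (fun j => p (i, j)) (Rm H)) *
      (Real.exp (TT (fun j => p (i, j)) (cl H c)) - 1) := by
  unfold pcl
  rw [U_eq p i h, U_eq p i h, TT_sdiff (cl_sub H c), neg_sub, mul_sub, ← Real.exp_add, mul_one]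
  congr 2
  ring

theorem U_sdiff_eq (p : I × J → ℝ) (i : I) (h : ∀ j, p (i, j) < 1) (H : Finset (I × J))
    (c : Finset J) :
    U p i (Rm H \ cl H c) = Real.exp (-TT (fun j => p (i, j)) (Rm H)) +
      Real.exp (-TT (fun j => p (i, j)) (Rm H)) *
      (Real.exp (TT (fun j => p (i, j)) (cl H c)) - 1) := by
  rw [← pcl_eq p i h, ← U_eq p i h]
  unfold pcl; ring

theorem row_exp {l : ℝ} (hl : Real.exp (-l) = l) (p : I × J → ℝ) (hp0 : ∀ e, 0 ≤ p e)
    (hp1 : ∀ e, p e ≤ 7722 / 10000) (i : I) (hsum : ∑ j, p (i, j) = 1) :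
    Ex p (fun E => U p i (Rm (dR i E)) + ∑ c : Finset J, pcl p i (dR i E) c) ≤
      l * Ex p (Xi i) + l - Ex p (fun E => ff l (U p i (Rm (dR i E)))) +
      1 / 10 * Ex p (fun E => ff l (U p i (Rm (dR i E)))) +
      (∑ j, p (i, j) ^ 2) * (9 / 10 * Ex p (fun E => ff l (U p i (Rm (dR i E)))) -
        9 / 20 * ((1 - 2 * l) * Ex p (Xi i) + l ^ 2) + 117 / 500 * Ex p (Xi i)) +
      ∑ j, om (p (i, j)) * Ex p (mij i j) := by
  have hlt : ∀ j, p (i, j) < 1 := fun j => by linarith [hp1 (i, j)]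
  have hle1 : ∀ e, p e ≤ 1 := fun e => by linarith [hp1 e]
  rw [← Ex_omega p i (fun j => om (p (i, j))), Ex_Xi]
  have hpt : ∀ E : Finset (I × J), U p i (Rm (dR i E)) + ∑ c : Finset J, pcl p i (dR i E) c ≤
      (l * U p i (Rm (dR i E)) + l - ff l (U p i (Rm (dR i E))) +
        1 / 10 * ff l (U p i (Rm (dR i E)))) +
      (∑ j, p (i, j) ^ 2) * (9 / 10 * ff l (U p i (Rm (dR i E))) -
        9 / 20 * ((1 - 2 * l) * U p i (Rm (dR i E)) + l ^ 2) +
        117 / 500 * U p i (Rm (dR i E))) +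
      ∑ c : Finset J, pcl p i (dR i E) c * ∑ j ∈ cl (dR i E) c, om (p (i, j)) := by
    intro E
    have h := row_ineq hl (a := fun j => p (i, j)) (fun j => hp0 _) (fun j => hp1 _) hsum
      (Rm (dR i E)) (cls (dR i E))
    rw [← U_eq p i hlt] at h
    have e1 : ∀ c : Finset J, U p i (Rm (dR i E)) *
        (Real.exp (TT (fun j => p (i, j)) ((Rm (dR i E)).filter (fun j => cls (dR i E) j = c))) - 1)
        = pcl p i (dR i E) c := by
      intro c
      rw [pcl_eq p i hlt, ← U_eq p i hlt]; rfl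
    simp only [e1] at h
    exact h
  refine le_trans (Ex_mono hp0 hle1 hpt) (le_of_eq ?_)
  rw [Ex_add, Ex_add, Ex_mul_left, Ex_add, Ex_sub, Ex_add, Ex_mul_left, Ex_mul_left, Ex_const,
    Ex_add, Ex_sub, Ex_mul_left, Ex_mul_left, Ex_mul_left, Ex_add, Ex_mul_left, Ex_const]

/-- chord bound for the logarithm -/
theorem neg_log_le {a : ℝ} (h0 : 0 ≤ a) (h1 : a ≤ 7722 / 10000) :
    -Real.log (1 - a) ≤ 192 / 100 * a := by
  have h1a : 0 < 1 - a := by linarith
  have hc : Real.exp (-(192 / 100 * a)) ≤ 1 - a := by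
    have ha1 : a / (7722 / 10000) ≤ 1 := by
      rw [div_le_one (by norm_num)]; exact h1
    have hconv := convexOn_exp.2 (Set.mem_univ (-(192 / 100 * (7722 / 10000))))
      (Set.mem_univ (0 : ℝ)) (show 0 ≤ a / (7722 / 10000) by positivity)
      (show 0 ≤ 1 - a / (7722 / 10000) by linarith) (by ring)
    simp only [smul_eq_mul, mul_zero, add_zero, Real.exp_zero, mul_one] at hconv
    have e1 : a / (7722 / 10000) * -(192 / 100 * (7722 / 10000)) = -(192 / 100 * a) := by
      field_simp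
    rw [e1] at hconv
    have h2 : Real.exp (-(192 / 100 * (7722 / 10000))) ≤ 2278 / 10000 := by
      have h3 : Real.exp (-(192 / 100 * (7722 / 10000))) =
          Real.exp (-(370656 / 1000000)) ^ 4 := by
        rw [← Real.exp_nat_mul]; congr 1; norm_num
      have h4 := exp_neg_upper (y := 370656 / 1000000) (by norm_num) (by norm_num)
      have h5 : Real.exp (-(370656 / 1000000)) ≤ 6908 / 10000 := by
        refine h4.trans ?_; norm_num
      rw [h3]
      calc _ ≤ (6908 / 10000 : ℝ) ^ 4 := pow_le_pow_left₀ (Real.exp_pos _).le h5 4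
        _ ≤ _ := by norm_num
    have h6 := mul_le_mul_of_nonneg_left h2 (show 0 ≤ a / (7722 / 10000) by positivity)
    have e2 : a / (7722 / 10000) * (2278 / 10000) + (1 - a / (7722 / 10000)) = 1 - a := by
      ring
    linarith
  have h2 := Real.log_le_log (Real.exp_pos _) hc
  rw [Real.log_exp] at h2
  linarith

theorem TT_le {a : J → ℝ} (h0 : ∀ j, 0 ≤ a j) (h1 : ∀ j, a j ≤ 7722 / 10000) (R : Finset J)
    (hs : ∑ j, a j = 1) : TT a R ≤ 192 / 100 := by
  calc TT a R ≤ ∑ j ∈ R, 192 / 100 * a j :=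
        Finset.sum_le_sum (fun j _ => neg_log_le (h0 j) (h1 j))
    _ = 192 / 100 * ∑ j ∈ R, a j := by rw [Finset.mul_sum]
    _ ≤ 192 / 100 * ∑ j, a j := by
        refine mul_le_mul_of_nonneg_left ?_ (by norm_num)
        exact Finset.sum_le_sum_of_subset_of_nonneg (Finset.subset_univ R) (fun j _ _ => h0 j)
    _ = 192 / 100 := by rw [hs, mul_one]

theorem sum_class_le {K : Type*} [Fintype K] [DecidableEq K] {a : J → ℝ} (h0 : ∀ j, 0 ≤ a j)
    (h1 : ∀ j, a j < 1) (R : Finset J) (hs : ∑ j, a j = 1) (κ : J → K) :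
    ∑ k, (1 - Real.exp (-TT a (R.filter (fun j => κ j = k)))) ≤ 1 := by
  calc ∑ k, (1 - Real.exp (-TT a (R.filter (fun j => κ j = k)))) ≤
        ∑ k, ∑ j ∈ R.filter (fun j => κ j = k), a j := by
        refine Finset.sum_le_sum (fun k _ => ?_)
        have := one_sub_le_exp h0 h1 (R.filter (fun j => κ j = k))
        linarith
    _ = ∑ j ∈ R, a j := Finset.sum_fiberwise R κ a
    _ ≤ ∑ j, a j := Finset.sum_le_sum_of_subset_of_nonneg (Finset.subset_univ R) (fun j _ _ => h0 j)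
    _ = 1 := hs

theorem pair_exp {l : ℝ} (hl : Real.exp (-l) = l) (p : I × J → ℝ) (hp0 : ∀ e, 0 ≤ p e)
    (hp1 : ∀ e, p e ≤ 7722 / 10000) {i k : I} (hik : k ≠ i) (hi : ∑ j, p (i, j) = 1)
    (hk : ∑ j, p (k, j) = 1) :
    Ex p (fun E => (Xi i E - l) * (Xi k E - l)) ≤
      Ex p (fun E => ff l (U p i (Rm (dR i E)))) +
      Ex p (fun E => ff l (U p k (Rm (dR k E)))) := by
  have hlti : ∀ j, p (i, j) < 1 := fun j => by linarith [hp1 (i, j)]
  have hltk : ∀ j, p (k, j) < 1 := fun j => by linarith [hp1 (k, j)]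
  have h78i : ∀ j, p (i, j) ≤ 78 / 100 := fun j => by linarith [hp1 (i, j)]
  have h78k : ∀ j, p (k, j) ≤ 78 / 100 := fun j => by linarith [hp1 (k, j)]
  have hle1 : ∀ e, p e ≤ 1 := fun e => by linarith [hp1 e]
  -- left-hand side
  have e0 : ∀ E : Finset (I × J), (Xi i E - l) * (Xi k E - l) =
      Xi i E * Xi k E - l * Xi i E - l * Xi k E + l ^ 2 := fun E => by ring
  have eL : Ex p (fun E => (Xi i E - l) * (Xi k E - l)) =
      Ex p (fun E => Xi i E * Xi k E) - l * Ex p (Xi i) - l * Ex p (Xi k) + l ^ 2 := by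
    rw [Ex_congr p e0, Ex_add, Ex_sub, Ex_sub, Ex_mul_left, Ex_mul_left, Ex_const]
  have hXk : Ex p (Xi k) = Ex p (fun E => U p k (Rm (dR k (dR i E))) +
      ∑ c : Finset J, pcl p k (dR k (dR i E)) c * pcl p i (dR k (dR i E)) c) := by
    rw [Ex_Xi2 p hik.symm]
    refine Ex_congr p (fun E => ?_)
    rw [dR_comm i k E]
    congr 1
    exact Finset.sum_congr rfl (fun c _ => mul_comm _ _)
  rw [eL, Ex_XiXi p hik, Ex_Xi2 p hik, hXk]
  rw [Ex_Phi2 p hik (fun S => ff l (U p i S)), Ex_Phi2 p hik.symm (fun S => ff l (U p k S))]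
  rw [← Ex_mul_left, ← Ex_mul_left, ← Ex_sub, ← Ex_sub, ← Ex_const p (l ^ 2), ← Ex_add,
    ← Ex_add]
  refine Ex_mono hp0 hle1 (fun E => ?_)
  rw [dR_comm i k E]
  set H := dR k (dR i E) with hH
  have hTi : ∑ c : Finset J, TT (fun j => p (i, j)) (cl H c) = TT (fun j => p (i, j)) (Rm H) := by
    unfold TT cl
    exact Finset.sum_fiberwise (Rm H) (cls H) (fun j => -Real.log (1 - p (i, j)))
  have hTk : ∑ c : Finset J, TT (fun j => p (k, j)) (cl H c) = TT (fun j => p (k, j)) (Rm H) := by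
    unfold TT cl
    exact Finset.sum_fiberwise (Rm H) (cls H) (fun j => -Real.log (1 - p (k, j)))
  have h := pair_ineq (Finset.univ : Finset (Finset J)) hl
    (fun c => TT (fun j => p (i, j)) (cl H c)) (fun c => TT (fun j => p (k, j)) (cl H c))
    (fun c => TT_nonneg (fun j => hp0 _) h78i _) (fun c => TT_nonneg (fun j => hp0 _) h78k _)
    (by rw [hTi]; exact TT_le (fun j => hp0 _) (fun j => hp1 _) _ hi)
    (by rw [hTk]; exact TT_le (fun j => hp0 _) (fun j => hp1 _) _ hk)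
    (sum_class_le (fun j => hp0 _) hlti (Rm H) hi (cls H))
    (sum_class_le (fun j => hp0 _) hltk (Rm H) hk (cls H))
  rw [hTi, hTk] at h
  have f1 : ∀ c, Real.exp (-TT (fun j => p (i, j)) (Rm H)) *
      (Real.exp (TT (fun j => p (i, j)) (cl H c)) - 1) = pcl p i H c :=
    fun c => (pcl_eq p i hlti H c).symm
  have f2 : ∀ c, Real.exp (-TT (fun j => p (k, j)) (Rm H)) *
      (Real.exp (TT (fun j => p (k, j)) (cl H c)) - 1) = pcl p k H c :=
    fun c => (pcl_eq p k hltk H c).symm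
  simp only [f1, f2] at h
  rw [← U_eq p i hlti, ← U_eq p k hltk] at h
  have f3 : ∀ c, U p i (Rm H) + pcl p i H c = U p i (Rm H \ cl H c) := fun c => by
    unfold pcl; ring
  have f4 : ∀ c, U p k (Rm H) + pcl p k H c = U p k (Rm H \ cl H c) := fun c => by
    unfold pcl; ring
  simp only [f3, f4] at h
  rw [Finset.sum_add_distrib] at h
  have e5 : ∑ c : Finset J, pcl p k H c * pcl p i H c =
      ∑ c : Finset J, pcl p i H c * pcl p k H c :=
    Finset.sum_congr rfl (fun c _ => mul_comm _ _)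
  rw [e5]
  linarith

end Pool.KS
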