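import Pool.Agent.KS.Prob

/-! Expectation formulas for missable vertices. -/

namespace Pool.KS

open Finset

set_option linter.unusedSectionVars false

variable {I J : Type*} [Fintype I] [Fintype J] [DecidableEq I] [DecidableEq J]

/-- probability that the nonempty set of hit missable columns lies in class `c` -/
noncomputable def pcl (p : I × J → ℝ) (i : I) (H : Finset (I × J)) (c : Finset J) : ℝ :=
  U p i (Rm H \ cl H c) - U p i (Rm H)

/-- one row added, general set function -/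
theorem Ex_Phi (p : I × J → ℝ) (k : I) (g : Finset (I × J) → Finset (I × J))
    (hg1 : ∀ E, dR k (g (dR k E)) = dR k (g E)) (hg2 : ∀ E S, av k (g E) S = av k E S)
    (Φ : Finset J → ℝ) :
    Ex p (fun E => Φ (Rm (g E))) = Ex p (fun E => Φ (Rm (dR k (g E))) +
      ∑ c : Finset J, pcl p k (dR k (g E)) c *
        (Φ (Rm (dR k (g E)) \ cl (dR k (g E)) c) - Φ (Rm (dR k (g E))))) := by
  have h1 : ∀ E, Φ (Rm (g E)) = Φ (Rm (dR k (g E))) + ∑ c : Finset J,
      ((Φ (Rm (dR k (g E)) \ cl (dR k (g E)) c) - Φ (Rm (dR k (g E)))) *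
        av k E (Rm (dR k (g E)) \ cl (dR k (g E)) c) -
       (Φ (Rm (dR k (g E)) \ cl (dR k (g E)) c) - Φ (Rm (dR k (g E)))) *
        av k E (Rm (dR k (g E)))) := by
    intro E
    rw [Phi_Rm Φ k (g E)]
    congr 1
    refine Finset.sum_congr rfl (fun c _ => ?_)
    rw [hg2, hg2]; ring
  have h2 : ∀ E, Φ (Rm (dR k (g E))) +
      ∑ c : Finset J, pcl p k (dR k (g E)) c *
        (Φ (Rm (dR k (g E)) \ cl (dR k (g E)) c) - Φ (Rm (dR k (g E)))) =
      Φ (Rm (dR k (g E))) + ∑ c : Finset J,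
      ((Φ (Rm (dR k (g E)) \ cl (dR k (g E)) c) - Φ (Rm (dR k (g E)))) *
        U p k (Rm (dR k (g E)) \ cl (dR k (g E)) c) -
       (Φ (Rm (dR k (g E)) \ cl (dR k (g E)) c) - Φ (Rm (dR k (g E)))) *
        U p k (Rm (dR k (g E)))) := by
    intro E
    congr 1
    refine Finset.sum_congr rfl (fun c _ => ?_)
    unfold pcl; ring
  rw [Ex_congr p h1, Ex_congr p h2, Ex_add, Ex_add, Ex_sum, Ex_sum]
  congr 1
  refine Finset.sum_congr rfl (fun c _ => ?_)
  rw [Ex_sub, Ex_sub]
  rw [Ex_av p k (fun E => Φ (Rm (dR k (g E)) \ cl (dR k (g E)) c) - Φ (Rm (dR k (g E))))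
    (fun E => Rm (dR k (g E)) \ cl (dR k (g E)) c) (fun E => by simp only [hg1])
    (fun E => by simp only [hg1])]
  rw [Ex_av p k (fun E => Φ (Rm (dR k (g E)) \ cl (dR k (g E)) c) - Φ (Rm (dR k (g E))))
    (fun E => Rm (dR k (g E))) (fun E => by simp only [hg1]) (fun E => by simp only [hg1])]

theorem Ex_Phi1 (p : I × J → ℝ) (i : I) (Φ : Finset J → ℝ) :
    Ex p (fun E => Φ (Rm E)) = Ex p (fun E => Φ (Rm (dR i E)) +
      ∑ c : Finset J, pcl p i (dR i E) c *
        (Φ (Rm (dR i E) \ cl (dR i E) c) - Φ (Rm (dR i E)))) :=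
  Ex_Phi p i id (fun E => by simp [dR_dR]) (fun _ _ => rfl) Φ

theorem Ex_Phi2 (p : I × J → ℝ) {i k : I} (h : k ≠ i) (Φ : Finset J → ℝ) :
    Ex p (fun E => Φ (Rm (dR i E))) = Ex p (fun E => Φ (Rm (dR k (dR i E))) +
      ∑ c : Finset J, pcl p k (dR k (dR i E)) c *
        (Φ (Rm (dR k (dR i E)) \ cl (dR k (dR i E)) c) - Φ (Rm (dR k (dR i E))))) :=
  Ex_Phi p k (dR i) (fun E => by rw [dR_comm k i (dR k E), dR_dR, dR_comm i k E])
    (fun _ _ => av_dR h) Φ

theorem Ex_Xi (p : I × J → ℝ) (i : I) :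
    Ex p (Xi i) = Ex p (fun E => U p i (Rm (dR i E))) := by
  have h1 : ∀ E : Finset (I × J), Xi i E = 1 * av i E (Rm (dR i E)) :=
    fun E => by rw [Xi_eq, one_mul]
  have h2 := Ex_av p i (fun _ => 1) (fun E => Rm (dR i E)) (fun _ => rfl)
    (fun E => by simp only [dR_dR])
  have h3 : Ex p (Xi i) = Ex p (fun E => 1 * av i E (Rm (dR i E))) := Ex_congr p h1
  rw [h3, h2]
  exact Ex_congr p (fun E => one_mul _)

theorem Ex_Xi2 (p : I × J → ℝ) {i k : I} (h : k ≠ i) :
    Ex p (Xi i) = Ex p (fun E => U p i (Rm (dR k (dR i E))) +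
      ∑ c : Finset J, pcl p k (dR k (dR i E)) c * pcl p i (dR k (dR i E)) c) := by
  rw [Ex_Xi, Ex_Phi2 p h (fun S => U p i S)]
  rfl

theorem Ex_av_av (p : I × J → ℝ) {i k : I} (h : k ≠ i)
    (S S' : Finset (I × J) → Finset J)
    (hS : ∀ E, S (dR i E) = S E) (hS' : ∀ E, S' (dR i E) = S' E)
    (kS : ∀ E, S (dR k E) = S E) (kS' : ∀ E, S' (dR k E) = S' E) :
    Ex p (fun E => av i E (S E) * av k E (S' E)) =
      Ex p (fun E => U p i (S E) * U p k (S' E)) := by
  have h1 : ∀ E, av i E (S E) * av k E (S' E) = av k E (S' E) * av i E (S E) :=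
    fun E => mul_comm _ _
  rw [Ex_congr p h1]
  rw [Ex_av p i (fun E => av k E (S' E)) S (fun E => by rw [hS', av_dR h]) hS]
  have h2 : ∀ E, av k E (S' E) * U p i (S E) = U p i (S E) * av k E (S' E) :=
    fun E => mul_comm _ _
  rw [Ex_congr p h2]
  rw [Ex_av p k (fun E => U p i (S E)) S' (fun E => by rw [kS]) kS']

theorem Ex_XiXi (p : I × J → ℝ) {i k : I} (h : k ≠ i) :
    Ex p (fun E => Xi i E * Xi k E) = Ex p (fun E =>
      U p i (Rm (dR k (dR i E))) * U p k (Rm (dR k (dR i E))) +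
      ∑ c : Finset J, pcl p k (dR k (dR i E)) c * pcl p i (dR k (dR i E)) c) := by
  have e1 : ∀ E : Finset (I × J), dR k (dR i (dR k E)) = dR k (dR i E) := fun E => by
    rw [dR_comm i k E, dR_dR]
  have e2 : ∀ E : Finset (I × J), dR k (dR i (dR i E)) = dR k (dR i E) := fun E => by
    rw [dR_dR]
  have h1 : ∀ E, Xi i E * Xi k E =
      av i E (Rm (dR k (dR i E))) * av k E (Rm (dR k (dR i E))) + ∑ c : Finset J,
      (((av i E (Rm (dR k (dR i E)) \ cl (dR k (dR i E)) c) *
          av k E (Rm (dR k (dR i E)) \ cl (dR k (dR i E)) c) -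
        av i E (Rm (dR k (dR i E)) \ cl (dR k (dR i E)) c) *
          av k E (Rm (dR k (dR i E)))) -
        av i E (Rm (dR k (dR i E))) *
          av k E (Rm (dR k (dR i E)) \ cl (dR k (dR i E)) c)) +
        av i E (Rm (dR k (dR i E))) * av k E (Rm (dR k (dR i E)))) := by
    intro E
    rw [Xi_mul h]
    congr 1
    unfold Sp
    refine Finset.sum_congr rfl (fun c _ => by ring)
  have h2 : ∀ E, U p i (Rm (dR k (dR i E))) * U p k (Rm (dR k (dR i E))) +
      ∑ c : Finset J, pcl p k (dR k (dR i E)) c * pcl p i (dR k (dR i E)) c =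
      U p i (Rm (dR k (dR i E))) * U p k (Rm (dR k (dR i E))) + ∑ c : Finset J,
      (((U p i (Rm (dR k (dR i E)) \ cl (dR k (dR i E)) c) *
          U p k (Rm (dR k (dR i E)) \ cl (dR k (dR i E)) c) -
        U p i (Rm (dR k (dR i E)) \ cl (dR k (dR i E)) c) *
          U p k (Rm (dR k (dR i E)))) -
        U p i (Rm (dR k (dR i E))) *
          U p k (Rm (dR k (dR i E)) \ cl (dR k (dR i E)) c)) +
        U p i (Rm (dR k (dR i E))) * U p k (Rm (dR k (dR i E)))) := by
    intro E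
    congr 1
    unfold pcl
    refine Finset.sum_congr rfl (fun c _ => by ring)
  rw [Ex_congr p h1, Ex_congr p h2, Ex_add, Ex_add, Ex_sum, Ex_sum]
  have key : ∀ (S S' : Finset (I × J) → Finset J)
      (hS : ∀ E E', dR k (dR i E) = dR k (dR i E') → S E = S E')
      (hS' : ∀ E E', dR k (dR i E) = dR k (dR i E') → S' E = S' E'),
      Ex p (fun E => av i E (S E) * av k E (S' E)) =
      Ex p (fun E => U p i (S E) * U p k (S' E)) := fun S S' hS hS' =>
    Ex_av_av p h S S' (fun E => hS _ _ (e2 E)) (fun E => hS' _ _ (e2 E))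
      (fun E => hS _ _ (e1 E)) (fun E => hS' _ _ (e1 E))
  congr 1
  · exact key (fun E => Rm (dR k (dR i E))) (fun E => Rm (dR k (dR i E)))
      (fun E E' hh => by simp only [hh]) (fun E E' hh => by simp only [hh])
  · refine Finset.sum_congr rfl (fun c _ => ?_)
    rw [Ex_add, Ex_sub, Ex_sub, Ex_add, Ex_sub, Ex_sub]
    have k1 := key (fun E => Rm (dR k (dR i E)) \ cl (dR k (dR i E)) c)
      (fun E => Rm (dR k (dR i E)) \ cl (dR k (dR i E)) c)
      (fun E E' hh => by simp only [hh]) (fun E E' hh => by simp only [hh])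
    have k2 := key (fun E => Rm (dR k (dR i E)) \ cl (dR k (dR i E)) c)
      (fun E => Rm (dR k (dR i E)))
      (fun E E' hh => by simp only [hh]) (fun E E' hh => by simp only [hh])
    have k3 := key (fun E => Rm (dR k (dR i E)))
      (fun E => Rm (dR k (dR i E)) \ cl (dR k (dR i E)) c)
      (fun E E' hh => by simp only [hh]) (fun E E' hh => by simp only [hh])
    have k4 := key (fun E => Rm (dR k (dR i E))) (fun E => Rm (dR k (dR i E)))
      (fun E E' hh => by simp only [hh]) (fun E E' hh => by simp only [hh])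
    rw [k1, k2, k3, k4]


/-- indicator of a missed column -/
noncomputable def Yj (j : J) (E : Finset (I × J)) : ℝ := if j ∈ Rm E then 1 else 0

/-- indicator of the exchange event -/
noncomputable def mij (i : I) (j : J) (E : Finset (I × J)) : ℝ :=
  if j ∈ Rm (dR i E) ∧ j ∉ Rm E then 1 else 0

theorem Ex_adj (p : I × J → ℝ) (i : I) :
    Ex p (fun E => av i E (Rm E)) = Ex p (fun E => U p i (Rm (dR i E)) +
      ∑ c : Finset J, pcl p i (dR i E) c) := by
  have h1 : ∀ E : Finset (I × J), av i E (Rm E) = 1 * av i E (Rm (dR i E)) + ∑ c : Finset J,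
      (1 * av i E (Rm (dR i E) \ cl (dR i E) c) - 1 * av i E (Rm (dR i E))) := by
    intro E
    rw [Phi_Rm (fun S => av i E S) i E, one_mul]
    congr 1
    refine Finset.sum_congr rfl (fun c _ => ?_)
    rcases av_cases i E (Rm (dR i E)) with h | h
    · rcases av_cases i E (Rm (dR i E) \ cl (dR i E) c) with h' | h'
      · simp only [h, h']; ring
      · simp only [h, h']; ring
    · have h' := av_mono (S' := Rm (dR i E) \ cl (dR i E) c) Finset.sdiff_subset h
      simp only [h, h']; ring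
  have h2 : ∀ E : Finset (I × J), U p i (Rm (dR i E)) + ∑ c : Finset J, pcl p i (dR i E) c =
      1 * U p i (Rm (dR i E)) + ∑ c : Finset J,
      (1 * U p i (Rm (dR i E) \ cl (dR i E) c) - 1 * U p i (Rm (dR i E))) := by
    intro E
    rw [one_mul]
    congr 1
    refine Finset.sum_congr rfl (fun c _ => ?_)
    unfold pcl; ring
  rw [Ex_congr p h1, Ex_congr p h2, Ex_add, Ex_add, Ex_sum, Ex_sum]
  congr 1
  · exact Ex_av p i (fun _ => 1) (fun E => Rm (dR i E)) (fun _ => rfl)
      (fun E => by simp only [dR_dR])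
  · refine Finset.sum_congr rfl (fun c _ => ?_)
    rw [Ex_sub, Ex_sub]
    have k1 := Ex_av p i (fun _ => 1) (fun E => Rm (dR i E) \ cl (dR i E) c) (fun _ => rfl)
      (fun E => by simp only [dR_dR])
    have k2 := Ex_av p i (fun _ => 1) (fun E => Rm (dR i E)) (fun _ => rfl)
      (fun E => by simp only [dR_dR])
    rw [k1, k2]

theorem Rm_sub_dR (i : I) (E : Finset (I × J)) : Rm E ⊆ Rm (dR i E) := by
  intro j hj
  rw [mem_Rm_add (i := i)] at hj
  exact hj.1

theorem cl_sub (H : Finset (I × J)) (c : Finset J) : cl H c ⊆ Rm H := Finset.filter_subset _ _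

theorem Ex_omega (p : I × J → ℝ) (i : I) (om : J → ℝ) :
    Ex p (fun E => ∑ c : Finset J, pcl p i (dR i E) c * ∑ j ∈ cl (dR i E) c, om j) =
      ∑ j, om j * Ex p (mij i j) := by
  have h0 := Ex_Phi1 p i (fun S => ∑ j ∈ S, om j)
  have h1 : ∀ E : Finset (I × J), (∑ j ∈ Rm (dR i E), om j) +
      ∑ c : Finset J, pcl p i (dR i E) c *
        ((∑ j ∈ Rm (dR i E) \ cl (dR i E) c, om j) - ∑ j ∈ Rm (dR i E), om j) =
      (∑ j ∈ Rm (dR i E), om j) -
      ∑ c : Finset J, pcl p i (dR i E) c * ∑ j ∈ cl (dR i E) c, om j := by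
    intro E
    rw [sub_eq_add_neg, ← Finset.sum_neg_distrib]
    congr 1
    refine Finset.sum_congr rfl (fun c _ => ?_)
    have := Finset.sum_sdiff (f := om) (cl_sub (dR i E) c)
    rw [← this]; ring
  have h2 : ∀ E : Finset (I × J), (∑ j ∈ Rm (dR i E), om j) - (∑ j ∈ Rm E, om j) =
      ∑ j, om j * mij i j E := by
    intro E
    rw [← Finset.sum_sdiff (f := om) (Rm_sub_dR i E), add_sub_cancel_right]
    rw [← Finset.sum_filter_add_sum_filter_not univ (fun j => j ∈ Rm (dR i E) \ Rm E)]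
    have e1 : ∑ x ∈ univ.filter (fun j => ¬ (j ∈ Rm (dR i E) \ Rm E)), om x * mij i x E = 0 := by
      refine Finset.sum_eq_zero (fun j hj => ?_)
      rw [Finset.mem_filter, Finset.mem_sdiff] at hj
      unfold mij
      rw [if_neg hj.2, mul_zero]
    rw [e1, add_zero]
    refine Finset.sum_congr (by ext j; simp) (fun j hj => ?_)
    rw [Finset.mem_filter, Finset.mem_sdiff] at hj
    unfold mij
    rw [if_pos hj.2, mul_one]
  rw [Ex_congr p h1, Ex_sub] at h0
  have h3 : Ex p (fun E => ∑ j, om j * mij i j E) = ∑ j, om j * Ex p (mij i j) := by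
    rw [Ex_sum]
    exact Finset.sum_congr rfl (fun j _ => Ex_mul_left p (om j) (mij i j))
  rw [← h3, ← Ex_congr p h2, Ex_sub]
  linarith

theorem Ex_nu (p : I × J → ℝ) :
    Ex p (fun E => (nu E : ℝ)) = ∑ j : J, (1 - Ex p (Yj j)) +
      ∑ i : I, (1 - Ex p (fun E => U p i (Rm (dR i E)) + ∑ c : Finset J, pcl p i (dR i E) c)) := by
  have h1 : ∀ E : Finset (I × J), (nu E : ℝ) = ∑ j : J, (1 - Yj j E) +
      ∑ i : I, (1 - av i E (Rm E)) := by
    intro E
    rw [koenig E]
    push_cast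
    congr 1
    · rw [Finset.card_filter]
      push_cast
      refine Finset.sum_congr rfl (fun j _ => ?_)
      unfold Yj
      split_ifs with h <;> simp
    · rw [Finset.card_filter]
      push_cast
      refine Finset.sum_congr rfl (fun i _ => ?_)
      unfold av
      by_cases h : ∀ j ∈ Rm E, (i, j) ∉ E
      · rw [if_pos h, if_neg]
        · simp
        · rintro ⟨j, hj, hij⟩; exact h j hj hij
      · rw [if_neg h, if_pos]
        · simp
        · push Not at h
          obtain ⟨j, hj, hij⟩ := h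
          exact ⟨j, hj, hij⟩
  rw [Ex_congr p h1, Ex_add, Ex_sum, Ex_sum]
  congr 1
  · refine Finset.sum_congr rfl (fun j _ => ?_)
    rw [Ex_sub, Ex_const]
  · refine Finset.sum_congr rfl (fun i _ => ?_)
    rw [Ex_sub, Ex_const, Ex_adj]

end Pool.KS
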