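import Pool.Agent.KS.Assem

/-! Removal of large entries and the main bound. -/

namespace Pool.KS

open Finset

set_option linter.unusedSectionVars false

section general
variable {ε : Type*} [Fintype ε] [DecidableEq ε]

theorem W'_nonneg {p : ε → ℝ} (h0 : ∀ e, 0 ≤ p e) (h1 : ∀ e, p e ≤ 1) (e : ε) (E : Finset ε) :
    0 ≤ W' p e E := by
  unfold W'
  refine Finset.prod_nonneg (fun x _ => ?_)
  split_ifs
  · exact h0 x
  · linarith [h1 x]

theorem W'_congr {p q : ε → ℝ} (e : ε) (h : ∀ x, x ≠ e → q x = p x) (E : Finset ε) :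
    W' q e E = W' p e E := by
  unfold W'
  refine Finset.prod_congr rfl (fun x hx => ?_)
  rw [h x (Finset.mem_erase.mp hx).1]

theorem sum_W' (p : ε → ℝ) (e : ε) : ∑ E ∈ (univ.erase e).powerset, W' p e E = 1 := by
  have h := Ex_split p e (fun _ => 1)
  rw [Ex_one] at h
  rw [h]
  exact Finset.sum_congr rfl (fun E _ => by ring)

theorem Ex_change_one {p q : ε → ℝ} (h0 : ∀ e, 0 ≤ p e) (h1 : ∀ e, p e ≤ 1) (e : ε)
    (h : ∀ x, x ≠ e → q x = p x) (f : Finset ε → ℝ) (c : ℝ)
    (hf : ∀ E, (q e - p e) * (f (insert e E) - f (E.erase e)) ≤ c) :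
    Ex q f ≤ Ex p f + c := by
  rw [Ex_split q e, Ex_split p e]
  have hc : c = ∑ E ∈ (univ.erase e).powerset, W' p e E * c := by
    rw [← Finset.sum_mul, sum_W', one_mul]
  rw [hc, ← Finset.sum_add_distrib]
  refine Finset.sum_le_sum (fun E hE => ?_)
  rw [Finset.mem_powerset] at hE
  have he : e ∉ E := fun hh => Finset.notMem_erase e univ (hE hh)
  rw [W'_congr e h]
  have h2 := hf E
  rw [Finset.erase_eq_of_notMem he] at h2
  have h3 := mul_le_mul_of_nonneg_left h2 (W'_nonneg h0 h1 e E)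
  linarith

/-- comparison of two edge distributions -/
theorem Ex_change {p q : ε → ℝ} (p0 : ∀ e, 0 ≤ p e) (p1 : ∀ e, p e ≤ 1)
    (q0 : ∀ e, 0 ≤ q e) (q1 : ∀ e, q e ≤ 1) (f : Finset ε → ℝ) (c : ε → ℝ)
    (hf : ∀ e E, (q e - p e) * (f (insert e E) - f (E.erase e)) ≤ c e) :
    Ex q f ≤ Ex p f + ∑ e, c e := by
  have key : ∀ D : Finset ε, Ex (fun e => if e ∈ D then q e else p e) f ≤
      Ex p f + ∑ e ∈ D, c e := by
    intro D
    induction D using Finset.induction_on with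
    | empty => simp
    | insert e D he ih =>
      rw [Finset.sum_insert he]
      have h := Ex_change_one (p := fun x => if x ∈ D then q x else p x)
        (q := fun x => if x ∈ insert e D then q x else p x)
        (fun x => by split_ifs; exacts [q0 x, p0 x])
        (fun x => by split_ifs; exacts [q1 x, p1 x]) e
        (fun x hx => by simp [Finset.mem_insert, hx]) f (c e)
        (fun E => by
          have := hf e E
          simpa [he] using this)
      linarith
  have h := key univ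
  simpa using h

theorem Ex_mem (p : ε → ℝ) (e : ε) : Ex p (fun E => if e ∈ E then 1 else 0) = p e := by
  have h := Ex_avoid_one p e (fun _ => 1) (fun _ => rfl)
  rw [Ex_one, mul_one] at h
  have h2 : Ex p (fun E => if e ∈ E then (1 : ℝ) else 0) =
      Ex p (fun E => 1 - (if e ∈ E then (0 : ℝ) else 1)) :=
    Ex_congr p (fun E => by split_ifs <;> norm_num)
  rw [h2, Ex_sub, Ex_one, h]; ring

theorem W_zero {p : ε → ℝ} {e : ε} {E : Finset ε} (hp : p e = 0) (he : e ∈ E) : W p E = 0 := by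
  unfold W
  refine Finset.prod_eq_zero (Finset.mem_univ e) ?_
  rw [if_pos he, hp]

end general

variable {I J : Type*} [Fintype I] [Fintype J] [DecidableEq I] [DecidableEq J]

theorem nu_core {i : I} {j : J} {E : Finset (I × J)} (h : (i, j) ∈ E) :
    nu (dR i (dC j E)) + 1 ≤ nu E := by
  obtain ⟨M, hs, hM, hc⟩ := exists_max (dR i (dC j E))
  have hne : (i, j) ∉ M := fun hh => by
    have := hs hh
    rw [mem_dR] at this
    exact this.2 rfl
  rw [← hc, ← Finset.card_insert_of_notMem hne]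
  refine card_le_nu ?_ ?_
  · intro e he e' he' hh
    rw [Finset.mem_insert] at he he'
    have hav : ∀ x ∈ M, x.1 ≠ i ∧ x.2 ≠ j := fun x hx => by
      have := hs hx
      rw [mem_dR, mem_dC] at this
      exact ⟨this.2, this.1.2⟩
    rcases he with rfl | he
    · rcases he' with rfl | he'
      · rfl
      · exfalso
        rcases hh with hh | hh
        · exact (hav e' he').1 hh.symm
        · exact (hav e' he').2 hh.symm
    · rcases he' with rfl | he'
      · exfalso
        rcases hh with hh | hh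
        · exact (hav e he).1 hh
        · exact (hav e he).2 hh
      · exact hM e he e' he' hh
  · intro e he
    rw [Finset.mem_insert] at he
    rcases he with rfl | he
    · exact h
    · exact dC_sub j E (dR_sub i _ (hs he))

theorem nu_insert_le (e : I × J) (E : Finset (I × J)) : nu (insert e E) ≤ nu (E.erase e) + 1 := by
  have h1 := nu_le_dR e.1 (insert e E)
  have h2 : dR e.1 (insert e E) ⊆ E.erase e := by
    intro x hx
    rw [mem_dR, Finset.mem_insert] at hx
    rw [Finset.mem_erase]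
    rcases hx with ⟨rfl | hx, hne⟩
    · exact absurd rfl hne
    · exact ⟨fun hh => hne (by rw [hh]), hx⟩
  have h3 := nu_mono h2
  omega

theorem remove_entry (p : I × J → ℝ) (S : Finset I) (T : Finset J) (hp0 : ∀ e, 0 ≤ p e)
    (hrow : ∀ i ∈ S, ∑ j, p (i, j) = 1) (hcol : ∀ j ∈ T, ∑ i, p (i, j) = 1)
    (hS : ∀ i, i ∉ S → ∀ j, p (i, j) = 0) (hT : ∀ j, j ∉ T → ∀ i, p (i, j) = 0)
    {i₀ : I} {j₀ : J} (hi₀ : i₀ ∈ S) (hj₀ : j₀ ∈ T) :
    ∃ q : I × J → ℝ, (∀ e, 0 ≤ q e) ∧
      (∀ i ∈ S.erase i₀, ∑ j, q (i, j) = 1) ∧ (∀ j ∈ T.erase j₀, ∑ i, q (i, j) = 1) ∧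
      (∀ i, i ∉ S.erase i₀ → ∀ j, q (i, j) = 0) ∧ (∀ j, j ∉ T.erase j₀ → ∀ i, q (i, j) = 0) ∧
      Ex q (fun E => (nu E : ℝ)) + 2 * p (i₀, j₀) - 1 ≤ Ex p (fun E => (nu E : ℝ)) := by
  have hp1 : ∀ e, p e ≤ 1 := by
    rintro ⟨i, j⟩
    by_cases hi : i ∈ S
    · rw [← hrow i hi]
      exact Finset.single_le_sum (f := fun j => p (i, j)) (fun j _ => hp0 _) (Finset.mem_univ j)
    · rw [hS i hi j]; norm_num
  set a := p (i₀, j₀) with ha
  have ha1 : a ≤ 1 := hp1 _
  have hr0 : ∑ j ∈ univ.erase j₀, p (i₀, j) = 1 - a := by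
    have := hrow i₀ hi₀
    rw [← Finset.add_sum_erase univ _ (Finset.mem_univ j₀)] at this
    linarith
  have hc0 : ∑ i ∈ univ.erase i₀, p (i, j₀) = 1 - a := by
    have := hcol j₀ hj₀
    rw [← Finset.add_sum_erase univ _ (Finset.mem_univ i₀)] at this
    linarith
  -- a zero entry when `a = 1`
  have hcz : a = 1 → ∀ i, i ≠ i₀ → p (i, j₀) = 0 := by
    intro h i hi
    rw [h, sub_self] at hc0
    exact (Finset.sum_eq_zero_iff_of_nonneg (fun i _ => hp0 _)).mp hc0 i
      (Finset.mem_erase.mpr ⟨hi, Finset.mem_univ i⟩)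
  have hrz : a = 1 → ∀ j, j ≠ j₀ → p (i₀, j) = 0 := by
    intro h j hj
    rw [h, sub_self] at hr0
    exact (Finset.sum_eq_zero_iff_of_nonneg (fun j _ => hp0 _)).mp hr0 j
      (Finset.mem_erase.mpr ⟨hj, Finset.mem_univ j⟩)
  set q : I × J → ℝ := fun e => if e.1 = i₀ ∨ e.2 = j₀ then 0 else
    p e + p (e.1, j₀) * p (i₀, e.2) / (1 - a) with hq
  have q0 : ∀ e, 0 ≤ q e := by
    intro e
    rw [hq]; dsimp only
    split_ifs
    · exact le_rfl
    · have := div_nonneg (mul_nonneg (hp0 (e.1, j₀)) (hp0 (i₀, e.2))) (sub_nonneg.mpr ha1)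
      linarith [hp0 e]
  have qrow : ∀ i ∈ S.erase i₀, ∑ j, q (i, j) = 1 := by
    intro i hi
    obtain ⟨hne, hiS⟩ := Finset.mem_erase.mp hi
    rw [← Finset.add_sum_erase univ _ (Finset.mem_univ j₀)]
    have e1 : q (i, j₀) = 0 := by rw [hq]; simp
    have e2 : ∑ j ∈ univ.erase j₀, q (i, j) =
        ∑ j ∈ univ.erase j₀, (p (i, j) + p (i, j₀) / (1 - a) * p (i₀, j)) := by
      refine Finset.sum_congr rfl (fun j hj => ?_)
      have hj' := (Finset.mem_erase.mp hj).1
      rw [hq]; dsimp only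
      rw [if_neg (by push Not; exact ⟨hne, hj'⟩)]
      ring
    rw [e1, e2, Finset.sum_add_distrib, ← Finset.mul_sum, hr0]
    have e3 : ∑ j ∈ univ.erase j₀, p (i, j) = 1 - p (i, j₀) := by
      have := hrow i hiS
      rw [← Finset.add_sum_erase univ _ (Finset.mem_univ j₀)] at this
      linarith
    rw [e3]
    by_cases h : a = 1
    · rw [hcz h i hne]; ring
    · have : 1 - a ≠ 0 := fun hh => h (by linarith)
      field_simp
      ring
  have qcol : ∀ j ∈ T.erase j₀, ∑ i, q (i, j) = 1 := by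
    intro j hj
    obtain ⟨hne, hjT⟩ := Finset.mem_erase.mp hj
    rw [← Finset.add_sum_erase univ _ (Finset.mem_univ i₀)]
    have e1 : q (i₀, j) = 0 := by rw [hq]; simp
    have e2 : ∑ i ∈ univ.erase i₀, q (i, j) =
        ∑ i ∈ univ.erase i₀, (p (i, j) + p (i₀, j) / (1 - a) * p (i, j₀)) := by
      refine Finset.sum_congr rfl (fun i hi => ?_)
      have hi' := (Finset.mem_erase.mp hi).1
      rw [hq]; dsimp only
      rw [if_neg (by push Not; exact ⟨hi', hne⟩)]
      ring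
    rw [e1, e2, Finset.sum_add_distrib, ← Finset.mul_sum, hc0]
    have e3 : ∑ i ∈ univ.erase i₀, p (i, j) = 1 - p (i₀, j) := by
      have := hcol j hjT
      rw [← Finset.add_sum_erase univ _ (Finset.mem_univ i₀)] at this
      linarith
    rw [e3]
    by_cases h : a = 1
    · rw [hrz h j hne]; ring
    · have : 1 - a ≠ 0 := fun hh => h (by linarith)
      field_simp
      ring
  have qS : ∀ i, i ∉ S.erase i₀ → ∀ j, q (i, j) = 0 := by
    intro i hi j
    rw [hq]; dsimp only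
    split_ifs with h
    · rfl
    · push Not at h
      have hiS : i ∉ S := fun hh => hi (Finset.mem_erase.mpr ⟨h.1, hh⟩)
      rw [hS i hiS, hS i hiS]; ring
  have qT : ∀ j, j ∉ T.erase j₀ → ∀ i, q (i, j) = 0 := by
    intro j hj i
    rw [hq]; dsimp only
    split_ifs with h
    · rfl
    · push Not at h
      have hjT : j ∉ T := fun hh => hj (Finset.mem_erase.mpr ⟨h.2, hh⟩)
      rw [hT j hjT, hT j hjT]; ring
  have q1 : ∀ e, q e ≤ 1 := by
    rintro ⟨i, j⟩
    by_cases hi : i ∈ S.erase i₀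
    · rw [← qrow i hi]
      exact Finset.single_le_sum (f := fun j => q (i, j)) (fun j _ => q0 _) (Finset.mem_univ j)
    · rw [qS i hi j]; norm_num
  refine ⟨q, q0, qrow, qcol, qS, qT, ?_⟩
  -- first comparison
  have c1 : Ex p (fun E => (nu (dR i₀ (dC j₀ E)) : ℝ)) + a ≤ Ex p (fun E => (nu E : ℝ)) := by
    rw [ha, ← Ex_mem p (i₀, j₀), ← Ex_add]
    refine Ex_mono hp0 hp1 (fun E => ?_)
    by_cases h : (i₀, j₀) ∈ E
    · rw [if_pos h]
      exact_mod_cast nu_core h
    · rw [if_neg h, add_zero]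
      exact_mod_cast (nu_dR_le i₀ (dC j₀ E)).trans (nu_dC_le j₀ E)
  -- second comparison
  have c2 : Ex q (fun E => (nu E : ℝ)) ≤ Ex q (fun E => (nu (dR i₀ (dC j₀ E)) : ℝ)) := by
    unfold Ex
    refine le_of_eq (Finset.sum_congr rfl (fun E _ => ?_))
    by_cases h : ∀ e ∈ E, e.1 ≠ i₀ ∧ e.2 ≠ j₀
    · have : dR i₀ (dC j₀ E) = E := by
        ext e
        rw [mem_dR, mem_dC]
        exact ⟨fun hh => hh.1.1, fun hh => ⟨⟨hh, (h e hh).2⟩, (h e hh).1⟩⟩
      dsimp only
      rw [this]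
    · push Not at h
      obtain ⟨e, he, h⟩ := h
      have hz : q e = 0 := by
        rw [hq]; dsimp only
        rw [if_pos]
        by_cases h1 : e.1 = i₀
        · exact Or.inl h1
        · exact Or.inr (h h1)
      rw [W_zero hz he, zero_mul, zero_mul]
  have hmono : ∀ (e : I × J) (E : Finset (I × J)),
      nu (dR i₀ (dC j₀ (E.erase e))) ≤ nu (dR i₀ (dC j₀ (insert e E))) := by
    intro e E
    refine nu_mono (fun x hx => ?_)
    rw [mem_dR, mem_dC] at hx ⊢
    exact ⟨⟨Finset.mem_insert_of_mem (Finset.mem_of_mem_erase hx.1.1), hx.1.2⟩, hx.2⟩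
  have hlip : ∀ (e : I × J) (E : Finset (I × J)),
      nu (dR i₀ (dC j₀ (insert e E))) ≤ nu (dR i₀ (dC j₀ (E.erase e))) + 1 := by
    intro e E
    by_cases h : e.1 = i₀ ∨ e.2 = j₀
    · have : dR i₀ (dC j₀ (insert e E)) = dR i₀ (dC j₀ (E.erase e)) := by
        ext x
        simp only [mem_dR, mem_dC, Finset.mem_insert, Finset.mem_erase]
        constructor
        · rintro ⟨⟨hx, h2⟩, h1⟩
          have hxe : x ≠ e := by
            rintro rfl
            rcases h with h | h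
            · exact h1 h
            · exact h2 h
          exact ⟨⟨⟨hxe, hx.resolve_left hxe⟩, h2⟩, h1⟩
        · rintro ⟨⟨⟨_, hx⟩, h2⟩, h1⟩
          exact ⟨⟨Or.inr hx, h2⟩, h1⟩
      rw [this]; omega
    · have h1 : dR i₀ (dC j₀ (insert e E)) ⊆ insert e (dR i₀ (dC j₀ E)) := by
        intro x hx
        simp only [mem_dR, mem_dC, Finset.mem_insert] at hx ⊢
        rcases hx with ⟨⟨rfl | hx, h2⟩, h1⟩
        · exact Or.inl rfl
        · exact Or.inr ⟨⟨hx, h2⟩, h1⟩
      have h2 : (dR i₀ (dC j₀ E)).erase e ⊆ dR i₀ (dC j₀ (E.erase e)) := by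
        intro x hx
        simp only [mem_dR, mem_dC, Finset.mem_erase] at hx ⊢
        exact ⟨⟨⟨hx.1, hx.2.1.1⟩, hx.2.1.2⟩, hx.2.2⟩
      calc nu (dR i₀ (dC j₀ (insert e E))) ≤ nu (insert e (dR i₀ (dC j₀ E))) := nu_mono h1
        _ ≤ nu ((dR i₀ (dC j₀ E)).erase e) + 1 := nu_insert_le _ _
        _ ≤ _ := Nat.add_le_add_right (nu_mono h2) 1
  have hzero : ∀ (e : I × J) (E : Finset (I × J)), (e.1 = i₀ ∨ e.2 = j₀) →
      nu (dR i₀ (dC j₀ (insert e E))) = nu (dR i₀ (dC j₀ (E.erase e))) := by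
    intro e E h
    congr 1
    ext x
    simp only [mem_dR, mem_dC, Finset.mem_insert, Finset.mem_erase]
    constructor
    · rintro ⟨⟨hx, h2⟩, h1⟩
      have hxe : x ≠ e := by
        rintro rfl
        rcases h with h | h
        · exact h1 h
        · exact h2 h
      exact ⟨⟨⟨hxe, hx.resolve_left hxe⟩, h2⟩, h1⟩
    · rintro ⟨⟨⟨_, hx⟩, h2⟩, h1⟩
      exact ⟨⟨Or.inr hx, h2⟩, h1⟩
  have c3 := Ex_change hp0 hp1 q0 q1 (fun E => (nu (dR i₀ (dC j₀ E)) : ℝ))
    (fun e => if e.1 = i₀ ∨ e.2 = j₀ then 0 else p (e.1, j₀) * p (i₀, e.2) / (1 - a))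
    (by
      intro e E
      by_cases h : e.1 = i₀ ∨ e.2 = j₀
      · rw [if_pos h, hzero e E h, sub_self, mul_zero]
      · rw [if_neg h]
        have hqe : q e - p e = p (e.1, j₀) * p (i₀, e.2) / (1 - a) := by
          rw [hq]; dsimp only
          rw [if_neg h]; ring
        rw [hqe]
        have hn : 0 ≤ p (e.1, j₀) * p (i₀, e.2) / (1 - a) :=
          div_nonneg (mul_nonneg (hp0 _) (hp0 _)) (sub_nonneg.mpr ha1)
        have h1 : (nu (dR i₀ (dC j₀ (insert e E))) : ℝ) - nu (dR i₀ (dC j₀ (E.erase e))) ≤ 1 := by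
          have := hlip e E
          have h2 : (nu (dR i₀ (dC j₀ (insert e E))) : ℝ) ≤ nu (dR i₀ (dC j₀ (E.erase e))) + 1 := by
            exact_mod_cast this
          linarith
        calc _ ≤ p (e.1, j₀) * p (i₀, e.2) / (1 - a) * 1 := mul_le_mul_of_nonneg_left h1 hn
          _ = _ := mul_one _)
  have hsum : ∑ e : I × J, (if e.1 = i₀ ∨ e.2 = j₀ then 0 else
      p (e.1, j₀) * p (i₀, e.2) / (1 - a)) ≤ 1 - a := by
    rw [Fintype.sum_prod_type]
    have e1 : ∀ i, ∑ j, (if i = i₀ ∨ j = j₀ then 0 else p (i, j₀) * p (i₀, j) / (1 - a)) =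
        if i = i₀ then 0 else p (i, j₀) / (1 - a) * ∑ j ∈ univ.erase j₀, p (i₀, j) := by
      intro i
      by_cases hi : i = i₀
      · simp [hi]
      · rw [if_neg hi, Finset.mul_sum, ← Finset.add_sum_erase univ _ (Finset.mem_univ j₀)]
        rw [if_pos (Or.inr rfl), zero_add]
        refine Finset.sum_congr rfl (fun j hj => ?_)
        rw [if_neg (by push Not; exact ⟨hi, (Finset.mem_erase.mp hj).1⟩)]
        ring
    simp only
    rw [Finset.sum_congr rfl (fun i _ => e1 i), hr0]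
    rw [← Finset.add_sum_erase univ _ (Finset.mem_univ i₀), if_pos rfl, zero_add]
    have e2 : ∑ i ∈ univ.erase i₀, (if i = i₀ then 0 else p (i, j₀) / (1 - a) * (1 - a)) =
        ∑ i ∈ univ.erase i₀, p (i, j₀) * ((1 - a)⁻¹ * (1 - a)) := by
      refine Finset.sum_congr rfl (fun i hi => ?_)
      rw [if_neg (Finset.mem_erase.mp hi).1]
      ring
    rw [e2, ← Finset.sum_mul, hc0]
    by_cases h : 1 - a = 0
    · rw [h]; simp
    · rw [inv_mul_cancel₀ h, mul_one]
  linarith

theorem main_aux {l : ℝ} (hl : Real.exp (-l) = l) : ∀ (m : ℕ) (p : I × J → ℝ) (S : Finset I)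
    (T : Finset J), S.card = m → T.card = m → (∀ e, 0 ≤ p e) →
    (∀ i ∈ S, ∑ j, p (i, j) = 1) → (∀ j ∈ T, ∑ i, p (i, j) = 1) →
    (∀ i, i ∉ S → ∀ j, p (i, j) = 0) → (∀ j, j ∉ T → ∀ i, p (i, j) = 0) →
    (2 * (1 - l) - l ^ 2) * m ≤ Ex p (fun E => (nu E : ℝ)) := by
  have hlo := lam_lo hl
  intro m
  induction m with
  | zero =>
    intro p S T hSc hTc hp0 hrow hcol hS hT
    have h1 : ∀ e, p e ≤ 7722 / 10000 := by
      rintro ⟨i, j⟩
      rw [Finset.card_eq_zero] at hSc
      rw [hS i (by rw [hSc]; exact Finset.notMem_empty i) j]; norm_num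
    have := bound_small hl p S T hp0 h1 hrow hcol hS hT (by rw [hSc, hTc])
    rwa [hSc] at this
  | succ m ih =>
    intro p S T hSc hTc hp0 hrow hcol hS hT
    by_cases h : ∀ e, p e ≤ 7722 / 10000
    · have := bound_small hl p S T hp0 h hrow hcol hS hT (by rw [hSc, hTc])
      rwa [hSc] at this
    · push Not at h
      obtain ⟨⟨i₀, j₀⟩, hbig⟩ := h
      have hi₀ : i₀ ∈ S := by
        by_contra hh
        rw [hS i₀ hh j₀] at hbig; norm_num at hbig
      have hj₀ : j₀ ∈ T := by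
        by_contra hh
        rw [hT j₀ hh i₀] at hbig; norm_num at hbig
      obtain ⟨q, q0, qrow, qcol, qS, qT, hq⟩ :=
        remove_entry p S T hp0 hrow hcol hS hT hi₀ hj₀
      have := ih q (S.erase i₀) (T.erase j₀) (by rw [Finset.card_erase_of_mem hi₀, hSc]; rfl)
        (by rw [Finset.card_erase_of_mem hj₀, hTc]; rfl) q0 qrow qcol qS qT
      push_cast
      nlinarith [this, hq, hbig, hlo]

/-- **Main bound.** -/
theorem main_bound {l : ℝ} (hl : Real.exp (-l) = l) (p : I × J → ℝ)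
    (hcard : Fintype.card I = Fintype.card J) (hp0 : ∀ e, 0 ≤ p e)
    (hrow : ∀ i, ∑ j, p (i, j) = 1) (hcol : ∀ j, ∑ i, p (i, j) = 1) :
    (2 * (1 - l) - l ^ 2) * Fintype.card I ≤ Ex p (fun E => (nu E : ℝ)) :=
  main_aux hl (Fintype.card I) p univ univ (by simp) (by simp [hcard]) hp0
    (fun i _ => hrow i) (fun j _ => hcol j) (fun i hi => absurd (Finset.mem_univ i) hi)
    (fun j hj => absurd (Finset.mem_univ j) hj)

end Pool.KS
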