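import Pool.Agent.KS.Assem2

/-! Removal of large entries and the main bound, with a quadratic gain. -/

namespace Pool.KS

open Finset

set_option linter.unusedSectionVars false

variable {I J : Type*} [Fintype I] [Fintype J] [DecidableEq I] [DecidableEq J]

theorem remove_entry2 (p : I × J → ℝ) (S : Finset I) (T : Finset J) (hp0 : ∀ e, 0 ≤ p e)
    (hrow : ∀ i ∈ S, ∑ j, p (i, j) = 1) (hcol : ∀ j ∈ T, ∑ i, p (i, j) = 1)
    (hS : ∀ i, i ∉ S → ∀ j, p (i, j) = 0) (hT : ∀ j, j ∉ T → ∀ i, p (i, j) = 0)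
    {i₀ : I} {j₀ : J} (hi₀ : i₀ ∈ S) (hj₀ : j₀ ∈ T) :
    ∃ q : I × J → ℝ, (∀ e, 0 ≤ q e) ∧
      (∀ i ∈ S.erase i₀, ∑ j, q (i, j) = 1) ∧ (∀ j ∈ T.erase j₀, ∑ i, q (i, j) = 1) ∧
      (∀ i, i ∉ S.erase i₀ → ∀ j, q (i, j) = 0) ∧ (∀ j, j ∉ T.erase j₀ → ∀ i, q (i, j) = 0) ∧
      Ex q (fun E => (nu E : ℝ)) + 2 * p (i₀, j₀) - 1 ≤ Ex p (fun E => (nu E : ℝ)) ∧
      ∑ i, ∑ j, p (i, j) ^ 2 ≤ ∑ i, ∑ j, q (i, j) ^ 2 +
        (p (i₀, j₀) ^ 2 + 2 * (1 - p (i₀, j₀)) ^ 2) := by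
  have hp1 : ∀ e, p e ≤ 1 := by
    rintro ⟨i, j⟩
    by_cases hi : i ∈ S
    · rw [← hrow i hi]
      exact Finset.single_le_sum (f := fun j => p (i, j)) (fun j _ => hp0 _) (Finset.mem_univ j)
    · rw [hS i hi j]; norm_num
  set a := p (i₀, j₀) with ha
  have ha1 : a ≤ 1 := hp1 _
  have hr0 : ∑ j ∈ univ.erase j₀, p (i₀, j) = 1 - a := by
    have := hrow i₀ hi₀
    rw [← Finset.add_sum_erase univ _ (Finset.mem_univ j₀)] at this
    linarith
  have hc0 : ∑ i ∈ univ.erase i₀, p (i, j₀) = 1 - a := by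
    have := hcol j₀ hj₀
    rw [← Finset.add_sum_erase univ _ (Finset.mem_univ i₀)] at this
    linarith
  -- a zero entry when `a = 1`
  have hcz : a = 1 → ∀ i, i ≠ i₀ → p (i, j₀) = 0 := by
    intro h i hi
    rw [h, sub_self] at hc0
    exact (Finset.sum_eq_zero_iff_of_nonneg (fun i _ => hp0 _)).mp hc0 i
      (Finset.mem_erase.mpr ⟨hi, Finset.mem_univ i⟩)
  have hrz : a = 1 → ∀ j, j ≠ j₀ → p (i₀, j) = 0 := by
    intro h j hj
    rw [h, sub_self] at hr0
    exact (Finset.sum_eq_zero_iff_of_nonneg (fun j _ => hp0 _)).mp hr0 j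
      (Finset.mem_erase.mpr ⟨hj, Finset.mem_univ j⟩)
  set q : I × J → ℝ := fun e => if e.1 = i₀ ∨ e.2 = j₀ then 0 else
    p e + p (e.1, j₀) * p (i₀, e.2) / (1 - a) with hq
  have q0 : ∀ e, 0 ≤ q e := by
    intro e
    rw [hq]; dsimp only
    split_ifs
    · exact le_rfl
    · have := div_nonneg (mul_nonneg (hp0 (e.1, j₀)) (hp0 (i₀, e.2))) (sub_nonneg.mpr ha1)
      linarith [hp0 e]
  have qrow : ∀ i ∈ S.erase i₀, ∑ j, q (i, j) = 1 := by
    intro i hi
    obtain ⟨hne, hiS⟩ := Finset.mem_erase.mp hi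
    rw [← Finset.add_sum_erase univ _ (Finset.mem_univ j₀)]
    have e1 : q (i, j₀) = 0 := by rw [hq]; simp
    have e2 : ∑ j ∈ univ.erase j₀, q (i, j) =
        ∑ j ∈ univ.erase j₀, (p (i, j) + p (i, j₀) / (1 - a) * p (i₀, j)) := by
      refine Finset.sum_congr rfl (fun j hj => ?_)
      have hj' := (Finset.mem_erase.mp hj).1
      rw [hq]; dsimp only
      rw [if_neg (by push Not; exact ⟨hne, hj'⟩)]
      ring
    rw [e1, e2, Finset.sum_add_distrib, ← Finset.mul_sum, hr0]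
    have e3 : ∑ j ∈ univ.erase j₀, p (i, j) = 1 - p (i, j₀) := by
      have := hrow i hiS
      rw [← Finset.add_sum_erase univ _ (Finset.mem_univ j₀)] at this
      linarith
    rw [e3]
    by_cases h : a = 1
    · rw [hcz h i hne]; ring
    · have : 1 - a ≠ 0 := fun hh => h (by linarith)
      field_simp
      ring
  have qcol : ∀ j ∈ T.erase j₀, ∑ i, q (i, j) = 1 := by
    intro j hj
    obtain ⟨hne, hjT⟩ := Finset.mem_erase.mp hj
    rw [← Finset.add_sum_erase univ _ (Finset.mem_univ i₀)]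
    have e1 : q (i₀, j) = 0 := by rw [hq]; simp
    have e2 : ∑ i ∈ univ.erase i₀, q (i, j) =
        ∑ i ∈ univ.erase i₀, (p (i, j) + p (i₀, j) / (1 - a) * p (i, j₀)) := by
      refine Finset.sum_congr rfl (fun i hi => ?_)
      have hi' := (Finset.mem_erase.mp hi).1
      rw [hq]; dsimp only
      rw [if_neg (by push Not; exact ⟨hi', hne⟩)]
      ring
    rw [e1, e2, Finset.sum_add_distrib, ← Finset.mul_sum, hc0]
    have e3 : ∑ i ∈ univ.erase i₀, p (i, j) = 1 - p (i₀, j) := by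
      have := hcol j hjT
      rw [← Finset.add_sum_erase univ _ (Finset.mem_univ i₀)] at this
      linarith
    rw [e3]
    by_cases h : a = 1
    · rw [hrz h j hne]; ring
    · have : 1 - a ≠ 0 := fun hh => h (by linarith)
      field_simp
      ring
  have qS : ∀ i, i ∉ S.erase i₀ → ∀ j, q (i, j) = 0 := by
    intro i hi j
    rw [hq]; dsimp only
    split_ifs with h
    · rfl
    · push Not at h
      have hiS : i ∉ S := fun hh => hi (Finset.mem_erase.mpr ⟨h.1, hh⟩)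
      rw [hS i hiS, hS i hiS]; ring
  have qT : ∀ j, j ∉ T.erase j₀ → ∀ i, q (i, j) = 0 := by
    intro j hj i
    rw [hq]; dsimp only
    split_ifs with h
    · rfl
    · push Not at h
      have hjT : j ∉ T := fun hh => hj (Finset.mem_erase.mpr ⟨h.2, hh⟩)
      rw [hT j hjT, hT j hjT]; ring
  have q1 : ∀ e, q e ≤ 1 := by
    rintro ⟨i, j⟩
    by_cases hi : i ∈ S.erase i₀
    · rw [← qrow i hi]
      exact Finset.single_le_sum (f := fun j => q (i, j)) (fun j _ => q0 _) (Finset.mem_univ j)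
    · rw [qS i hi j]; norm_num
  have qsq : ∑ i, ∑ j, p (i, j) ^ 2 ≤ ∑ i, ∑ j, q (i, j) ^ 2 + (a ^ 2 + 2 * (1 - a) ^ 2) := by
    have t1 : ∑ j ∈ univ.erase j₀, p (i₀, j) ^ 2 ≤ (1 - a) ^ 2 := by
      calc ∑ j ∈ univ.erase j₀, p (i₀, j) ^ 2 ≤ ∑ j ∈ univ.erase j₀, (1 - a) * p (i₀, j) := by
            refine Finset.sum_le_sum (fun j hj => ?_)
            have : p (i₀, j) ≤ 1 - a := by
              rw [← hr0]
              exact Finset.single_le_sum (f := fun j => p (i₀, j)) (fun j _ => hp0 _) hj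
            nlinarith [hp0 (i₀, j)]
        _ = (1 - a) ^ 2 := by rw [← Finset.mul_sum, hr0]; ring
    have t2 : ∑ i ∈ univ.erase i₀, p (i, j₀) ^ 2 ≤ (1 - a) ^ 2 := by
      calc ∑ i ∈ univ.erase i₀, p (i, j₀) ^ 2 ≤ ∑ i ∈ univ.erase i₀, (1 - a) * p (i, j₀) := by
            refine Finset.sum_le_sum (fun i hi => ?_)
            have : p (i, j₀) ≤ 1 - a := by
              rw [← hc0]
              exact Finset.single_le_sum (f := fun i => p (i, j₀)) (fun i _ => hp0 _) hi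
            nlinarith [hp0 (i, j₀)]
        _ = (1 - a) ^ 2 := by rw [← Finset.mul_sum, hc0]; ring
    have t3 : ∑ i ∈ univ.erase i₀, ∑ j ∈ univ.erase j₀, p (i, j) ^ 2 ≤
        ∑ i, ∑ j, q (i, j) ^ 2 := by
      calc ∑ i ∈ univ.erase i₀, ∑ j ∈ univ.erase j₀, p (i, j) ^ 2 ≤
            ∑ i ∈ univ.erase i₀, ∑ j ∈ univ.erase j₀, q (i, j) ^ 2 := by
            refine Finset.sum_le_sum (fun i hi => Finset.sum_le_sum (fun j hj => ?_))
            have hi' := (Finset.mem_erase.mp hi).1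
            have hj' := (Finset.mem_erase.mp hj).1
            have : p (i, j) ≤ q (i, j) := by
              rw [hq]; dsimp only
              rw [if_neg (by push Not; exact ⟨hi', hj'⟩)]
              have := div_nonneg (mul_nonneg (hp0 (i, j₀)) (hp0 (i₀, j))) (sub_nonneg.mpr ha1)
              linarith
            exact pow_le_pow_left₀ (hp0 _) this 2
        _ ≤ ∑ i ∈ univ.erase i₀, ∑ j, q (i, j) ^ 2 :=
            Finset.sum_le_sum (fun i _ => Finset.sum_le_sum_of_subset_of_nonneg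
              (Finset.subset_univ _) (fun j _ _ => sq_nonneg _))
        _ ≤ _ := Finset.sum_le_sum_of_subset_of_nonneg
              (Finset.subset_univ _) (fun i _ _ => Finset.sum_nonneg (fun j _ => sq_nonneg _))
    have t4 : ∑ i, ∑ j, p (i, j) ^ 2 = (a ^ 2 + ∑ j ∈ univ.erase j₀, p (i₀, j) ^ 2) +
        (∑ i ∈ univ.erase i₀, p (i, j₀) ^ 2 +
          ∑ i ∈ univ.erase i₀, ∑ j ∈ univ.erase j₀, p (i, j) ^ 2) := by
      rw [← Finset.add_sum_erase univ _ (Finset.mem_univ i₀)]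
      congr 1
      · rw [← Finset.add_sum_erase univ _ (Finset.mem_univ j₀)]
      · rw [← Finset.sum_add_distrib]
        exact Finset.sum_congr rfl (fun i _ => (Finset.add_sum_erase univ _
          (Finset.mem_univ j₀)).symm)
    rw [t4]
    linarith
  refine ⟨q, q0, qrow, qcol, qS, qT, ?_, qsq⟩
  -- first comparison
  have c1 : Ex p (fun E => (nu (dR i₀ (dC j₀ E)) : ℝ)) + a ≤ Ex p (fun E => (nu E : ℝ)) := by
    rw [ha, ← Ex_mem p (i₀, j₀), ← Ex_add]
    refine Ex_mono hp0 hp1 (fun E => ?_)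
    by_cases h : (i₀, j₀) ∈ E
    · rw [if_pos h]
      exact_mod_cast nu_core h
    · rw [if_neg h, add_zero]
      exact_mod_cast (nu_dR_le i₀ (dC j₀ E)).trans (nu_dC_le j₀ E)
  -- second comparison
  have c2 : Ex q (fun E => (nu E : ℝ)) ≤ Ex q (fun E => (nu (dR i₀ (dC j₀ E)) : ℝ)) := by
    unfold Ex
    refine le_of_eq (Finset.sum_congr rfl (fun E _ => ?_))
    by_cases h : ∀ e ∈ E, e.1 ≠ i₀ ∧ e.2 ≠ j₀
    · have : dR i₀ (dC j₀ E) = E := by
        ext e
        rw [mem_dR, mem_dC]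
        exact ⟨fun hh => hh.1.1, fun hh => ⟨⟨hh, (h e hh).2⟩, (h e hh).1⟩⟩
      dsimp only
      rw [this]
    · push Not at h
      obtain ⟨e, he, h⟩ := h
      have hz : q e = 0 := by
        rw [hq]; dsimp only
        rw [if_pos]
        by_cases h1 : e.1 = i₀
        · exact Or.inl h1
        · exact Or.inr (h h1)
      rw [W_zero hz he, zero_mul, zero_mul]
  have hmono : ∀ (e : I × J) (E : Finset (I × J)),
      nu (dR i₀ (dC j₀ (E.erase e))) ≤ nu (dR i₀ (dC j₀ (insert e E))) := by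
    intro e E
    refine nu_mono (fun x hx => ?_)
    rw [mem_dR, mem_dC] at hx ⊢
    exact ⟨⟨Finset.mem_insert_of_mem (Finset.mem_of_mem_erase hx.1.1), hx.1.2⟩, hx.2⟩
  have hlip : ∀ (e : I × J) (E : Finset (I × J)),
      nu (dR i₀ (dC j₀ (insert e E))) ≤ nu (dR i₀ (dC j₀ (E.erase e))) + 1 := by
    intro e E
    by_cases h : e.1 = i₀ ∨ e.2 = j₀
    · have : dR i₀ (dC j₀ (insert e E)) = dR i₀ (dC j₀ (E.erase e)) := by
        ext x
        simp only [mem_dR, mem_dC, Finset.mem_insert, Finset.mem_erase]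
        constructor
        · rintro ⟨⟨hx, h2⟩, h1⟩
          have hxe : x ≠ e := by
            rintro rfl
            rcases h with h | h
            · exact h1 h
            · exact h2 h
          exact ⟨⟨⟨hxe, hx.resolve_left hxe⟩, h2⟩, h1⟩
        · rintro ⟨⟨⟨_, hx⟩, h2⟩, h1⟩
          exact ⟨⟨Or.inr hx, h2⟩, h1⟩
      rw [this]; omega
    · have h1 : dR i₀ (dC j₀ (insert e E)) ⊆ insert e (dR i₀ (dC j₀ E)) := by
        intro x hx
        simp only [mem_dR, mem_dC, Finset.mem_insert] at hx ⊢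
        rcases hx with ⟨⟨rfl | hx, h2⟩, h1⟩
        · exact Or.inl rfl
        · exact Or.inr ⟨⟨hx, h2⟩, h1⟩
      have h2 : (dR i₀ (dC j₀ E)).erase e ⊆ dR i₀ (dC j₀ (E.erase e)) := by
        intro x hx
        simp only [mem_dR, mem_dC, Finset.mem_erase] at hx ⊢
        exact ⟨⟨⟨hx.1, hx.2.1.1⟩, hx.2.1.2⟩, hx.2.2⟩
      calc nu (dR i₀ (dC j₀ (insert e E))) ≤ nu (insert e (dR i₀ (dC j₀ E))) := nu_mono h1
        _ ≤ nu ((dR i₀ (dC j₀ E)).erase e) + 1 := nu_insert_le _ _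
        _ ≤ _ := Nat.add_le_add_right (nu_mono h2) 1
  have hzero : ∀ (e : I × J) (E : Finset (I × J)), (e.1 = i₀ ∨ e.2 = j₀) →
      nu (dR i₀ (dC j₀ (insert e E))) = nu (dR i₀ (dC j₀ (E.erase e))) := by
    intro e E h
    congr 1
    ext x
    simp only [mem_dR, mem_dC, Finset.mem_insert, Finset.mem_erase]
    constructor
    · rintro ⟨⟨hx, h2⟩, h1⟩
      have hxe : x ≠ e := by
        rintro rfl
        rcases h with h | h
        · exact h1 h
        · exact h2 h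
      exact ⟨⟨⟨hxe, hx.resolve_left hxe⟩, h2⟩, h1⟩
    · rintro ⟨⟨⟨_, hx⟩, h2⟩, h1⟩
      exact ⟨⟨Or.inr hx, h2⟩, h1⟩
  have c3 := Ex_change hp0 hp1 q0 q1 (fun E => (nu (dR i₀ (dC j₀ E)) : ℝ))
    (fun e => if e.1 = i₀ ∨ e.2 = j₀ then 0 else p (e.1, j₀) * p (i₀, e.2) / (1 - a))
    (by
      intro e E
      by_cases h : e.1 = i₀ ∨ e.2 = j₀
      · rw [if_pos h, hzero e E h, sub_self, mul_zero]
      · rw [if_neg h]
        have hqe : q e - p e = p (e.1, j₀) * p (i₀, e.2) / (1 - a) := by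
          rw [hq]; dsimp only
          rw [if_neg h]; ring
        rw [hqe]
        have hn : 0 ≤ p (e.1, j₀) * p (i₀, e.2) / (1 - a) :=
          div_nonneg (mul_nonneg (hp0 _) (hp0 _)) (sub_nonneg.mpr ha1)
        have h1 : (nu (dR i₀ (dC j₀ (insert e E))) : ℝ) - nu (dR i₀ (dC j₀ (E.erase e))) ≤ 1 := by
          have := hlip e E
          have h2 : (nu (dR i₀ (dC j₀ (insert e E))) : ℝ) ≤ nu (dR i₀ (dC j₀ (E.erase e))) + 1 := by
            exact_mod_cast this
          linarith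
        calc _ ≤ p (e.1, j₀) * p (i₀, e.2) / (1 - a) * 1 := mul_le_mul_of_nonneg_left h1 hn
          _ = _ := mul_one _)
  have hsum : ∑ e : I × J, (if e.1 = i₀ ∨ e.2 = j₀ then 0 else
      p (e.1, j₀) * p (i₀, e.2) / (1 - a)) ≤ 1 - a := by
    rw [Fintype.sum_prod_type]
    have e1 : ∀ i, ∑ j, (if i = i₀ ∨ j = j₀ then 0 else p (i, j₀) * p (i₀, j) / (1 - a)) =
        if i = i₀ then 0 else p (i, j₀) / (1 - a) * ∑ j ∈ univ.erase j₀, p (i₀, j) := by
      intro i
      by_cases hi : i = i₀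
      · simp [hi]
      · rw [if_neg hi, Finset.mul_sum, ← Finset.add_sum_erase univ _ (Finset.mem_univ j₀)]
        rw [if_pos (Or.inr rfl), zero_add]
        refine Finset.sum_congr rfl (fun j hj => ?_)
        rw [if_neg (by push Not; exact ⟨hi, (Finset.mem_erase.mp hj).1⟩)]
        ring
    simp only
    rw [Finset.sum_congr rfl (fun i _ => e1 i), hr0]
    rw [← Finset.add_sum_erase univ _ (Finset.mem_univ i₀), if_pos rfl, zero_add]
    have e2 : ∑ i ∈ univ.erase i₀, (if i = i₀ then 0 else p (i, j₀) / (1 - a) * (1 - a)) =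
        ∑ i ∈ univ.erase i₀, p (i, j₀) * ((1 - a)⁻¹ * (1 - a)) := by
      refine Finset.sum_congr rfl (fun i hi => ?_)
      rw [if_neg (Finset.mem_erase.mp hi).1]
      ring
    rw [e2, ← Finset.sum_mul, hc0]
    by_cases h : 1 - a = 0
    · rw [h]; simp
    · rw [inv_mul_cancel₀ h, mul_one]
  linarith


theorem main_aux2 {l : ℝ} (hl : Real.exp (-l) = l) : ∀ (m : ℕ) (p : I × J → ℝ) (S : Finset I)
    (T : Finset J), S.card = m → T.card = m → (∀ e, 0 ≤ p e) →
    (∀ i ∈ S, ∑ j, p (i, j) = 1) → (∀ j ∈ T, ∑ i, p (i, j) = 1) →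
    (∀ i, i ∉ S → ∀ j, p (i, j) = 0) → (∀ j, j ∉ T → ∀ i, p (i, j) = 0) →
    (2 * (1 - l) - l ^ 2) * m + 4 / 10000 * ∑ i, ∑ j, p (i, j) ^ 2 ≤
      Ex p (fun E => (nu E : ℝ)) := by
  have hlo := lam_lo hl
  have hsmall : ∀ (m : ℕ) (p : I × J → ℝ) (S : Finset I)
    (T : Finset J), S.card = m → T.card = m → (∀ e, 0 ≤ p e) →
    (∀ i ∈ S, ∑ j, p (i, j) = 1) → (∀ j ∈ T, ∑ i, p (i, j) = 1) →
    (∀ i, i ∉ S → ∀ j, p (i, j) = 0) → (∀ j, j ∉ T → ∀ i, p (i, j) = 0) →
    (∀ e, p e ≤ 7722 / 10000) →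
    (2 * (1 - l) - l ^ 2) * m + 4 / 10000 * ∑ i, ∑ j, p (i, j) ^ 2 ≤
      Ex p (fun E => (nu E : ℝ)) := by
    intro m p S T hSc hTc hp0 hrow hcol hS hT h1
    have := bound_small2 hl p S T hp0 h1 hrow hcol hS hT (by rw [hSc, hTc])
    rw [hSc] at this
    have e : ∑ i, ∑ j, p (i, j) ^ 2 = ∑ i ∈ S, gg p T i i := by
      symm
      have e1 : ∑ i ∈ S, gg p T i i = ∑ i ∈ S, ∑ j, p (i, j) ^ 2 := by
        refine Finset.sum_congr rfl (fun i _ => ?_)
        unfold gg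
        have : ∑ j ∈ T, p (i, j) * p (i, j) = ∑ j ∈ T, p (i, j) ^ 2 :=
          Finset.sum_congr rfl (fun j _ => by ring)
        rw [this]
        refine Finset.sum_subset (Finset.subset_univ _) (fun j _ hj => ?_)
        rw [hT j hj i]; norm_num
      rw [e1]
      refine Finset.sum_subset (Finset.subset_univ _) (fun i _ hi => ?_)
      exact Finset.sum_eq_zero (fun j _ => by rw [hS i hi j]; norm_num)
    rw [e]
    exact this
  intro m
  induction m with
  | zero =>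
    intro p S T hSc hTc hp0 hrow hcol hS hT
    have h1 : ∀ e, p e ≤ 7722 / 10000 := by
      rintro ⟨i, j⟩
      rw [Finset.card_eq_zero] at hSc
      rw [hS i (by rw [hSc]; exact Finset.notMem_empty i) j]; norm_num
    exact hsmall 0 p S T hSc hTc hp0 hrow hcol hS hT h1
  | succ m ih =>
    intro p S T hSc hTc hp0 hrow hcol hS hT
    by_cases h : ∀ e, p e ≤ 7722 / 10000
    · exact hsmall (m + 1) p S T hSc hTc hp0 hrow hcol hS hT h
    · push Not at h
      obtain ⟨⟨i₀, j₀⟩, hbig⟩ := h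
      have hi₀ : i₀ ∈ S := by
        by_contra hh
        rw [hS i₀ hh j₀] at hbig; norm_num at hbig
      have hj₀ : j₀ ∈ T := by
        by_contra hh
        rw [hT j₀ hh i₀] at hbig; norm_num at hbig
      have hle1 : p (i₀, j₀) ≤ 1 := by
        rw [← hrow i₀ hi₀]
        exact Finset.single_le_sum (f := fun j => p (i₀, j)) (fun j _ => hp0 _)
          (Finset.mem_univ j₀)
      obtain ⟨q, q0, qrow, qcol, qS, qT, hq, hqs⟩ :=
        remove_entry2 p S T hp0 hrow hcol hS hT hi₀ hj₀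
      have := ih q (S.erase i₀) (T.erase j₀) (by rw [Finset.card_erase_of_mem hi₀, hSc]; rfl)
        (by rw [Finset.card_erase_of_mem hj₀, hTc]; rfl) q0 qrow qcol qS qT
      push_cast
      have hg : 2 * (1 - l) - l ^ 2 ≤ 5440635 / 10000000 := by nlinarith [hlo]
      have hkey : 4 / 10000 * (p (i₀, j₀) ^ 2 + 2 * (1 - p (i₀, j₀)) ^ 2) +
          5440635 / 10000000 ≤ 2 * p (i₀, j₀) - 1 := by
        nlinarith [hbig, hle1]
      linarith

/-- **Main bound with a quadratic gain.** -/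
theorem main_bound2 {l : ℝ} (hl : Real.exp (-l) = l) (p : I × J → ℝ)
    (hcard : Fintype.card I = Fintype.card J) (hp0 : ∀ e, 0 ≤ p e)
    (hrow : ∀ i, ∑ j, p (i, j) = 1) (hcol : ∀ j, ∑ i, p (i, j) = 1) :
    (2 * (1 - l) - l ^ 2) * Fintype.card I + 4 / 10000 * ∑ i, ∑ j, p (i, j) ^ 2 ≤
      Ex p (fun E => (nu E : ℝ)) :=
  main_aux2 hl (Fintype.card I) p univ univ (by simp) (by simp [hcard]) hp0
    (fun i _ => hrow i) (fun j _ => hcol j) (fun i hi => absurd (Finset.mem_univ i) hi)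
    (fun j hj => absurd (Finset.mem_univ j) hj)

end Pool.KS
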