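import Pool.Agent.KS.Comb

/-! Expectation over independent edges. -/

namespace Pool.KS

open Finset

set_option linter.unusedSectionVars false

section general
variable {ε : Type*} [Fintype ε] [DecidableEq ε]

/-- probability weight of the edge set `E` -/
noncomputable def W (p : ε → ℝ) (E : Finset ε) : ℝ :=
  ∏ e, (if e ∈ E then p e else 1 - p e)

/-- expectation over independent edges -/
noncomputable def Ex (p : ε → ℝ) (f : Finset ε → ℝ) : ℝ := ∑ E : Finset ε, W p E * f E

theorem W_nonneg {p : ε → ℝ} (h0 : ∀ e, 0 ≤ p e) (h1 : ∀ e, p e ≤ 1) (E : Finset ε) :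
    0 ≤ W p E := by
  unfold W
  refine Finset.prod_nonneg (fun e _ => ?_)
  split_ifs
  · exact h0 e
  · linarith [h1 e]

theorem Ex_mono {p : ε → ℝ} (h0 : ∀ e, 0 ≤ p e) (h1 : ∀ e, p e ≤ 1) {f g : Finset ε → ℝ}
    (h : ∀ E, f E ≤ g E) : Ex p f ≤ Ex p g :=
  Finset.sum_le_sum (fun E _ => mul_le_mul_of_nonneg_left (h E) (W_nonneg h0 h1 E))

theorem Ex_add (p : ε → ℝ) (f g : Finset ε → ℝ) :
    Ex p (fun E => f E + g E) = Ex p f + Ex p g := by
  unfold Ex; rw [← Finset.sum_add_distrib]
  exact Finset.sum_congr rfl (fun E _ => by ring)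

theorem Ex_sub (p : ε → ℝ) (f g : Finset ε → ℝ) :
    Ex p (fun E => f E - g E) = Ex p f - Ex p g := by
  unfold Ex; rw [← Finset.sum_sub_distrib]
  exact Finset.sum_congr rfl (fun E _ => by ring)

theorem Ex_mul_left (p : ε → ℝ) (c : ℝ) (f : Finset ε → ℝ) :
    Ex p (fun E => c * f E) = c * Ex p f := by
  unfold Ex; rw [Finset.mul_sum]
  exact Finset.sum_congr rfl (fun E _ => by ring)

theorem Ex_sum (p : ε → ℝ) {κ : Type*} (s : Finset κ) (f : κ → Finset ε → ℝ) :
    Ex p (fun E => ∑ k ∈ s, f k E) = ∑ k ∈ s, Ex p (f k) := by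
  unfold Ex
  rw [Finset.sum_comm]
  exact Finset.sum_congr rfl (fun E _ => by rw [Finset.mul_sum])

theorem Ex_congr (p : ε → ℝ) {f g : Finset ε → ℝ} (h : ∀ E, f E = g E) : Ex p f = Ex p g := by
  have : f = g := funext h
  rw [this]

theorem Ex_one (p : ε → ℝ) : Ex p (fun _ => 1) = 1 := by
  unfold Ex W
  have h := Finset.prod_add p (fun e => 1 - p e) (univ : Finset ε)
  have h1 : ∏ e : ε, (p e + (1 - p e)) = 1 := Finset.prod_eq_one (fun e _ => by ring)
  rw [h1] at h
  refine Eq.trans ?_ h.symm
  rw [Finset.powerset_univ]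
  refine Finset.sum_congr rfl (fun E _ => ?_)
  rw [mul_one, Finset.prod_ite]
  congr 1
  · exact Finset.prod_congr (by ext e; simp) (fun _ _ => rfl)
  · exact Finset.prod_congr (by ext e; simp) (fun _ _ => rfl)

theorem Ex_const (p : ε → ℝ) (c : ℝ) : Ex p (fun _ => c) = c := by
  have := Ex_mul_left p c (fun _ => 1)
  rw [Ex_one, mul_one] at this
  simpa using this

/-- the weight outside `e` -/
noncomputable def W' (p : ε → ℝ) (e : ε) (E : Finset ε) : ℝ :=
  ∏ x ∈ univ.erase e, (if x ∈ E then p x else 1 - p x)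

theorem Ex_split (p : ε → ℝ) (e : ε) (f : Finset ε → ℝ) :
    Ex p f = ∑ E ∈ (univ.erase e).powerset,
      W' p e E * ((1 - p e) * f E + p e * f (insert e E)) := by
  unfold Ex
  have h1 : (univ : Finset (Finset ε)) = (insert e (univ.erase e)).powerset := by
    rw [Finset.insert_erase (Finset.mem_univ e), Finset.powerset_univ]
  rw [h1, Finset.sum_powerset_insert (Finset.notMem_erase e univ)]
  rw [← Finset.sum_add_distrib]
  refine Finset.sum_congr rfl (fun E hE => ?_)
  rw [Finset.mem_powerset] at hE
  have he : e ∉ E := fun h => Finset.notMem_erase e univ (hE h)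
  have w1 : W p E = (1 - p e) * W' p e E := by
    unfold W W'
    rw [← Finset.mul_prod_erase univ _ (Finset.mem_univ e), if_neg he]
  have w2 : W p (insert e E) = p e * W' p e E := by
    unfold W W'
    rw [← Finset.mul_prod_erase univ _ (Finset.mem_univ e), if_pos (Finset.mem_insert_self e E)]
    congr 1
    refine Finset.prod_congr rfl (fun x hx => ?_)
    have hxe : x ≠ e := (Finset.mem_erase.mp hx).1
    simp [Finset.mem_insert, hxe]
  rw [w1, w2]; ring

theorem Ex_toggle (p : ε → ℝ) (e : ε) (f : Finset ε → ℝ) :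
    Ex p f = Ex p (fun E => (1 - p e) * f (E.erase e) + p e * f (insert e E)) := by
  rw [Ex_split p e f, Ex_split p e (fun E => (1 - p e) * f (E.erase e) + p e * f (insert e E))]
  refine Finset.sum_congr rfl (fun E hE => ?_)
  rw [Finset.mem_powerset] at hE
  have he : e ∉ E := fun h => Finset.notMem_erase e univ (hE h)
  simp only [Finset.erase_eq_of_notMem he, Finset.erase_insert he, Finset.insert_idem]
  ring

theorem Ex_avoid_one (p : ε → ℝ) (e : ε) (h : Finset ε → ℝ)
    (hh : ∀ E, h (E.erase e) = h (insert e E)) :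
    Ex p (fun E => if e ∈ E then 0 else h E) = (1 - p e) * Ex p h := by
  rw [Ex_toggle p e (fun E => if e ∈ E then 0 else h E), Ex_toggle p e h, ← Ex_mul_left]
  refine Ex_congr p (fun E => ?_)
  rw [if_neg (Finset.notMem_erase e E), if_pos (Finset.mem_insert_self e E), hh E]
  ring

end general

variable {I J : Type*} [Fintype I] [Fintype J] [DecidableEq I] [DecidableEq J]

/-- probability that row `i` avoids `S` -/
noncomputable def U (p : I × J → ℝ) (i : I) (S : Finset J) : ℝ := ∏ j ∈ S, (1 - p (i, j))

theorem dR_erase (i : I) (j : J) (E : Finset (I × J)) : dR i (E.erase (i, j)) = dR i E := by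
  ext e
  simp only [mem_dR, Finset.mem_erase]
  constructor
  · rintro ⟨⟨h1, h2⟩, h3⟩; exact ⟨h2, h3⟩
  · rintro ⟨h1, h2⟩
    refine ⟨⟨?_, h1⟩, h2⟩
    rintro rfl; exact h2 rfl

theorem dR_insert (i : I) (j : J) (E : Finset (I × J)) : dR i (insert (i, j) E) = dR i E := by
  ext e
  simp only [mem_dR, Finset.mem_insert]
  constructor
  · rintro ⟨h1 | h1, h2⟩
    · rw [h1] at h2; exact absurd rfl h2
    · exact ⟨h1, h2⟩
  · rintro ⟨h1, h2⟩
    exact ⟨Or.inr h1, h2⟩

theorem Ex_av_fixed (p : I × J → ℝ) (i : I) (T : Finset J) :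
    ∀ G : Finset (I × J) → ℝ, (∀ E, G (dR i E) = G E) →
    Ex p (fun E => G E * av i E T) = Ex p G * U p i T := by
  classical
  induction T using Finset.induction_on with
  | empty =>
    intro G _
    have h1 : ∀ E, av i E (∅ : Finset J) = 1 := fun E => av_one (by simp)
    unfold U
    simp [h1]
  | insert j T hj ih =>
    intro G hG
    have h1 : ∀ E, G E * av i E (insert j T) = if (i, j) ∈ E then 0 else G E * av i E T := by
      intro E
      split_ifs with h
      · rw [av_zero (Finset.mem_insert_self j T) h, mul_zero]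
      · congr 1
        unfold av
        congr 1
        apply propext
        constructor
        · intro h2 l hl; exact h2 l (Finset.mem_insert_of_mem hl)
        · intro h2 l hl
          rcases Finset.mem_insert.mp hl with rfl | hl
          · exact h
          · exact h2 l hl
    rw [Ex_congr p h1, Ex_avoid_one, ih G hG]
    · unfold U
      rw [Finset.prod_insert hj]; ring
    · intro E
      have h2 : G (E.erase (i, j)) = G (insert (i, j) E) := by
        rw [← hG (E.erase (i, j)), ← hG (insert (i, j) E), dR_erase, dR_insert]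
      have h3 : av i (E.erase (i, j)) T = av i (insert (i, j) E) T := by
        unfold av
        congr 1
        apply propext
        have hne : ∀ l ∈ T, (i, l) ≠ (i, j) := by
          intro l hl hh
          have : l = j := (Prod.mk.inj hh).2
          exact hj (this ▸ hl)
        constructor
        · intro h l hl hmem
          rcases Finset.mem_insert.mp hmem with h4 | h4
          · exact hne l hl h4
          · exact h l hl (Finset.mem_erase.mpr ⟨hne l hl, h4⟩)
        · intro h l hl hmem
          exact h l hl (Finset.mem_insert_of_mem (Finset.mem_erase.mp hmem).2)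
      rw [h2, h3]

theorem Ex_av (p : I × J → ℝ) (i : I) (G : Finset (I × J) → ℝ) (S : Finset (I × J) → Finset J)
    (hG : ∀ E, G (dR i E) = G E) (hS : ∀ E, S (dR i E) = S E) :
    Ex p (fun E => G E * av i E (S E)) = Ex p (fun E => G E * U p i (S E)) := by
  classical
  have h1 : ∀ E, G E * av i E (S E) = ∑ T : Finset J, (if S E = T then G E else 0) * av i E T := by
    intro E
    rw [Finset.sum_eq_single (S E)]
    · rw [if_pos rfl]
    · intro T _ hT
      rw [if_neg (fun h => hT h.symm), zero_mul]
    · intro h; exact absurd (Finset.mem_univ _) h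
  have h2 : ∀ E, G E * U p i (S E) = ∑ T : Finset J, U p i T * (if S E = T then G E else 0) := by
    intro E
    rw [Finset.sum_eq_single (S E)]
    · rw [if_pos rfl]; ring
    · intro T _ hT
      rw [if_neg (fun h => hT h.symm), mul_zero]
    · intro h; exact absurd (Finset.mem_univ _) h
  rw [Ex_congr p h1, Ex_congr p h2, Ex_sum, Ex_sum]
  refine Finset.sum_congr rfl (fun T _ => ?_)
  rw [Ex_av_fixed p i T (fun E => if S E = T then G E else 0), Ex_mul_left, mul_comm]
  intro E
  simp only [hG, hS]

end Pool.KS
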