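import Mathlib

/-! Elementary real inequalities. -/

namespace Pool.KS

open Real

theorem sinh_le_mul_cosh {s : ℝ} (hs : 0 ≤ s) : sinh s ≤ s * cosh s := by
  have hmono : MonotoneOn (fun x : ℝ => x * cosh x - sinh x) (Set.Ici 0) := by
    refine monotoneOn_of_deriv_nonneg (convex_Ici 0) ?_ ?_ ?_
    · fun_prop
    · fun_prop
    · intro x hx
      rw [interior_Ici] at hx
      have h : HasDerivAt (fun x : ℝ => x * cosh x - sinh x)
          (1 * cosh x + x * sinh x - cosh x) x :=
        ((hasDerivAt_id x).mul (hasDerivAt_cosh x)).sub (hasDerivAt_sinh x)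
      rw [h.deriv]
      have hx0 : (0 : ℝ) < x := hx
      have : 0 ≤ sinh x := sinh_nonneg_iff.mpr hx0.le
      have := mul_nonneg hx0.le this
      linarith
  have := hmono (Set.mem_Ici.mpr le_rfl) (Set.mem_Ici.mpr hs) hs
  simp at this
  linarith

theorem exp_sub_one_le {T : ℝ} (hT : 0 ≤ T) : exp T - 1 ≤ T * (exp T + 1) / 2 := by
  have h := sinh_le_mul_cosh (s := T / 2) (by linarith)
  rw [sinh_eq, cosh_eq] at h
  have h1 : exp T = exp (T / 2) * exp (T / 2) := by rw [← exp_add]; congr 1; ring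
  have h2 : exp (-(T / 2)) * exp (T / 2) = 1 := by rw [← exp_add]; simp
  have h3 := mul_le_mul_of_nonneg_right h (exp_pos (T / 2)).le
  have h4 : (exp (T / 2) - exp (-(T / 2))) / 2 * exp (T / 2) = (exp T - 1) / 2 := by
    rw [h1]; linear_combination (-1/2) * h2
  have h5 : T / 2 * ((exp (T / 2) + exp (-(T / 2))) / 2) * exp (T / 2) = T * (exp T + 1) / 4 := by
    rw [h1]; linear_combination (T / 4) * h2
  rw [h4, h5] at h3
  linarith

theorem sinh_ratio {M P : ℝ} (hM : 0 ≤ M) (h : M ≤ P) : P * sinh M ≤ M * sinh P := by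
  have hmono : MonotoneOn (fun x : ℝ => M * sinh x - x * sinh M) (Set.Ici M) := by
    refine monotoneOn_of_deriv_nonneg (convex_Ici M) ?_ ?_ ?_
    · fun_prop
    · fun_prop
    · intro x hx
      rw [interior_Ici] at hx
      have h : HasDerivAt (fun x : ℝ => M * sinh x - x * sinh M)
          (M * cosh x - 1 * sinh M) x :=
        ((hasDerivAt_sinh x).const_mul M).sub ((hasDerivAt_id x).mul_const (sinh M))
      rw [h.deriv]
      have hx0 : M < x := hx
      have h1 := sinh_le_mul_cosh hM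
      have h2 : cosh M ≤ cosh x := by
        rw [cosh_le_cosh, abs_of_nonneg hM, abs_of_nonneg (by linarith)]
        exact hx0.le
      have := mul_le_mul_of_nonneg_left h2 hM
      linarith
  have := hmono (Set.mem_Ici.mpr le_rfl) (Set.mem_Ici.mpr h) h
  simp at this
  linarith

theorem mul_sinh_ge {t : ℝ} : 2 * (cosh t - 1) ≤ t * sinh t := by
  wlog ht : 0 ≤ t with H
  · have := H (t := -t) (by linarith)
    rw [cosh_neg, sinh_neg] at this
    linarith
  have h := sinh_le_mul_cosh (s := t / 2) (by linarith)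
  have h0 : 0 ≤ sinh (t / 2) := sinh_nonneg_iff.mpr (by linarith)
  have e1 : cosh t = cosh (t / 2) ^ 2 + sinh (t / 2) ^ 2 := by
    rw [← cosh_two_mul]; congr 1; ring
  have e2 : sinh t = 2 * sinh (t / 2) * cosh (t / 2) := by
    rw [← sinh_two_mul]; congr 1; ring
  have e3 := cosh_sq (t / 2)
  rw [e1, e2]
  nlinarith [mul_le_mul_of_nonneg_left h h0]

/-- the function `t / (e^t - 1)`, extended by `1` at `0` -/
noncomputable def phi (t : ℝ) : ℝ := if t = 0 then 1 else t / (exp t - 1)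

theorem phi_zero : phi 0 = 1 := if_pos rfl

theorem phi_mul {t : ℝ} : phi t * (exp t - 1) = t := by
  unfold phi
  split_ifs with h
  · rw [h]; simp
  · have : exp t - 1 ≠ 0 := by
      intro h'
      apply h
      have : exp t = 1 := by linarith
      exact exp_eq_one_iff t |>.mp this
    field_simp

theorem phi_subadd {s t : ℝ} (hs : 0 ≤ s) (ht : 0 ≤ t) : phi s + phi t ≤ 1 + phi (s + t) := by
  rcases hs.eq_or_lt with rfl | hs
  · rw [phi_zero, zero_add]
  rcases ht.eq_or_lt with rfl | ht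
  · rw [phi_zero, add_zero]; linarith
  have hx : 1 < exp s := by simpa using exp_lt_exp.mpr hs
  have hy : 1 < exp t := by simpa using exp_lt_exp.mpr ht
  unfold phi
  rw [if_neg hs.ne', if_neg ht.ne', if_neg (by linarith), exp_add]
  set x := exp s with hxd
  set y := exp t with hyd
  have h1 : 2 * s * x ≤ x ^ 2 - 1 := by
    have := self_le_sinh_iff.mpr hs.le
    rw [sinh_eq, exp_neg, ← hxd] at this
    have hx0 : (0 : ℝ) < x := by linarith
    have h2 : s * x ≤ (x - x⁻¹) / 2 * x := mul_le_mul_of_nonneg_right this hx0.le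
    have h3 : (x - x⁻¹) / 2 * x = (x ^ 2 - 1) / 2 := by field_simp
    linarith
  have h2 : 2 * t * y ≤ y ^ 2 - 1 := by
    have := self_le_sinh_iff.mpr ht.le
    rw [sinh_eq, exp_neg, ← hyd] at this
    have hx0 : (0 : ℝ) < y := by linarith
    have h2 : t * y ≤ (y - y⁻¹) / 2 * y := mul_le_mul_of_nonneg_right this hx0.le
    have h3 : (y - y⁻¹) / 2 * y = (y ^ 2 - 1) / 2 := by field_simp
    linarith
  have hx1 : 0 < x - 1 := by linarith
  have hy1 : 0 < y - 1 := by linarith
  have hxy : 0 < x * y - 1 := by nlinarith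
  have key : s * x * (y - 1) ^ 2 + t * y * (x - 1) ^ 2 ≤ (x - 1) * (y - 1) * (x * y - 1) := by
    nlinarith [mul_le_mul_of_nonneg_right h1 (sq_nonneg (y - 1)),
      mul_le_mul_of_nonneg_right h2 (sq_nonneg (x - 1))]
  have e : 1 + (s + t) / (x * y - 1) - (s / (x - 1) + t / (y - 1)) =
      ((x - 1) * (y - 1) * (x * y - 1) - (s * x * (y - 1) ^ 2 + t * y * (x - 1) ^ 2)) /
        ((x - 1) * (y - 1) * (x * y - 1)) := by
    field_simp; ring
  have : 0 ≤ ((x - 1) * (y - 1) * (x * y - 1) - (s * x * (y - 1) ^ 2 + t * y * (x - 1) ^ 2)) /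
        ((x - 1) * (y - 1) * (x * y - 1)) := by
    apply div_nonneg
    · linarith
    · positivity
  linarith

theorem psi_convex {α β : ℝ} (hα : 0 < α) (hβ : 0 < β) :
    (α + β) / (1 - exp (-((α + β) / 2))) ≤ α / (1 - exp (-α)) + β / (1 - exp (-β)) := by
  wlog h : β ≤ α with H
  · have := H hβ hα (by linarith)
    rw [add_comm β α] at this
    linarith
  set x := exp (α / 2) with hx
  set y := exp (β / 2) with hy
  have hx1 : 1 < x := by simpa [hx] using exp_lt_exp.mpr (show 0 < α / 2 by linarith)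
  have hy1 : 1 < y := by simpa [hy] using exp_lt_exp.mpr (show 0 < β / 2 by linarith)
  have hyx : y ≤ x := exp_le_exp.mpr (by linarith)
  have e1 : exp (-α) = 1 / x ^ 2 := by
    rw [hx, ← exp_nat_mul, one_div, ← exp_neg]; congr 1; push_cast; ring
  have e2 : exp (-β) = 1 / y ^ 2 := by
    rw [hy, ← exp_nat_mul, one_div, ← exp_neg]; congr 1; push_cast; ring
  have e3 : exp (-((α + β) / 2)) = 1 / (x * y) := by
    rw [hx, hy, ← exp_add, one_div, ← exp_neg]; congr 1; ring
  have hr := sinh_ratio (M := β / 2) (P := α / 2) (by linarith) (by linarith)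
  rw [sinh_eq, sinh_eq, exp_neg, exp_neg, ← hx, ← hy] at hr
  have hx0 : 0 < x := by linarith
  have hy0 : 0 < y := by linarith
  have hr' : α * x * (y ^ 2 - 1) ≤ β * y * (x ^ 2 - 1) := by
    have h1 := mul_le_mul_of_nonneg_right hr (mul_pos hx0 hy0).le
    have h2 : α / 2 * ((y - y⁻¹) / 2) * (x * y) = α * x * (y ^ 2 - 1) / 4 := by
      field_simp
      ring
    have h3 : β / 2 * ((x - x⁻¹) / 2) * (x * y) = β * y * (x ^ 2 - 1) / 4 := by
      field_simp
      ring
    rw [h2, h3] at h1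
    linarith
  rw [e1, e2, e3]
  have hxs : 0 < x ^ 2 - 1 := by nlinarith
  have hys : 0 < y ^ 2 - 1 := by nlinarith
  have hxy : 0 < x * y - 1 := by nlinarith
  have d1 : α / (1 - 1 / x ^ 2) = α * x ^ 2 / (x ^ 2 - 1) := by
    have : (1 : ℝ) - 1 / x ^ 2 ≠ 0 := by
      have : 1 - 1 / x ^ 2 = (x ^ 2 - 1) / x ^ 2 := by field_simp
      rw [this]; positivity
    field_simp
  have d2 : β / (1 - 1 / y ^ 2) = β * y ^ 2 / (y ^ 2 - 1) := by
    have : (1 : ℝ) - 1 / y ^ 2 ≠ 0 := by
      have : 1 - 1 / y ^ 2 = (y ^ 2 - 1) / y ^ 2 := by field_simp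
      rw [this]; positivity
    field_simp
  have d3 : (α + β) / (1 - 1 / (x * y)) = (α + β) * (x * y) / (x * y - 1) := by
    have : (1 : ℝ) - 1 / (x * y) ≠ 0 := by
      have : 1 - 1 / (x * y) = (x * y - 1) / (x * y) := by field_simp
      rw [this]; positivity
    field_simp
  rw [d1, d2, d3]
  have e : α * x ^ 2 / (x ^ 2 - 1) + β * y ^ 2 / (y ^ 2 - 1) - (α + β) * (x * y) / (x * y - 1) =
      (x - y) * (β * y * (x ^ 2 - 1) - α * x * (y ^ 2 - 1)) /
        ((x ^ 2 - 1) * (y ^ 2 - 1) * (x * y - 1)) := by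
    field_simp; ring
  have : 0 ≤ (x - y) * (β * y * (x ^ 2 - 1) - α * x * (y ^ 2 - 1)) /
        ((x ^ 2 - 1) * (y ^ 2 - 1) * (x * y - 1)) := by
    apply div_nonneg
    · apply mul_nonneg <;> linarith
    · positivity
  linarith

/-- partial sums of the logarithm series -/
theorem neg_log_ge (N : ℕ) {a : ℝ} (h0 : 0 ≤ a) (h1 : a < 1) :
    ∑ k ∈ Finset.range N, a ^ (k + 1) / ((k : ℝ) + 1) ≤ - log (1 - a) := by
  have h := hasSum_pow_div_log_of_abs_lt_one (x := a) (by rw [abs_of_nonneg h0]; exact h1)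
  exact sum_le_hasSum _ (fun k _ => by positivity) h

end Pool.KS
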