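import Pool.Agent.KS.Scal1

/-! The constant `l` with `exp (-l) = l` and the function `f`. -/

namespace Pool.KS

open Real

theorem lam_lo {l : ℝ} (hl : exp (-l) = l) : 567143 / 1000000 < l := by
  by_contra hcon
  push Not at hcon
  have h1 : exp (-(567143 / 1000000)) ≤ exp (-l) := exp_le_exp.mpr (by linarith)
  have h2 : (567143 / 1000000 : ℝ) < exp (-(567143 / 1000000)) := by
    have h := Real.exp_bound (x := -(567143 / 1000000)) (by rw [abs_neg, abs_of_nonneg] <;> norm_num)
      (n := 10) (by norm_num)
    rw [abs_le] at h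
    have h3 := h.1
    norm_num [Finset.sum_range_succ, Nat.factorial] at h3
    norm_num
    linarith
  linarith

theorem lam_hi {l : ℝ} (hl : exp (-l) = l) : l < 567144 / 1000000 := by
  by_contra hcon
  push Not at hcon
  have h1 : exp (-l) ≤ exp (-(567144 / 1000000)) := exp_le_exp.mpr (by linarith)
  have h2 : exp (-(567144 / 1000000)) < (567144 / 1000000 : ℝ) := by
    have h := Real.exp_bound (x := -(567144 / 1000000)) (by rw [abs_neg, abs_of_nonneg] <;> norm_num)
      (n := 10) (by norm_num)
    rw [abs_le] at h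
    have h3 := h.2
    norm_num [Finset.sum_range_succ, Nat.factorial] at h3
    norm_num
    linarith
  linarith

theorem log_lam {l : ℝ} (hl : exp (-l) = l) : log l = -l := by
  conv_lhs => rw [← hl]
  exact log_exp _

/-- the convex function vanishing to second order at `l` -/
noncomputable def ff (l u : ℝ) : ℝ := u * log u - (1 - l) * u + l

/-- cubic lower bound for `(1+y) log (1+y)` -/
theorem T3 {y : ℝ} (hy : -1 < y) : y + y ^ 2 / 2 - y ^ 3 / 6 ≤ (1 + y) * log (1 + y) := by
  have hd : ∀ x : ℝ, -1 < x → HasDerivAt (fun x : ℝ => (1 + x) * log (1 + x) - (x + x ^ 2 / 2 - x ^ 3 / 6))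
      (log (1 + x) - (x - x ^ 2 / 2)) x := by
    intro x hx
    have h1 : HasDerivAt (fun x : ℝ => 1 + x) 1 x := by
      simpa using (hasDerivAt_id x).const_add 1
    have h2 := h1.fun_mul (h1.log (by linarith))
    have a2 := (hasDerivAt_pow 2 x).div_const 2
    have a3 := (hasDerivAt_pow 3 x).div_const 6
    refine (h2.fun_sub (((hasDerivAt_id' x).fun_add a2).fun_sub a3)).congr_deriv ?_
    have : (1 + x) ≠ 0 := by linarith
    field_simp
    push_cast
    ring
  have hlog : ∀ x : ℝ, -1 < x → HasDerivAt (fun x : ℝ => log (1 + x) - (x - x ^ 2 / 2))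
      (x ^ 2 / (1 + x)) x := by
    intro x hx
    have h1 : HasDerivAt (fun x : ℝ => 1 + x) 1 x := by
      simpa using (hasDerivAt_id x).const_add 1
    have h2 := h1.log (by linarith)
    have a2 := (hasDerivAt_pow 2 x).div_const 2
    refine (h2.fun_sub ((hasDerivAt_id' x).fun_sub a2)).congr_deriv ?_
    have : (1 + x) ≠ 0 := by linarith
    field_simp
    push_cast
    ring
  have hmono : MonotoneOn (fun x : ℝ => log (1 + x) - (x - x ^ 2 / 2)) (Set.Ioi (-1)) := by
    refine monotoneOn_of_deriv_nonneg (convex_Ioi _) ?_ ?_ ?_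
    · exact fun x hx => (hlog x hx).continuousAt.continuousWithinAt
    · rw [interior_Ioi]; exact fun x hx => (hlog x hx).differentiableAt.differentiableWithinAt
    · intro x hx
      rw [interior_Ioi] at hx
      rw [(hlog x hx).deriv]
      have : (-1 : ℝ) < x := hx
      exact div_nonneg (sq_nonneg x) (by linarith)
  rcases le_total 0 y with h0 | h0
  · have hm : MonotoneOn (fun x : ℝ => (1 + x) * log (1 + x) - (x + x ^ 2 / 2 - x ^ 3 / 6))
        (Set.Ici 0) := by
      refine monotoneOn_of_deriv_nonneg (convex_Ici _) ?_ ?_ ?_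
      · intro x hx
        have : (0 : ℝ) ≤ x := hx
        exact (hd x (by linarith)).continuousAt.continuousWithinAt
      · rw [interior_Ici]
        intro x hx
        have : (0 : ℝ) < x := hx
        exact (hd x (by linarith)).differentiableAt.differentiableWithinAt
      · intro x hx
        rw [interior_Ici] at hx
        have hx0 : (0 : ℝ) < x := hx
        rw [(hd x (by linarith)).deriv]
        have := hmono (show (0:ℝ) ∈ Set.Ioi (-1) by simp) (show x ∈ Set.Ioi (-1) by
          simp only [Set.mem_Ioi]; linarith) hx0.le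
        simp at this
        linarith
    have := hm (Set.mem_Ici.mpr le_rfl) (Set.mem_Ici.mpr h0) h0
    simp at this
    linarith
  · have hm : AntitoneOn (fun x : ℝ => (1 + x) * log (1 + x) - (x + x ^ 2 / 2 - x ^ 3 / 6))
        (Set.Ioc (-1) 0) := by
      refine antitoneOn_of_deriv_nonpos (convex_Ioc _ _) ?_ ?_ ?_
      · intro x hx
        exact (hd x hx.1).continuousAt.continuousWithinAt
      · rw [interior_Ioc]
        intro x hx
        exact (hd x hx.1).differentiableAt.differentiableWithinAt
      · intro x hx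
        rw [interior_Ioc] at hx
        rw [(hd x hx.1).deriv]
        have := hmono (show x ∈ Set.Ioi (-1) from hx.1) (show (0:ℝ) ∈ Set.Ioi (-1) by simp) hx.2.le
        simp at this
        linarith
    have := hm (show y ∈ Set.Ioc (-1) 0 from ⟨hy, h0⟩) (show (0:ℝ) ∈ Set.Ioc (-1) 0 by simp) h0
    simp at this
    linarith

/-- quartic lower bound for `(1-y) log (1-y)`, `0 ≤ y < 1` -/
theorem T4 {y : ℝ} (h0 : 0 ≤ y) (h1 : y < 1) :
    -y + y ^ 2 / 2 + y ^ 3 / 6 + y ^ 4 / 12 ≤ (1 - y) * log (1 - y) := by
  have hd : ∀ x : ℝ, x < 1 → HasDerivAt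
      (fun x : ℝ => (1 - x) * log (1 - x) - (-x + x ^ 2 / 2 + x ^ 3 / 6 + x ^ 4 / 12))
      (- log (1 - x) - (x + x ^ 2 / 2 + x ^ 3 / 3)) x := by
    intro x hx
    have h1 : HasDerivAt (fun x : ℝ => 1 - x) (-1) x := by
      simpa using (hasDerivAt_id x).const_sub 1
    have h2 := h1.fun_mul (h1.log (by linarith))
    have a1 := (hasDerivAt_id' x).fun_neg
    have a2 := (hasDerivAt_pow 2 x).div_const 2
    have a3 := (hasDerivAt_pow 3 x).div_const 6
    have a4 := (hasDerivAt_pow 4 x).div_const 12
    refine (h2.fun_sub (((a1.fun_add a2).fun_add a3).fun_add a4)).congr_deriv ?_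
    have : (1 - x) ≠ 0 := by linarith
    field_simp
    push_cast
    ring
  have hm : MonotoneOn
      (fun x : ℝ => (1 - x) * log (1 - x) - (-x + x ^ 2 / 2 + x ^ 3 / 6 + x ^ 4 / 12))
      (Set.Ico 0 1) := by
    refine monotoneOn_of_deriv_nonneg (convex_Ico _ _) ?_ ?_ ?_
    · intro x hx
      exact (hd x hx.2).continuousAt.continuousWithinAt
    · rw [interior_Ico]
      intro x hx
      exact (hd x hx.2).differentiableAt.differentiableWithinAt
    · intro x hx
      rw [interior_Ico] at hx
      rw [(hd x hx.2).deriv]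
      have := neg_log_ge 3 hx.1.le hx.2
      norm_num [Finset.sum_range_succ] at this
      linarith
  have := hm (show (0:ℝ) ∈ Set.Ico 0 1 by simp) (show y ∈ Set.Ico 0 1 from ⟨h0, h1⟩) h0
  simp at this
  linarith

end Pool.KS
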