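import Pool.Agent.KS.Scal2

/-! The symmetric pair inequality. -/

namespace Pool.KS

open Real

theorem pe_poly_pos {y z : ℝ} (hy0 : 0 ≤ y) (hy1 : y ≤ 743 / 1000) (hz0 : 0 ≤ z) :
    0 ≤ 432856 / 1000000 * (y ^ 2 / 2 + y ^ 3 / 6 + y ^ 4 / 12) - 283572 / 1000000 * y ^ 2
      + 3807 / 100000 * y
      + (-(567144 / 1000000) * (y ^ 2 / 2 + y ^ 3 / 6 + y ^ 4 / 12) + 3807 / 100000 * (1 + y)) * z
      + 3216 / 10000 * z ^ 2 := by
  rcases le_total y (2 / 5) with h | h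
  · have hA : 0 ≤ 432856 / 1000000 * (y ^ 2 / 2 + y ^ 3 / 6 + y ^ 4 / 12)
        - 283572 / 1000000 * y ^ 2 + 3807 / 100000 * y := by
      have h1 : 0 ≤ 432856 / 1000000 * (y / 2 + y ^ 2 / 6 + y ^ 3 / 12)
        - 283572 / 1000000 * y + 3807 / 100000 := by
        nlinarith [sq_nonneg (y - 4 / 10), pow_nonneg hy0 3]
      nlinarith [mul_nonneg hy0 h1]
    have hB : 0 ≤ -(567144 / 1000000) * (y ^ 2 / 2 + y ^ 3 / 6 + y ^ 4 / 12)
        + 3807 / 100000 * (1 + y) := by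
      have h2 : 0 ≤ 2 / 5 - y := by linarith
      nlinarith [mul_nonneg (pow_nonneg hy0 0) (pow_nonneg h2 4),
        mul_nonneg (pow_nonneg hy0 1) (pow_nonneg h2 3),
        mul_nonneg (pow_nonneg hy0 2) (pow_nonneg h2 2),
        mul_nonneg (pow_nonneg hy0 3) (pow_nonneg h2 1),
        mul_nonneg (pow_nonneg hy0 4) (pow_nonneg h2 0)]
    have := mul_nonneg hB hz0
    nlinarith [sq_nonneg z]
  · set A := 432856 / 1000000 * (y ^ 2 / 2 + y ^ 3 / 6 + y ^ 4 / 12)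
        - 283572 / 1000000 * y ^ 2 + 3807 / 100000 * y with hA
    set B := -(567144 / 1000000) * (y ^ 2 / 2 + y ^ 3 / 6 + y ^ 4 / 12)
        + 3807 / 100000 * (1 + y) with hB
    have h1 : 0 ≤ y - 2 / 5 := by linarith
    have h2 : 0 ≤ 743 / 1000 - y := by linarith
    have hA1 : 98 / 10000 + 28 / 1000 * (y - 2 / 5) ≤ A := by
      rw [hA]
      linarith [mul_nonneg (pow_nonneg h1 0) (pow_nonneg h2 4),
        mul_nonneg (pow_nonneg h1 1) (pow_nonneg h2 3),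
        mul_nonneg (pow_nonneg h1 2) (pow_nonneg h2 2),
        mul_nonneg (pow_nonneg h1 3) (pow_nonneg h2 1),
        mul_nonneg (pow_nonneg h1 4) (pow_nonneg h2 0)]
    have hB1 : -(42 / 100) * (y - 2 / 5) ≤ B := by
      rw [hB]
      linarith [mul_nonneg (pow_nonneg h1 0) (pow_nonneg h2 4),
        mul_nonneg (pow_nonneg h1 1) (pow_nonneg h2 3),
        mul_nonneg (pow_nonneg h1 2) (pow_nonneg h2 2),
        mul_nonneg (pow_nonneg h1 3) (pow_nonneg h2 1),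
        mul_nonneg (pow_nonneg h1 4) (pow_nonneg h2 0)]
    have h3 : -(42 / 100) * (y - 2 / 5) * z ≤ B * z := mul_le_mul_of_nonneg_right hB1 hz0
    nlinarith [sq_nonneg (z - 65 / 100 * (y - 2 / 5)), mul_nonneg h1 h2, sq_nonneg (y - 2/5)]

theorem pe_poly_neg {w s : ℝ} (hw : 0 ≤ w) (hs : 0 ≤ s) (h : w + s ≤ 743 / 1000) :
    0 ≤ (432856 / 1000000 + 567143 / 1000000 * w) * ((w + s) ^ 2 / 2 + (w + s) ^ 3 / 6)
      - 283572 / 1000000 * (w + s) ^ 2 + 3807 / 100000 * (1 - w) * s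
      + 567143 / 1000000 * (w ^ 2 / 2 - w ^ 3 / 3 - w ^ 4 / 6) := by
  have h1 : 0 ≤ 3807 / 100000 - 173 / 1000 * w - 672 / 10000 * s + 78 / 100 * w ^ 2
      + 72 / 1000 * s ^ 2 := by
    nlinarith [sq_nonneg (w - 11 / 100), sq_nonneg (s - 466 / 1000)]
  nlinarith [mul_nonneg hs h1, mul_nonneg hw hs, pow_nonneg hw 2, pow_nonneg hw 3,
    mul_nonneg (pow_nonneg hw 2) hs, mul_nonneg hw (pow_nonneg hs 2), pow_nonneg hs 3,
    mul_nonneg (pow_nonneg hw 3) hs, mul_nonneg (pow_nonneg hw 2) (pow_nonneg hs 2),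
    mul_nonneg hw (pow_nonneg hs 3), pow_nonneg hw 4]

/-- The symmetric pair inequality. -/
theorem pe_star {l u v : ℝ} (hl : exp (-l) = l) (hu : 146 / 1000 ≤ u) (hul : u ≤ l)
    (huv : u ≤ v) (hv : v ≤ 1) :
    0 ≤ (1 - v) * ff l u + v * ff l v + (2 * l - 1) / 2 * v * (v - u) - (l - u) ^ 2 / 2 := by
  have hlo := lam_lo hl
  have hhi := lam_hi hl
  have hlog := log_lam hl
  have hl0 : 0 < l := by linarith
  have hu0 : 0 < u := by linarith
  have hv0 : 0 < v := by linarith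
  obtain ⟨y, hy⟩ : ∃ y, u = l * (1 - y) := ⟨1 - u / l, by field_simp; ring⟩
  obtain ⟨z, hz⟩ : ∃ z, v = l * (1 + z) := ⟨v / l - 1, by field_simp; ring⟩
  have hy0 : 0 ≤ y := by
    by_contra hneg
    push Not at hneg
    nlinarith
  have hy1 : y ≤ 743 / 1000 := by
    by_contra hneg
    push Not at hneg
    nlinarith
  have hzy : -y ≤ z := by
    by_contra hneg
    push Not at hneg
    nlinarith
  have hz1 : z ≤ 764 / 1000 := by
    by_contra hneg
    push Not at hneg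
    nlinarith
  have hfu : ff l u = l * ((1 - y) * log (1 - y) + y) := by
    unfold ff
    rw [hy, log_mul hl0.ne' (by linarith : (1 - y) ≠ 0), hlog]; ring
  have hfv : ff l v = l * ((1 + z) * log (1 + z) - z) := by
    unfold ff
    rw [hz, log_mul hl0.ne' (by linarith : (1 + z) ≠ 0), hlog]; ring
  have hT4 := T4 hy0 (by linarith)
  have hT3 := T3 (y := z) (by linarith)
  have hfu1 : l * (y ^ 2 / 2 + y ^ 3 / 6 + y ^ 4 / 12) ≤ ff l u := by
    rw [hfu]; exact mul_le_mul_of_nonneg_left (by linarith) hl0.le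
  have hfv1 : l * (z ^ 2 / 2 - z ^ 3 / 6) ≤ ff l v := by
    rw [hfv]; exact mul_le_mul_of_nonneg_left (by linarith) hl0.le
  have h1v : 0 ≤ 1 - v := by linarith
  have g1 := mul_le_mul_of_nonneg_left hfu1 h1v
  have g2 := mul_le_mul_of_nonneg_left hfv1 hv0.le
  -- it suffices to treat the polynomial
  suffices hp : 0 ≤ (1 - l * (1 + z)) * (y ^ 2 / 2 + y ^ 3 / 6 + y ^ 4 / 12)
      + l * (1 + z) * (z ^ 2 / 2 - z ^ 3 / 6)
      + (2 * l - 1) / 2 * l * (1 + z) * (z + y) - l * y ^ 2 / 2 by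
    have := mul_nonneg hl0.le hp
    have e : (1 - v) * (l * (y ^ 2 / 2 + y ^ 3 / 6 + y ^ 4 / 12)) +
        v * (l * (z ^ 2 / 2 - z ^ 3 / 6)) + (2 * l - 1) / 2 * v * (v - u) - (l - u) ^ 2 / 2 =
        l * ((1 - l * (1 + z)) * (y ^ 2 / 2 + y ^ 3 / 6 + y ^ 4 / 12)
      + l * (1 + z) * (z ^ 2 / 2 - z ^ 3 / 6)
      + (2 * l - 1) / 2 * l * (1 + z) * (z + y) - l * y ^ 2 / 2) := by
      rw [hy, hz]; ring
    linarith
  have hk : 3807 / 100000 ≤ (2 * l - 1) / 2 * l := by nlinarith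
  set S := y ^ 2 / 2 + y ^ 3 / 6 + y ^ 4 / 12 with hS
  have hS0 : 0 ≤ S := by rw [hS]; positivity
  rcases le_total 0 z with hz0 | hz0
  · have hp := pe_poly_pos hy0 hy1 hz0
    rw [← hS] at hp
    have a1 : 0 ≤ (1 - l - 432856 / 1000000) * S := mul_nonneg (by linarith) hS0
    have a2 : 0 ≤ (567144 / 1000000 - l) * (S * z) :=
      mul_nonneg (by linarith) (mul_nonneg hS0 hz0)
    have a3 : 0 ≤ (567144 / 1000000 - l) * (y ^ 2 / 2) := mul_nonneg (by linarith) (by positivity)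
    have a4 : 0 ≤ ((2 * l - 1) / 2 * l - 3807 / 100000) * ((1 + z) * (z + y)) :=
      mul_nonneg (by linarith) (mul_nonneg (by linarith) (by linarith))
    have a5 : 0 ≤ l * (z ^ 3 / 3 - z ^ 4 / 6) := by
      have : z ^ 3 / 3 - z ^ 4 / 6 = z ^ 3 * (2 - z) / 6 := by ring
      rw [this]
      have := pow_nonneg hz0 3
      have h2z : 0 ≤ 2 - z := by linarith
      positivity
    have a6 : 0 ≤ (l - 567143 / 1000000) * (z ^ 2 / 2) := mul_nonneg (by linarith) (by positivity)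
    nlinarith [sq_nonneg z]
  · obtain ⟨w, hw⟩ : ∃ w, z = -w := ⟨-z, by ring⟩
    obtain ⟨s, hs⟩ : ∃ s, y = w + s := ⟨y - w, by ring⟩
    have hw0 : 0 ≤ w := by linarith
    have hs0 : 0 ≤ s := by linarith
    clear g1 g2 hfu1 hfv1 hT3 hT4 hfu hfv hlog
    have hws : w + s ≤ 743 / 1000 := by rw [← hs]; exact hy1
    have a1 : 0 ≤ (1 - l - 432856 / 1000000) * S := mul_nonneg (by linarith) hS0
    have a2 : 0 ≤ (l - 567143 / 1000000) * (S * w) :=
      mul_nonneg (by linarith) (mul_nonneg hS0 hw0)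
    have a3 : 0 ≤ (567144 / 1000000 - l) * (y ^ 2 / 2) := mul_nonneg (by linarith) (by positivity)
    have a4 : 0 ≤ ((2 * l - 1) / 2 * l - 3807 / 100000) * ((1 + z) * (z + y)) :=
      mul_nonneg (sub_nonneg.mpr hk) (mul_nonneg (by linarith) (by linarith))
    have a5 : 0 ≤ (l - 567143 / 1000000) * (w ^ 2 / 2 - w ^ 3 / 3 - w ^ 4 / 6) := by
      refine mul_nonneg (by linarith) ?_
      have : w ^ 2 / 2 - w ^ 3 / 3 - w ^ 4 / 6 = w ^ 2 * (3 - 2 * w - w ^ 2) / 6 := by ring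
      rw [this]
      have hww := mul_le_mul_of_nonneg_left (show w ≤ 1 by linarith) hw0
      have : 0 ≤ 3 - 2 * w - w ^ 2 := by linarith
      positivity
    have a6 : 0 ≤ (432856 / 1000000 + 567143 / 1000000 * w) * ((w + s) ^ 4 / 12) := by positivity
    have hp := pe_poly_neg hw0 hs0 hws
    have hSS : S = (w + s) ^ 2 / 2 + (w + s) ^ 3 / 6 + (w + s) ^ 4 / 12 := by rw [hS, hs]
    rw [hSS] at a1 a2
    rw [hSS]
    rw [hw, hs] at a4
    rw [hs] at a3
    rw [hw, hs]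
    clear hSS hS0 hS hk hzy hz1 hy0 hy1 hu0 hv0 h1v hul huv hv hu
    set_option maxHeartbeats 1000000 in
    linarith

end Pool.KS
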