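import Pool.Agent.KS.Scal3

/-! The pair inequality. -/

namespace Pool.KS

open Real

theorem ff_nonneg {l u : ℝ} (hl : exp (-l) = l) (hu : 0 < u) : 0 ≤ ff l u := by
  have hlo := lam_lo hl
  have hl0 : 0 < l := by linarith
  have h1 : 1 - l / u ≤ log (u / l) := by
    have := one_sub_inv_le_log_of_pos (show 0 < u / l by positivity)
    rw [inv_div] at this
    exact this
  rw [log_div hu.ne' hl0.ne', log_lam hl] at h1
  have h2 := mul_le_mul_of_nonneg_left h1 hu.le
  have h3 : u * (1 - l / u) = u - l := by field_simp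
  rw [h3] at h2
  unfold ff
  nlinarith

theorem ff_mono {l x y : ℝ} (hl : exp (-l) = l) (hx : l ≤ x) (hxy : x ≤ y) : ff l x ≤ ff l y := by
  have hlo := lam_lo hl
  have hl0 : 0 < l := by linarith
  have hx0 : 0 < x := by linarith
  have hy0 : 0 < y := by linarith
  -- y log y - x log x ≥ (y - x)(1 + log x)
  have h1 : 1 - x / y ≤ log (y / x) := by
    have := one_sub_inv_le_log_of_pos (show 0 < y / x by positivity)
    rw [inv_div] at this
    exact this
  rw [log_div hy0.ne' hx0.ne'] at h1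
  have h2 := mul_le_mul_of_nonneg_left h1 hy0.le
  have h3 : y * (1 - x / y) = y - x := by field_simp
  rw [h3] at h2
  have h4 : -l ≤ log x := by
    rw [← log_lam hl]; exact log_le_log hl0 hx
  unfold ff
  nlinarith [mul_le_mul_of_nonneg_left h4 (sub_nonneg.mpr hxy)]

theorem ff_quad {l u : ℝ} (hl : exp (-l) = l) (hu : l ≤ u) (hu1 : u ≤ 1) :
    (u - l) ^ 2 / 2 ≤ ff l u := by
  have hlo := lam_lo hl
  have hhi := lam_hi hl
  have hl0 : 0 < l := by linarith
  obtain ⟨z, hz⟩ : ∃ z, u = l * (1 + z) := ⟨u / l - 1, by field_simp; ring⟩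
  have hz0 : 0 ≤ z := by
    by_contra h
    push Not at h
    nlinarith
  have hz1 : z ≤ 1 := by
    by_contra h
    push Not at h
    nlinarith
  have hT3 := T3 (y := z) (by linarith)
  have hfu : ff l u = l * ((1 + z) * log (1 + z) - z) := by
    unfold ff
    rw [hz, log_mul hl0.ne' (by linarith : (1 + z) ≠ 0), log_lam hl]; ring
  rw [hfu, hz]
  have h1 : l * (z ^ 2 / 2 - z ^ 3 / 6) ≤ l * ((1 + z) * log (1 + z) - z) :=
    mul_le_mul_of_nonneg_left (by linarith) hl0.le
  refine le_trans ?_ h1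
  have h2 : 0 ≤ l * z ^ 2 * (1 / 2 - z / 6 - l / 2) := by
    have : 0 ≤ 1 / 2 - z / 6 - l / 2 := by linarith
    positivity
  nlinarith

theorem sum_exp_sub_one_le {K : Type*} (s : Finset K) (α : K → ℝ) (h : ∀ k, 0 ≤ α k) :
    ∑ k ∈ s, (exp (α k) - 1) ≤ exp (∑ k ∈ s, α k) - 1 := by
  classical
  induction s using Finset.induction_on with
  | empty => simp
  | insert k s hk ih =>
    rw [Finset.sum_insert hk, Finset.sum_insert hk, exp_add]
    have h1 : 1 ≤ exp (α k) := one_le_exp (h k)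
    have h2 : 1 ≤ exp (∑ k ∈ s, α k) := one_le_exp (Finset.sum_nonneg (fun k _ => h k))
    nlinarith [mul_nonneg (sub_nonneg.mpr h1) (sub_nonneg.mpr h2)]

/-- `f(u)+f(w)-(l-u)(l-w)` is at least its value at the geometric mean -/
theorem sym_le {l a b : ℝ} (hl : exp (-l) = l) (hab : (a + b) / 2 ≤ 2) :
    2 * ff l (exp (-((a + b) / 2))) - (l - exp (-((a + b) / 2))) ^ 2 ≤
      ff l (exp (-a)) + ff l (exp (-b)) - (l - exp (-a)) * (l - exp (-b)) := by
  have hlo := lam_lo hl
  set Z := (a + b) / 2 with hZ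
  obtain ⟨τ, hτ⟩ : ∃ τ, a = Z + τ := ⟨a - Z, by ring⟩
  have hb : b = Z - τ := by rw [hτ] at hZ; linarith
  have ha' : exp (-a) = exp (-Z) * exp (-τ) := by rw [← exp_add, hτ]; congr 1; ring
  have hb' : exp (-b) = exp (-Z) * exp τ := by rw [← exp_add, hb]; congr 1; ring
  have hprod : exp (-τ) * exp τ = 1 := by rw [← exp_add]; simp
  have hm := mul_sinh_ge (t := τ)
  have hc : 1 ≤ cosh τ := one_le_cosh τ
  rw [sinh_eq] at hm
  rw [cosh_eq] at hm hc
  unfold ff
  rw [log_exp, log_exp, log_exp, ha', hb', hτ, hb]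
  set e := exp (-Z) with he
  have he0 : 0 < e := exp_pos _
  set P := exp τ
  set Q := exp (-τ)
  have hkey : 0 ≤ e * (τ * (P - Q) + (2 * l - 1 - Z) * (P + Q - 2)) := by
    apply mul_nonneg he0.le
    have h1 : P + Q - 2 ≤ τ * (P - Q) / 2 := by linarith
    have h2 : 0 ≤ P + Q - 2 := by linarith
    have h3 : 0 ≤ (2 + (2 * l - 1 - Z)) * (P + Q - 2) := mul_nonneg (by linarith) h2
    nlinarith
  have e1 : e * Q * -(Z + τ) - (1 - l) * (e * Q) + l +
      (e * P * -(Z - τ) - (1 - l) * (e * P) + l) - (l - e * Q) * (l - e * P) -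
      (2 * (e * -Z - (1 - l) * e + l) - (l - e) ^ 2) =
      e * (τ * (P - Q) + (2 * l - 1 - Z) * (P + Q - 2)) + e ^ 2 * (1 - Q * P) := by ring
  rw [hprod] at e1
  linarith

theorem class_bound {l a b α β : ℝ} (hl : exp (-l) = l)
    (hα : 0 ≤ α) (hβ : 0 ≤ β) (hαa : α ≤ a) (hβb : β ≤ b)
    (ha : a ≤ 192 / 100) (hb : b ≤ 192 / 100) (hal : exp (-a) ≤ l) (hbl : exp (-b) ≤ l) :
    exp (-b) * (exp β - 1) * (ff l (exp (-a)) - ff l (exp (-a) + exp (-a) * (exp α - 1))) +
      exp (-a) * (exp α - 1) * (ff l (exp (-b)) - ff l (exp (-b) + exp (-b) * (exp β - 1))) -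
      (2 * l - 1) * (exp (-a) * (exp α - 1) * (exp (-b) * (exp β - 1))) ≤
    ((1 - exp (-α)) + (1 - exp (-β))) / 2 *
      (ff l (exp (-a)) + ff l (exp (-b)) - (l - exp (-a)) * (l - exp (-b))) := by
  have hlo := lam_lo hl
  have hhi := lam_hi hl
  set Z := (a + b) / 2 with hZ
  set z := (α + β) / 2 with hz
  have hZl : exp (-Z) ≤ l := by
    rw [← hl]
    apply exp_le_exp.mpr
    have h1 : l ≤ a := by rw [← hl] at hal; have := exp_le_exp.mp hal; linarith
    have h2 : l ≤ b := by rw [← hl] at hbl; have := exp_le_exp.mp hbl; linarith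
    linarith
  have hZ0 : 146 / 1000 ≤ exp (-Z) := by
    have h1 : exp (-(192 / 100)) ≤ exp (-Z) := exp_le_exp.mpr (by linarith)
    have h2 : (146 / 1000 : ℝ) ≤ exp (-(192 / 100)) := by
      have h3 : exp (-(192 / 100)) = exp (-(48 / 100)) ^ 4 := by
        rw [← exp_nat_mul]; congr 1; norm_num
      have h4 := Real.exp_bound (x := -(48 / 100))
        (by rw [abs_neg, abs_of_nonneg] <;> norm_num) (n := 8) (by norm_num)
      rw [abs_le] at h4
      have h5 := h4.1
      norm_num [Finset.sum_range_succ, Nat.factorial] at h5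
      have h6 : (6187 / 10000 : ℝ) ≤ exp (-(48 / 100)) := by
        norm_num
        linarith
      rw [h3]
      calc (146 / 1000 : ℝ) ≤ (6187 / 10000) ^ 4 := by norm_num
        _ ≤ _ := pow_le_pow_left₀ (by norm_num) h6 4
    linarith
  have hS := sym_le (a := a) (b := b) hl (by linarith)
  rw [← hZ] at hS
  set S := ff l (exp (-a)) + ff l (exp (-b)) - (l - exp (-a)) * (l - exp (-b)) with hSd
  have hS0 : 0 ≤ S := by
    have h1 := pe_star hl hZ0 hZl le_rfl (by linarith)
    have h2 : 0 ≤ 2 * ff l (exp (-Z)) - (l - exp (-Z)) ^ 2 := by linarith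
    linarith
  have hqa : 0 ≤ 1 - exp (-α) := by
    have : exp (-α) ≤ 1 := exp_le_one_iff.mpr (by linarith)
    linarith
  have hqb : 0 ≤ 1 - exp (-β) := by
    have : exp (-β) ≤ 1 := exp_le_one_iff.mpr (by linarith)
    linarith
  have hR0 : 0 ≤ ((1 - exp (-α)) + (1 - exp (-β))) / 2 * S :=
    mul_nonneg (by linarith) hS0
  rcases hα.eq_or_lt with h0 | hα0
  · rw [← h0]
    simp only [exp_zero, sub_self, mul_zero, zero_mul, add_zero, neg_zero]
    rw [← h0] at hR0
    simpa using hR0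
  rcases hβ.eq_or_lt with h0 | hβ0
  · rw [← h0]
    simp only [exp_zero, sub_self, mul_zero, zero_mul, add_zero, neg_zero]
    rw [← h0] at hR0
    simpa using hR0
  have hz0 : 0 < z := by rw [hz]; linarith
  set q := 1 - exp (-α) with hq
  set q' := 1 - exp (-β) with hq'
  set Qz := 1 - exp (-z) with hQz
  have hQz0 : 0 < Qz := by
    have : exp (-z) < 1 := by rw [exp_lt_one_iff]; linarith
    linarith
  have hq0 : 0 < q := by
    have : exp (-α) < 1 := by rw [exp_lt_one_iff]; linarith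
    linarith
  have hq0' : 0 < q' := by
    have : exp (-β) < 1 := by rw [exp_lt_one_iff]; linarith
    linarith
  -- q q' ≤ Qz^2 and q q' ≤ ((q+q')/2)^2
  have hqq1 : q * q' ≤ Qz ^ 2 := by
    have e1 : exp (-α) = exp (-α / 2) ^ 2 := by
      rw [← exp_nat_mul]; congr 1; push_cast; ring
    have e2 : exp (-β) = exp (-β / 2) ^ 2 := by
      rw [← exp_nat_mul]; congr 1; push_cast; ring
    have e3 : exp (-z) = exp (-α / 2) * exp (-β / 2) := by
      rw [← exp_add, hz]; congr 1; ring
    rw [hq, hq', hQz, e1, e2, e3]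
    nlinarith [sq_nonneg (exp (-α / 2) - exp (-β / 2))]
  have hqq2 : q * q' ≤ ((q + q') / 2) ^ 2 := by nlinarith [sq_nonneg (q - q')]
  have hqq : q * q' ≤ (q + q') / 2 * Qz := by
    have h1 : (q * q') ^ 2 ≤ ((q + q') / 2 * Qz) ^ 2 := by
      calc (q * q') ^ 2 = (q * q') * (q * q') := by ring
        _ ≤ ((q + q') / 2) ^ 2 * Qz ^ 2 :=
          mul_le_mul hqq2 hqq1 (mul_pos hq0 hq0').le (sq_nonneg _)
        _ = _ := by ring
    exact abs_le_of_sq_le_sq' h1 (by positivity) |>.2
  -- the value v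
  set v := exp (-Z + z) with hv
  have hv0 : 0 < v := exp_pos _
  have hvZ : exp (-Z) ≤ v := exp_le_exp.mpr (by linarith)
  have hv1 : v ≤ 1 := by
    rw [hv, exp_le_one_iff]
    have : z ≤ Z := by rw [hz, hZ]; linarith
    linarith
  have hstar := pe_star hl hZ0 hZl hvZ hv1
  have hpsi := psi_convex hα0 hβ0
  rw [← hz, ← hq, ← hq', ← hQz] at hpsi
  -- rewrite D
  have hU : exp (-a) + exp (-a) * (exp α - 1) = exp (-a + α) := by rw [exp_add]; ring
  have hW : exp (-b) + exp (-b) * (exp β - 1) = exp (-b + β) := by rw [exp_add]; ring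
  have hp : exp (-a) * (exp α - 1) = exp (-a + α) * q := by
    rw [hq, exp_add]
    have : exp α * exp (-α) = 1 := by rw [← exp_add]; simp
    linear_combination (exp (-a)) * this
  have hr : exp (-b) * (exp β - 1) = exp (-b + β) * q' := by
    rw [hq', exp_add]
    have : exp β * exp (-β) = 1 := by rw [← exp_add]; simp
    linear_combination (exp (-b)) * this
  have hff1 : ff l (exp (-a)) - ff l (exp (-a + α)) =
      exp (-a + α) * q * (a + 1 - l) - α * exp (-a + α) := by
    unfold ff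
    rw [log_exp, log_exp]
    have : exp (-a) = exp (-a + α) - exp (-a + α) * q := by
      rw [← hp, ← hU]; ring
    rw [this]; ring
  have hff2 : ff l (exp (-b)) - ff l (exp (-b + β)) =
      exp (-b + β) * q' * (b + 1 - l) - β * exp (-b + β) := by
    unfold ff
    rw [log_exp, log_exp]
    have : exp (-b) = exp (-b + β) - exp (-b + β) * q' := by
      rw [← hr, ← hW]; ring
    rw [this]; ring
  have hv2 : exp (-a + α) * exp (-b + β) = v ^ 2 := by
    rw [hv, ← exp_nat_mul, ← exp_add, hZ, hz]; congr 1; push_cast; ring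
  rw [hU, hW, hff1, hff2, hp, hr]
  have hD : exp (-b + β) * q' * (exp (-a + α) * q * (a + 1 - l) - α * exp (-a + α)) +
      exp (-a + α) * q * (exp (-b + β) * q' * (b + 1 - l) - β * exp (-b + β)) -
      (2 * l - 1) * (exp (-a + α) * q * (exp (-b + β) * q')) =
      v ^ 2 * (q * q' * (2 * Z + (3 - 4 * l) - (α / q + β / q'))) := by
    rw [← hv2, hZ]
    field_simp
    ring
  rw [hD]
  have hzz : α + β = 2 * z := by rw [hz]; ring
  rw [hzz] at hpsi
  set Br := 2 * Z + (3 - 4 * l) - 2 * z / Qz with hBr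
  have hstep1 : v ^ 2 * (q * q' * (2 * Z + (3 - 4 * l) - (α / q + β / q'))) ≤
      v ^ 2 * (q * q' * Br) := by
    have : 2 * Z + (3 - 4 * l) - (α / q + β / q') ≤ Br := by rw [hBr]; linarith
    have h1 := mul_le_mul_of_nonneg_left this (mul_pos hq0 hq0').le
    exact mul_le_mul_of_nonneg_left h1 (sq_nonneg v)
  refine le_trans hstep1 ?_
  rcases le_total Br 0 with hB | hB
  · refine le_trans ?_ hR0
    have : q * q' * Br ≤ 0 := mul_nonpos_of_nonneg_of_nonpos (mul_pos hq0 hq0').le hB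
    exact mul_nonpos_of_nonneg_of_nonpos (sq_nonneg v) this
  · have h1 : v ^ 2 * (q * q' * Br) ≤ v ^ 2 * ((q + q') / 2 * Qz * Br) :=
      mul_le_mul_of_nonneg_left (mul_le_mul_of_nonneg_right hqq hB) (sq_nonneg v)
    refine le_trans h1 ?_
    have h2 : v ^ 2 * ((q + q') / 2 * Qz * Br) = (q + q') / 2 * (v ^ 2 * (Qz * Br)) := by ring
    rw [h2]
    refine mul_le_mul_of_nonneg_left ?_ (by linarith)
    -- v^2 Qz Br = 2 v (f(ū) - f(v) - ½(2l-1)(v-ū))
    have hvq : v * Qz = v - exp (-Z) := by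
      rw [hQz, hv, exp_add]
      have : exp z * exp (-z) = 1 := by rw [← exp_add]; simp
      linear_combination (-exp (-Z)) * this
    have h3 : v ^ 2 * (Qz * Br) =
        2 * v * (ff l (exp (-Z)) - ff l v - (2 * l - 1) / 2 * (v - exp (-Z))) := by
      have h4 : v ^ 2 * (Qz * Br) = v * ((v * Qz) * (2 * Z + (3 - 4 * l)) - v * (2 * z)) := by
        rw [hBr]; field_simp
      rw [h4, hvq]
      unfold ff
      rw [log_exp, hv, log_exp]
      ring
    rw [h3]
    refine le_trans ?_ hS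
    linarith

/-- The pair inequality. -/
theorem pair_ineq {K : Type*} (s : Finset K) {l : ℝ} (hl : exp (-l) = l) (α β : K → ℝ)
    (hα : ∀ k, 0 ≤ α k) (hβ : ∀ k, 0 ≤ β k)
    (ha : ∑ k ∈ s, α k ≤ 192 / 100) (hb : ∑ k ∈ s, β k ≤ 192 / 100)
    (hqa : ∑ k ∈ s, (1 - exp (-α k)) ≤ 1) (hqb : ∑ k ∈ s, (1 - exp (-β k)) ≤ 1) :
    0 ≤ ff l (exp (-∑ k ∈ s, α k)) + ff l (exp (-∑ k ∈ s, β k)) +
      ∑ k ∈ s, (exp (-∑ k ∈ s, β k) * (exp (β k) - 1) *
          (ff l (exp (-∑ k ∈ s, α k) + exp (-∑ k ∈ s, α k) * (exp (α k) - 1)) -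
            ff l (exp (-∑ k ∈ s, α k))) +
        exp (-∑ k ∈ s, α k) * (exp (α k) - 1) *
          (ff l (exp (-∑ k ∈ s, β k) + exp (-∑ k ∈ s, β k) * (exp (β k) - 1)) -
            ff l (exp (-∑ k ∈ s, β k)))) -
      (exp (-∑ k ∈ s, α k) - l) * (exp (-∑ k ∈ s, β k) - l) +
      (2 * l - 1) * ∑ k ∈ s, exp (-∑ k ∈ s, α k) * (exp (α k) - 1) *
        (exp (-∑ k ∈ s, β k) * (exp (β k) - 1)) := by
  have hlo := lam_lo hl
  have hhi := lam_hi hl
  set a := ∑ k ∈ s, α k with had
  set b := ∑ k ∈ s, β k with hbd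
  have ha0 : 0 ≤ a := Finset.sum_nonneg (fun k _ => hα k)
  have hb0 : 0 ≤ b := Finset.sum_nonneg (fun k _ => hβ k)
  have hu0 : 0 < exp (-a) := exp_pos _
  have hw0 : 0 < exp (-b) := exp_pos _
  have hu1 : exp (-a) ≤ 1 := exp_le_one_iff.mpr (by linarith)
  have hw1 : exp (-b) ≤ 1 := exp_le_one_iff.mpr (by linarith)
  have hp0 : ∀ k, 0 ≤ exp (-a) * (exp (α k) - 1) := fun k =>
    mul_nonneg hu0.le (sub_nonneg.mpr (one_le_exp (hα k)))
  have hr0 : ∀ k, 0 ≤ exp (-b) * (exp (β k) - 1) := fun k =>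
    mul_nonneg hw0.le (sub_nonneg.mpr (one_le_exp (hβ k)))
  have hpr : 0 ≤ (2 * l - 1) * ∑ k ∈ s, exp (-a) * (exp (α k) - 1) *
        (exp (-b) * (exp (β k) - 1)) :=
    mul_nonneg (by linarith) (Finset.sum_nonneg (fun k _ => mul_nonneg (hp0 k) (hr0 k)))
  have hsp : ∑ k ∈ s, exp (-a) * (exp (α k) - 1) ≤ 1 := by
    rw [← Finset.mul_sum]
    have h1 := sum_exp_sub_one_le s α hα
    rw [← had] at h1
    have h2 := mul_le_mul_of_nonneg_left h1 hu0.le
    have h3 : exp (-a) * (exp a - 1) = 1 - exp (-a) := by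
      have : exp (-a) * exp a = 1 := by rw [← exp_add]; simp
      linear_combination this
    linarith
  have hsr : ∑ k ∈ s, exp (-b) * (exp (β k) - 1) ≤ 1 := by
    rw [← Finset.mul_sum]
    have h1 := sum_exp_sub_one_le s β hβ
    rw [← hbd] at h1
    have h2 := mul_le_mul_of_nonneg_left h1 hw0.le
    have h3 : exp (-b) * (exp b - 1) = 1 - exp (-b) := by
      have : exp (-b) * exp b = 1 := by rw [← exp_add]; simp
      linear_combination this
    linarith
  rw [Finset.sum_add_distrib]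
  -- lower bounds for the two correction sums
  have hA1 : l ≤ exp (-a) → 0 ≤ ∑ k ∈ s, exp (-b) * (exp (β k) - 1) *
          (ff l (exp (-a) + exp (-a) * (exp (α k) - 1)) - ff l (exp (-a))) := by
    intro h
    refine Finset.sum_nonneg (fun k _ => mul_nonneg (hr0 k) ?_)
    have := ff_mono hl h (show exp (-a) ≤ exp (-a) + exp (-a) * (exp (α k) - 1) by
      linarith [hp0 k])
    linarith
  have hB1 : l ≤ exp (-b) → 0 ≤ ∑ k ∈ s, exp (-a) * (exp (α k) - 1) *
          (ff l (exp (-b) + exp (-b) * (exp (β k) - 1)) - ff l (exp (-b))) := by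
    intro h
    refine Finset.sum_nonneg (fun k _ => mul_nonneg (hp0 k) ?_)
    have := ff_mono hl h (show exp (-b) ≤ exp (-b) + exp (-b) * (exp (β k) - 1) by
      linarith [hr0 k])
    linarith
  have hA2 : -ff l (exp (-a)) ≤ ∑ k ∈ s, exp (-b) * (exp (β k) - 1) *
          (ff l (exp (-a) + exp (-a) * (exp (α k) - 1)) - ff l (exp (-a))) := by
    have h1 : ∑ k ∈ s, exp (-b) * (exp (β k) - 1) * (-ff l (exp (-a))) ≤
        ∑ k ∈ s, exp (-b) * (exp (β k) - 1) *
          (ff l (exp (-a) + exp (-a) * (exp (α k) - 1)) - ff l (exp (-a))) := by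
      refine Finset.sum_le_sum (fun k _ => mul_le_mul_of_nonneg_left ?_ (hr0 k))
      have := ff_nonneg hl (show 0 < exp (-a) + exp (-a) * (exp (α k) - 1) by
        linarith [hp0 k])
      linarith
    rw [← Finset.sum_mul] at h1
    have h2 := ff_nonneg hl hu0
    nlinarith
  have hB2 : -ff l (exp (-b)) ≤ ∑ k ∈ s, exp (-a) * (exp (α k) - 1) *
          (ff l (exp (-b) + exp (-b) * (exp (β k) - 1)) - ff l (exp (-b))) := by
    have h1 : ∑ k ∈ s, exp (-a) * (exp (α k) - 1) * (-ff l (exp (-b))) ≤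
        ∑ k ∈ s, exp (-a) * (exp (α k) - 1) *
          (ff l (exp (-b) + exp (-b) * (exp (β k) - 1)) - ff l (exp (-b))) := by
      refine Finset.sum_le_sum (fun k _ => mul_le_mul_of_nonneg_left ?_ (hp0 k))
      have := ff_nonneg hl (show 0 < exp (-b) + exp (-b) * (exp (β k) - 1) by
        linarith [hr0 k])
      linarith
    rw [← Finset.sum_mul] at h1
    have h2 := ff_nonneg hl hw0
    nlinarith
  have hfa := ff_nonneg hl hu0
  have hfb := ff_nonneg hl hw0
  rcases le_total l (exp (-a)) with hla | hla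
  · rcases le_total l (exp (-b)) with hlb | hlb
    · have h1 := hA1 hla
      have h2 := hB1 hlb
      have h3 := ff_quad hl hla hu1
      have h4 := ff_quad hl hlb hw1
      nlinarith [sq_nonneg ((exp (-a) - l) - (exp (-b) - l))]
    · have h1 := hA1 hla
      have h2 : (exp (-a) - l) * (exp (-b) - l) ≤ 0 :=
        mul_nonpos_of_nonneg_of_nonpos (by linarith) (by linarith)
      linarith
  · rcases le_total l (exp (-b)) with hlb | hlb
    · have h1 := hB1 hlb
      have h2 : (exp (-a) - l) * (exp (-b) - l) ≤ 0 :=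
        mul_nonpos_of_nonpos_of_nonneg (by linarith) (by linarith)
      linarith
    · have hαa : ∀ k ∈ s, α k ≤ a := fun k hk =>
        Finset.single_le_sum (fun k _ => hα k) hk
      have hβb : ∀ k ∈ s, β k ≤ b := fun k hk =>
        Finset.single_le_sum (fun k _ => hβ k) hk
      have hcb := Finset.sum_le_sum (fun k hk =>
        class_bound hl (hα k) (hβ k) (hαa k hk) (hβb k hk) ha hb hla hlb)
      rw [← Finset.sum_mul] at hcb
      have hS0 : 0 ≤ ff l (exp (-a)) + ff l (exp (-b)) - (l - exp (-a)) * (l - exp (-b)) := by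
        have hx := hcb
        by_contra hneg
        push Not at hneg
        -- use the class bound with zero class
        have h0 := class_bound (α := a) (β := 0) hl ha0 le_rfl le_rfl hb0 ha hb hla hlb
        simp only [exp_zero, sub_self, mul_zero, zero_mul, add_zero, neg_zero] at h0
        have h1 : 0 ≤ 1 - exp (-a) := by linarith
        have h2 : exp (-a) ≤ 567144 / 1000000 := by linarith
        nlinarith
      have hsum : ∑ k ∈ s, ((1 - exp (-α k)) + (1 - exp (-β k))) / 2 ≤ 1 := by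
        rw [← Finset.sum_div, Finset.sum_add_distrib]
        linarith
      have h5 := mul_le_mul_of_nonneg_right hsum hS0
      clear_value a b
      have e1 : ∑ k ∈ s, (exp (-b) * (exp (β k) - 1) *
            (ff l (exp (-a)) - ff l (exp (-a) + exp (-a) * (exp (α k) - 1))) +
          exp (-a) * (exp (α k) - 1) *
            (ff l (exp (-b)) - ff l (exp (-b) + exp (-b) * (exp (β k) - 1))) -
          (2 * l - 1) * (exp (-a) * (exp (α k) - 1) * (exp (-b) * (exp (β k) - 1)))) =
          -(∑ k ∈ s, exp (-b) * (exp (β k) - 1) *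
            (ff l (exp (-a) + exp (-a) * (exp (α k) - 1)) - ff l (exp (-a)))) -
          (∑ k ∈ s, exp (-a) * (exp (α k) - 1) *
            (ff l (exp (-b) + exp (-b) * (exp (β k) - 1)) - ff l (exp (-b)))) -
          (2 * l - 1) * ∑ k ∈ s, exp (-a) * (exp (α k) - 1) *
            (exp (-b) * (exp (β k) - 1)) := by
        rw [Finset.mul_sum, ← Finset.sum_neg_distrib, ← Finset.sum_sub_distrib,
          ← Finset.sum_sub_distrib]
        refine Finset.sum_congr rfl (fun k _ => by ring)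
      rw [e1] at hcb
      linarith

end Pool.KS
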