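import Pool.Agent.KS.Scal4

/-! The row inequality. -/

namespace Pool.KS

open Real

/-- the transfer weight -/
noncomputable def om (a : ℝ) : ℝ := a / 2 + a ^ 2 / 6 + a ^ 3 / 12 + 2 * a ^ 4 / 15

theorem om_single {a : ℝ} (h0 : 0 ≤ a) (h1 : a ≤ 78 / 100) : 1 - om a ≤ phi (-log (1 - a)) := by
  rcases h0.eq_or_lt with rfl | h0
  · simp [om, phi_zero]
  have hlog : 0 < -log (1 - a) := by
    have := log_neg (x := 1 - a) (by linarith) (by linarith)
    linarith
  have hexp : exp (-log (1 - a)) = 1 / (1 - a) := by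
    rw [exp_neg, exp_log (by linarith), one_div]
  unfold phi
  rw [if_neg hlog.ne', hexp]
  have h1a : 0 < 1 - a := by linarith
  have e1 : 1 / (1 - a) - 1 = a / (1 - a) := by field_simp; ring
  rw [e1]
  have e2 : -log (1 - a) / (a / (1 - a)) = (1 - a) * (-log (1 - a)) / a := by field_simp
  rw [e2, le_div_iff₀ h0]
  have h2 := neg_log_ge 10 h0.le (by linarith)
  norm_num [Finset.sum_range_succ] at h2
  have h3 := mul_le_mul_of_nonneg_left h2 h1a.le
  have hb : 0 ≤ 1 / 12 - a / 30 - a ^ 2 / 42 - a ^ 3 / 56 - a ^ 4 / 72 - a ^ 5 / 90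
      - a ^ 6 / 10 := by
    have p2 := pow_le_pow_left₀ h0.le h1 2
    have p3 := pow_le_pow_left₀ h0.le h1 3
    have p4 := pow_le_pow_left₀ h0.le h1 4
    have p5 := pow_le_pow_left₀ h0.le h1 5
    have p6 := pow_le_pow_left₀ h0.le h1 6
    norm_num at p2 p3 p4 p5 p6
    linarith
  have h4 := mul_nonneg (pow_nonneg h0.le 5) hb
  unfold om
  refine le_trans ?_ h3
  nlinarith

/-- total log weight of a set of entries -/
noncomputable def TT {J : Type*} (a : J → ℝ) (S : Finset J) : ℝ := ∑ j ∈ S, -log (1 - a j)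

theorem TT_nonneg {J : Type*} {a : J → ℝ} (h0 : ∀ j, 0 ≤ a j) (h1 : ∀ j, a j ≤ 78 / 100)
    (S : Finset J) : 0 ≤ TT a S := by
  unfold TT
  refine Finset.sum_nonneg (fun j _ => ?_)
  have := log_nonpos (x := 1 - a j) (by linarith [h1 j]) (by linarith [h0 j])
  linarith

theorem class_row {J : Type*} {a : J → ℝ} (h0 : ∀ j, 0 ≤ a j) (h1 : ∀ j, a j ≤ 78 / 100)
    (S : Finset J) : 1 - ∑ j ∈ S, om (a j) ≤ phi (TT a S) := by
  classical
  induction S using Finset.induction_on with
  | empty => simp [TT, phi_zero]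
  | insert j S hj ih =>
    have e1 : TT a (insert j S) = -log (1 - a j) + TT a S := by
      unfold TT; rw [Finset.sum_insert hj]
    rw [e1, Finset.sum_insert hj]
    have h2 := om_single (h0 j) (h1 j)
    have h3 : 0 ≤ -log (1 - a j) := by
      have := log_nonpos (x := 1 - a j) (by linarith [h1 j]) (by linarith [h0 j])
      linarith
    have h4 := phi_subadd h3 (TT_nonneg h0 h1 S)
    linarith

theorem class_row' {J : Type*} {a : J → ℝ} (h0 : ∀ j, 0 ≤ a j) (h1 : ∀ j, a j ≤ 78 / 100)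
    (S : Finset J) : (1 - ∑ j ∈ S, om (a j)) * (exp (TT a S) - 1) ≤ TT a S := by
  have h2 : 0 ≤ exp (TT a S) - 1 := sub_nonneg.mpr (one_le_exp (TT_nonneg h0 h1 S))
  calc _ ≤ phi (TT a S) * (exp (TT a S) - 1) :=
        mul_le_mul_of_nonneg_right (class_row h0 h1 S) h2
    _ = _ := phi_mul

theorem row_num {l u : ℝ} (hl : exp (-l) = l) (hu : 0 < u) :
    0 ≤ 10295 / 10000 * ff l u - 9 / 20 * ((1 - 2 * l) * u + l ^ 2) + 117 / 500 * u := by
  have hlo := lam_lo hl
  have hhi := lam_hi hl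
  have hl0 : 0 < l := by linarith
  have hr : -(2856 / 10000) ≤ log (7517 / 10000) := by
    rw [le_log_iff_exp_le (by norm_num)]
    have h := Real.exp_bound (x := -(2856 / 10000))
      (by rw [abs_neg, abs_of_nonneg] <;> norm_num) (n := 7) (by norm_num)
    rw [abs_le] at h
    have h3 := h.2
    norm_num [Finset.sum_range_succ, Nat.factorial] at h3
    norm_num
    linarith
  set r : ℝ := 7517 / 10000 with hrd
  have hrl : 0 < r * l := by positivity
  have h1 : 1 - (r * l) / u ≤ log (u / (r * l)) := by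
    have := one_sub_inv_le_log_of_pos (show 0 < u / (r * l) by positivity)
    rw [inv_div] at this
    exact this
  rw [log_div hu.ne' hrl.ne', log_mul (by norm_num) hl0.ne', log_lam hl] at h1
  have h2 := mul_le_mul_of_nonneg_left h1 hu.le
  have h3 : u * (1 - r * l / u) = u - r * l := by field_simp
  rw [h3] at h2
  have h4 := mul_le_mul_of_nonneg_left hr hu.le
  unfold ff
  have h5 : 0 ≤ (10295 / 10000 * (1 - r) - 9 / 20 * l) * l := by
    apply mul_nonneg _ hl0.le
    rw [hrd]; linarith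
  have h6 : 0 ≤ (-(10295 / 10000) * (2856 / 10000) + 9 / 20 * (2 * l - 1) + 117 / 500) * u := by
    apply mul_nonneg _ hu.le
    linarith
  rw [hrd] at h5 h2 h4
  nlinarith

/-- The row inequality. -/
theorem row_ineq {J K : Type*} [Fintype J] [Fintype K] [DecidableEq K] {l : ℝ}
    (hl : exp (-l) = l) {a : J → ℝ} (h0 : ∀ j, 0 ≤ a j) (h1 : ∀ j, a j ≤ 7722 / 10000)
    (hsum : ∑ j, a j = 1) (R : Finset J) (κ : J → K) :
    exp (-TT a R) + ∑ k, exp (-TT a R) * (exp (TT a (R.filter (fun j => κ j = k))) - 1) ≤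
      l * exp (-TT a R) + l - ff l (exp (-TT a R)) + 1 / 10 * ff l (exp (-TT a R)) +
      (∑ j, a j ^ 2) * (9 / 10 * ff l (exp (-TT a R)) -
        9 / 20 * ((1 - 2 * l) * exp (-TT a R) + l ^ 2) + 117 / 500 * exp (-TT a R)) +
      ∑ k, exp (-TT a R) * (exp (TT a (R.filter (fun j => κ j = k))) - 1) *
        ∑ j ∈ R.filter (fun j => κ j = k), om (a j) := by
  have h1' : ∀ j, a j ≤ 78 / 100 := fun j => by linarith [h1 j]
  set u := exp (-TT a R) with hu
  have hu0 : 0 < u := exp_pos _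
  have hT : ∑ k, TT a (R.filter (fun j => κ j = k)) = TT a R := by
    unfold TT
    exact Finset.sum_fiberwise R κ (fun j => -log (1 - a j))
  have hcl : ∑ k, (u * (exp (TT a (R.filter (fun j => κ j = k))) - 1) -
      u * (exp (TT a (R.filter (fun j => κ j = k))) - 1) *
        ∑ j ∈ R.filter (fun j => κ j = k), om (a j)) ≤ u * TT a R := by
    rw [← hT, Finset.mul_sum]
    refine Finset.sum_le_sum (fun k _ => ?_)
    have := mul_le_mul_of_nonneg_left
      (class_row' h0 h1' (R.filter (fun j => κ j = k))) hu0.le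
    linarith
  rw [Finset.sum_sub_distrib] at hcl
  have hff : ff l u = -(u * TT a R) - (1 - l) * u + l := by
    unfold ff
    rw [hu, log_exp]; ring
  have hg0 : 0 ≤ ∑ j, a j ^ 2 := Finset.sum_nonneg (fun j _ => sq_nonneg _)
  have hg : ∑ j, a j ^ 2 ≤ 7722 / 10000 := by
    calc ∑ j, a j ^ 2 ≤ ∑ j, 7722 / 10000 * a j := by
          refine Finset.sum_le_sum (fun j _ => ?_)
          nlinarith [h0 j, h1 j]
      _ = 7722 / 10000 := by rw [← Finset.mul_sum, hsum, mul_one]
  have hf0 := ff_nonneg hl hu0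
  have hnum := row_num hl hu0
  have h2 : (∑ j, a j ^ 2) * (1295 / 10000 * ff l u) ≤ 1 / 10 * ff l u := by
    nlinarith [mul_le_mul_of_nonneg_right hg hf0]
  have h3 := mul_nonneg hg0 hnum
  have h4 : (∑ j, a j ^ 2) * (10295 / 10000 * ff l u - 9 / 20 * ((1 - 2 * l) * u + l ^ 2)
      + 117 / 500 * u) = (∑ j, a j ^ 2) * (9 / 10 * ff l u - 9 / 20 * ((1 - 2 * l) * u + l ^ 2)
      + 117 / 500 * u) + (∑ j, a j ^ 2) * (1295 / 10000 * ff l u) := by ring
  rw [h4] at h3
  have h5 : u + u * TT a R = l * u + l - ff l u := by rw [hff]; ring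
  linarith

end Pool.KS
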