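import Pool.Agent.KS.Scal5

/-! The column inequality, part one: classes. -/

namespace Pool.KS

open Real

theorem one_sub_le_exp {J : Type*} {a : J → ℝ} (h0 : ∀ j, 0 ≤ a j) (h1 : ∀ j, a j < 1)
    (S : Finset J) : 1 - ∑ j ∈ S, a j ≤ exp (-TT a S) := by
  classical
  induction S using Finset.induction_on with
  | empty => simp [TT]
  | insert j S hj ih =>
    have e1 : exp (-TT a (insert j S)) = (1 - a j) * exp (-TT a S) := by
      unfold TT
      rw [Finset.sum_insert hj, neg_add, exp_add, neg_neg, exp_log (by linarith [h1 j])]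
    rw [e1, Finset.sum_insert hj]
    have h2 : 0 ≤ ∑ j ∈ S, a j := Finset.sum_nonneg (fun j _ => h0 j)
    have h3 : 0 ≤ 1 - a j := by linarith [h1 j]
    nlinarith [mul_le_mul_of_nonneg_left ih h3, mul_nonneg (h0 j) h2]

/-- second order part of the transfer weight -/
noncomputable def e2 (a : ℝ) : ℝ := om a - a / 2 - 117 / 500 * a ^ 2

/-- the coefficient function of `e2` -/
noncomputable def g2 (a : ℝ) : ℝ := 1 / 6 - 117 / 500 + a / 12 + 2 * a ^ 2 / 15

theorem e2_eq (a : ℝ) : e2 a = a * (a * g2 a) := by unfold e2 om g2; ring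

theorem g2_mono {a b : ℝ} (h0 : 0 ≤ a) (h : a ≤ b) : g2 a ≤ g2 b := by
  unfold g2
  nlinarith [mul_le_mul h h h0 (by linarith)]

theorem sum_e2_cases {J : Type*} {a : J → ℝ} (h0 : ∀ j, 0 ≤ a j)
    (S : Finset J) : ∑ j ∈ S, e2 (a j) ≤ 0 ∨
      (0 ≤ g2 (∑ j ∈ S, a j) ∧ ∑ j ∈ S, e2 (a j) ≤
        (∑ j ∈ S, a j) ^ 2 * g2 (∑ j ∈ S, a j)) := by
  set A := ∑ j ∈ S, a j with hA
  have hle : ∀ j ∈ S, a j ≤ A := fun j hj => Finset.single_le_sum (fun k _ => h0 k) hj
  rcases le_total (g2 A) 0 with hg | hg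
  · left
    refine Finset.sum_nonpos (fun j hj => ?_)
    rw [e2_eq]
    have h1 := g2_mono (h0 j) (hle j hj)
    have h2 : a j * g2 (a j) ≤ 0 := mul_nonpos_of_nonneg_of_nonpos (h0 j) (by linarith)
    exact mul_nonpos_of_nonneg_of_nonpos (h0 j) h2
  · right
    refine ⟨hg, ?_⟩
    have h1 : ∀ j ∈ S, e2 (a j) ≤ a j * (A * g2 A) := by
      intro j hj
      rw [e2_eq]
      have h1 := g2_mono (h0 j) (hle j hj)
      have h2 : a j * g2 (a j) ≤ a j * g2 A := mul_le_mul_of_nonneg_left h1 (h0 j)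
      have h3 : a j * g2 A ≤ A * g2 A := mul_le_mul_of_nonneg_right (hle j hj) hg
      exact mul_le_mul_of_nonneg_left (by linarith) (h0 j)
    calc ∑ j ∈ S, e2 (a j) ≤ ∑ j ∈ S, a j * (A * g2 A) := Finset.sum_le_sum h1
      _ = A ^ 2 * g2 A := by rw [← Finset.sum_mul, ← hA]; ring

theorem sum_e2_le {J : Type*} {a : J → ℝ} (h0 : ∀ j, 0 ≤ a j) (h1 : ∀ j, a j ≤ 7722 / 10000)
    (S : Finset J) : ∑ j ∈ S, e2 (a j) ≤ (∑ j ∈ S, a j) * (591 / 10000) := by
  rw [Finset.sum_mul]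
  refine Finset.sum_le_sum (fun j _ => ?_)
  rw [e2_eq]
  refine mul_le_mul_of_nonneg_left ?_ (h0 j)
  have h2 := g2_mono (h0 j) (h1 j)
  have h3 : a j * g2 (a j) ≤ a j * g2 (7722 / 10000) := mul_le_mul_of_nonneg_left h2 (h0 j)
  have h4 : a j * g2 (7722 / 10000) ≤ 7722 / 10000 * g2 (7722 / 10000) := by
    refine mul_le_mul_of_nonneg_right (h1 j) ?_
    unfold g2; norm_num
  have h5 : 7722 / 10000 * g2 (7722 / 10000) ≤ 591 / 10000 := by unfold g2; norm_num
  linarith

/-- monotonicity in `θ` -/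
theorem theta_mono {A θ : ℝ} (hA : 2 / 5 ≤ A) (hA1 : A ≤ 1) (hθ1 : θ ≤ 32243 / 100000) :
    (40 / 27) * (1 - A) * (32243 / 100000) ^ 2 - (2 - A) * A * (32243 / 100000) ≤
      (40 / 27) * (1 - A) * θ ^ 2 - (2 - A) * A * θ := by
  have h1 : 0 ≤ (2 - A) * A - (40 / 27) * (1 - A) * (θ + 32243 / 100000) := by
    have h2 : (40 / 27) * (1 - A) * (θ + 32243 / 100000) ≤ (40 / 27) * (1 - A) * (65 / 100) :=
      mul_le_mul_of_nonneg_left (by linarith) (by linarith)
    nlinarith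
  nlinarith [mul_nonneg (show 0 ≤ 32243 / 100000 - θ by linarith) h1]

theorem class_num {A θ E : ℝ} (hA0 : 0 ≤ A) (hA1 : A ≤ 1)
    (hθ1 : θ ≤ 32243 / 100000)
    (hE : E ≤ 0 ∨ (0 ≤ g2 A ∧ E ≤ A ^ 2 * g2 A)) (hE' : E ≤ A * (591 / 10000)) :
    (2 - A) * (θ * A - 9 / 20 * A ^ 2 + E) ≤ (40 / 27) * θ ^ 2 * (1 - A) := by
  have h2A : 0 ≤ 2 - A := by linarith
  rcases le_total A (7722 / 10000) with hAr | hAr
  · rcases hE with hE | ⟨hg, hE⟩
    · have h1 : (2 - A) * (θ * A - 9 / 20 * A ^ 2 + E) ≤ (2 - A) * (θ * A - 9 / 20 * A ^ 2) :=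
        mul_le_mul_of_nonneg_left (by linarith) h2A
      refine le_trans h1 ?_
      rcases le_total A (2 / 5) with hA4 | hA4
      · -- discriminant
        have h3 : 0 < 1 - A := by linarith
        have h4 : 0 ≤ (2 - A) * A ^ 2 * (2 / 3 - 5 / 3 * A) := by
          have : 0 ≤ 2 / 3 - 5 / 3 * A := by linarith
          positivity
        have h5 : 0 ≤ 4 * ((40 / 27) * (1 - A)) *
            ((40 / 27) * θ ^ 2 * (1 - A) - (2 - A) * (θ * A - 9 / 20 * A ^ 2)) := by
          have e : 4 * ((40 / 27) * (1 - A)) *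
            ((40 / 27) * θ ^ 2 * (1 - A) - (2 - A) * (θ * A - 9 / 20 * A ^ 2)) =
            (2 * ((40 / 27) * (1 - A)) * θ - (2 - A) * A) ^ 2 +
              (2 - A) * A ^ 2 * (2 / 3 - 5 / 3 * A) := by ring
          rw [e]
          have := sq_nonneg (2 * ((40 / 27) * (1 - A)) * θ - (2 - A) * A)
          linarith
        have h6 : 0 < 4 * ((40 / 27) * (1 - A)) := by linarith
        have h7 := nonneg_of_mul_nonneg_right h5 h6
        linarith
      · have h3 := theta_mono hA4 hA1 hθ1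
        have h4 : 0 ≤ A - 2 / 5 := by linarith
        have h5 : 0 ≤ 7722 / 10000 - A := by linarith
        have h6 : 0 ≤ (40 / 27) * (1 - A) * (32243 / 100000) ^ 2
            - (2 - A) * A * (32243 / 100000) + 9 / 20 * (2 - A) * A ^ 2 := by
          nlinarith [sq_nonneg (A - 43 / 100), mul_nonneg h4 h5, mul_nonneg h4 (sq_nonneg (A - 43/100))]
        linarith
    · have h1 : (2 - A) * (θ * A - 9 / 20 * A ^ 2 + E) ≤
          (2 - A) * (θ * A - 9 / 20 * A ^ 2 + A ^ 2 * g2 A) :=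
        mul_le_mul_of_nonneg_left (by linarith) h2A
      refine le_trans h1 ?_
      have hA46 : 46 / 100 ≤ A := by
        by_contra hcon
        push Not at hcon
        unfold g2 at hg
        nlinarith
      have h3 := theta_mono (by linarith) hA1 hθ1
      have h4 : 0 ≤ A - 46 / 100 := by linarith
      have h5 : 0 ≤ 7722 / 10000 - A := by linarith
      have h6 : 0 ≤ (40 / 27) * (1 - A) * (32243 / 100000) ^ 2
            - (2 - A) * A * (32243 / 100000) + (2 - A) * A ^ 2 * (9 / 20 - g2 A) := by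
        unfold g2
        linarith [mul_nonneg (pow_nonneg h4 0) (pow_nonneg h5 6),
        mul_nonneg (pow_nonneg h4 1) (pow_nonneg h5 5),
        mul_nonneg (pow_nonneg h4 2) (pow_nonneg h5 4),
        mul_nonneg (pow_nonneg h4 3) (pow_nonneg h5 3),
        mul_nonneg (pow_nonneg h4 4) (pow_nonneg h5 2),
        mul_nonneg (pow_nonneg h4 5) (pow_nonneg h5 1),
        mul_nonneg (pow_nonneg h4 6) (pow_nonneg h5 0)]
      linarith
  · have h1 : (2 - A) * (θ * A - 9 / 20 * A ^ 2 + E) ≤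
        (2 - A) * (θ * A - 9 / 20 * A ^ 2 + A * (591 / 10000)) :=
      mul_le_mul_of_nonneg_left (by linarith) h2A
    refine le_trans h1 ?_
    have h3 := theta_mono (by linarith) hA1 hθ1
    have h4 : 0 ≤ A - 7722 / 10000 := by linarith
    have h5 : 0 ≤ 1 - A := by linarith
    have h6 : 0 ≤ (40 / 27) * (1 - A) * (32243 / 100000) ^ 2
            - (2 - A) * A * (32243 / 100000) + (2 - A) * A * (9 / 20 * A - 591 / 10000) := by
      linarith [mul_nonneg (pow_nonneg h4 0) (pow_nonneg h5 3),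
        mul_nonneg (pow_nonneg h4 1) (pow_nonneg h5 2),
        mul_nonneg (pow_nonneg h4 2) (pow_nonneg h5 1),
        mul_nonneg (pow_nonneg h4 3) (pow_nonneg h5 0)]
    linarith

/-- The contribution of a class in the column inequality. -/
theorem class_col {J : Type*} {a : J → ℝ} (h0 : ∀ j, 0 ≤ a j) (h1 : ∀ j, a j ≤ 7722 / 10000)
    (S : Finset J) {θ : ℝ} (hA1 : ∑ j ∈ S, a j ≤ 1) (hθ1 : θ ≤ 32243 / 100000) :
    (exp (TT a S) - 1) * (θ * (∑ j ∈ S, a j) - 9 / 20 * (∑ j ∈ S, a j) ^ 2 +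
      ∑ j ∈ S, e2 (a j)) ≤ 20 / 27 * (max θ 0) ^ 2 * TT a S := by
  have h1' : ∀ j, a j ≤ 78 / 100 := fun j => by linarith [h1 j]
  have h1'' : ∀ j, a j < 1 := fun j => by linarith [h1 j]
  have hT := TT_nonneg h0 h1' S
  have hexp : 0 ≤ exp (TT a S) - 1 := sub_nonneg.mpr (one_le_exp hT)
  have hcases := sum_e2_cases h0 S
  have hle := sum_e2_le h0 h1 S
  have hone := one_sub_le_exp h0 h1'' S
  have hA0 : 0 ≤ ∑ j ∈ S, a j := Finset.sum_nonneg (fun j _ => h0 j)
  set A := ∑ j ∈ S, a j with hA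
  set E := ∑ j ∈ S, e2 (a j) with hE
  set T := TT a S with hTd
  have hR : 0 ≤ 20 / 27 * (max θ 0) ^ 2 * T := by positivity
  rcases le_total (θ * A - 9 / 20 * A ^ 2 + E) 0 with hN | hN
  · exact le_trans (mul_nonpos_of_nonneg_of_nonpos hexp hN) hR
  · have hθ0 : 0 ≤ max θ 0 := le_max_right _ _
    have hN' : θ * A - 9 / 20 * A ^ 2 + E ≤ max θ 0 * A - 9 / 20 * A ^ 2 + E := by
      have := mul_le_mul_of_nonneg_right (le_max_left θ 0) hA0
      linarith
    have hnum := class_num (θ := max θ 0) hA0 hA1 (max_le hθ1 (by norm_num)) hcases hle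
    set θp := max θ 0 with hθp
    set N := θ * A - 9 / 20 * A ^ 2 + E with hNd
    have hnum' : (2 - A) * N ≤ (40 / 27) * θp ^ 2 * (1 - A) :=
      le_trans (mul_le_mul_of_nonneg_left hN' (by linarith)) hnum
    rcases hA1.eq_or_lt with hA1 | hA1
    · -- A = 1
      have : N ≤ 0 := by rw [hA1] at hnum'; linarith
      exact le_trans (mul_nonpos_of_nonneg_of_nonpos hexp this) hR
    · have h1A : 0 < 1 - A := by linarith
      have hprod : exp T * exp (-T) = 1 := by rw [← exp_add]; simp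
      have h2 : exp T * (1 - A) ≤ 1 := by
        calc exp T * (1 - A) ≤ exp T * exp (-T) :=
              mul_le_mul_of_nonneg_left hone (exp_pos _).le
          _ = 1 := hprod
      have h3 := exp_sub_one_le hT
      have h4 : (exp T - 1) * N * (1 - A) ≤ T * (exp T + 1) / 2 * N * (1 - A) :=
        mul_le_mul_of_nonneg_right (mul_le_mul_of_nonneg_right h3 hN) h1A.le
      have h5 : T * (exp T + 1) / 2 * N * (1 - A) ≤ T * ((2 - A) * N) / 2 := by
        have : (exp T + 1) * (1 - A) ≤ 2 - A := by linarith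
        have h6 := mul_le_mul_of_nonneg_left this (mul_nonneg hT hN)
        linarith
      have h6 : T * ((2 - A) * N) / 2 ≤ T * ((40 / 27) * θp ^ 2 * (1 - A)) / 2 := by
        have := mul_le_mul_of_nonneg_left hnum' hT
        linarith
      have h7 : (exp T - 1) * N * (1 - A) ≤ (20 / 27 * θp ^ 2 * T) * (1 - A) := by
        linarith
      exact le_of_mul_le_mul_right h7 h1A

end Pool.KS
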