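import Pool.Agent.KS.Scal6

/-! The column inequality, part two. -/

namespace Pool.KS

open Real

theorem exp_neg_upper {y : ℝ} (h0 : 0 ≤ y) (h1 : y ≤ 1) :
    exp (-y) ≤ 1 - y + y ^ 2 / 2 - y ^ 3 / 6 + y ^ 4 / 24 := by
  have h := Real.exp_bound (x := -y) (by rw [abs_neg, abs_of_nonneg h0]; exact h1)
    (n := 6) (by norm_num)
  rw [abs_le, abs_neg, abs_of_nonneg h0] at h
  have h3 := h.2
  norm_num [Finset.sum_range_succ, Nat.factorial] at h3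
  have h5 := pow_nonneg h0 5
  have h6 : y ^ 6 ≤ y ^ 5 := by
    have := mul_le_mul_of_nonneg_left h1 h5
    calc y ^ 6 = y ^ 5 * y := by ring
      _ ≤ _ := by linarith
  have e : (-y) ^ 5 = - y ^ 5 := by ring
  have e3 : (-y) ^ 3 = - y ^ 3 := by ring
  simp only [e, e3] at h3
  linarith

theorem exp_neg_lower {y : ℝ} (h0 : 0 ≤ y) (h1 : y ≤ 1) :
    1 - y + y ^ 2 / 2 - y ^ 3 / 6 + y ^ 4 / 24 - y ^ 5 / 120 ≤ exp (-y) := by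
  have h := Real.exp_bound (x := -y) (by rw [abs_neg, abs_of_nonneg h0]; exact h1)
    (n := 7) (by norm_num)
  rw [abs_le, abs_neg, abs_of_nonneg h0] at h
  have h3 := h.1
  norm_num [Finset.sum_range_succ, Nat.factorial] at h3
  have h5 := pow_nonneg h0 6
  have h6 : y ^ 7 ≤ y ^ 6 := by
    have := mul_le_mul_of_nonneg_left h1 h5
    calc y ^ 7 = y ^ 6 * y := by ring
      _ ≤ _ := by linarith
  have e : (-y) ^ 5 = - y ^ 5 := by ring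
  have e3 : (-y) ^ 3 = - y ^ 3 := by ring
  simp only [e, e3] at h3
  linarith

theorem exp_neg_quad {w : ℝ} (h0 : 0 ≤ w) : exp (-w) ≤ 1 - w + w ^ 2 / 2 := by
  have h1 := quadratic_le_exp_of_nonneg h0
  have h2 : exp (-w) * exp w = 1 := by rw [← exp_add]; simp
  have h3 : 0 < 1 - w + w ^ 2 / 2 := by nlinarith [sq_nonneg (w - 1)]
  have h4 : exp (-w) * (1 + w + w ^ 2 / 2) ≤ 1 := by
    calc exp (-w) * (1 + w + w ^ 2 / 2) ≤ exp (-w) * exp w :=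
          mul_le_mul_of_nonneg_left h1 (exp_pos _).le
      _ = 1 := h2
  have h5 : 1 ≤ (1 - w + w ^ 2 / 2) * (1 + w + w ^ 2 / 2) := by nlinarith [sq_nonneg (w ^ 2)]
  have h6 : 0 < 1 + w + w ^ 2 / 2 := by positivity
  exact le_of_mul_le_mul_right (h4.trans h5) h6

theorem TT_ge {J : Type*} {a : J → ℝ} (h0 : ∀ j, 0 ≤ a j) (h1 : ∀ j, a j < 1)
    (S : Finset J) {x : ℝ} (hx : 0 ≤ x) (hs : ∑ j ∈ S, a j ^ 2 = (∑ j ∈ S, a j) * x) :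
    (∑ j ∈ S, a j) * (1 + x / 2 + x ^ 2 / 3 + x ^ 3 / 4 + x ^ 4 / 5) ≤ TT a S := by
  have key : ∀ j, a j * (1 - x ^ 2 / 3 - x ^ 3 / 2 - 3 * x ^ 4 / 5) +
      a j ^ 2 * (1 / 2 + 2 * x / 3 + 3 * x ^ 2 / 4 + 4 * x ^ 3 / 5) ≤ -log (1 - a j) := by
    intro j
    have ha := h0 j
    have h2 := neg_log_ge 5 (h0 j) (h1 j)
    norm_num [Finset.sum_range_succ] at h2
    refine le_trans ?_ h2
    set t := a j
    have k2 : 0 ≤ t * (t - x) ^ 2 := by positivity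
    have k3 : 0 ≤ t * ((t - x) ^ 2 * (t + 2 * x)) := by positivity
    have k4 : 0 ≤ t * ((t - x) ^ 2 * (t ^ 2 + 2 * t * x + 3 * x ^ 2)) := by positivity
    have e : t + t ^ 2 / 2 + t ^ 3 / 3 + t ^ 4 / 4 + t ^ 5 / 5 -
        (t * (1 - x ^ 2 / 3 - x ^ 3 / 2 - 3 * x ^ 4 / 5) +
          t ^ 2 * (1 / 2 + 2 * x / 3 + 3 * x ^ 2 / 4 + 4 * x ^ 3 / 5)) =
        t * (t - x) ^ 2 / 3 + t * ((t - x) ^ 2 * (t + 2 * x)) / 4 +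
        t * ((t - x) ^ 2 * (t ^ 2 + 2 * t * x + 3 * x ^ 2)) / 5 := by ring
    linarith
  have h2 : ∑ j ∈ S, (a j * (1 - x ^ 2 / 3 - x ^ 3 / 2 - 3 * x ^ 4 / 5) +
      a j ^ 2 * (1 / 2 + 2 * x / 3 + 3 * x ^ 2 / 4 + 4 * x ^ 3 / 5)) ≤ TT a S :=
    Finset.sum_le_sum (fun j _ => key j)
  rw [Finset.sum_add_distrib, ← Finset.sum_mul, ← Finset.sum_mul, hs] at h2
  refine le_trans (le_of_eq ?_) h2
  ring

theorem V_le {J : Type*} {a : J → ℝ} (h0 : ∀ j, 0 ≤ a j) (h1 : ∀ j, a j < 1)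
    (S : Finset J) {x : ℝ} (hx : 0 ≤ x) (hx2 : x ≤ 1 / 2)
    (hs : ∑ j ∈ S, a j ^ 2 = (∑ j ∈ S, a j) * x) (hA1 : ∑ j ∈ S, a j ≤ 1) :
    exp (-TT a S) ≤ exp (-∑ j ∈ S, a j) * (1 - ((∑ j ∈ S, a j) * x / 2 +
      ((∑ j ∈ S, a j) / 3 - (∑ j ∈ S, a j) ^ 2 / 8) * x ^ 2)) := by
  have hT := TT_ge h0 h1 S hx hs
  have hA0 : 0 ≤ ∑ j ∈ S, a j := Finset.sum_nonneg (fun j _ => h0 j)
  set A := ∑ j ∈ S, a j with hA
  set w := A * (x / 2 + x ^ 2 / 3 + x ^ 3 / 4 + x ^ 4 / 5) with hw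
  have hw0 : 0 ≤ w := by positivity
  have h2 : exp (-TT a S) ≤ exp (-A) * exp (-w) := by
    rw [← exp_add]
    apply exp_le_exp.mpr
    have : A * (1 + x / 2 + x ^ 2 / 3 + x ^ 3 / 4 + x ^ 4 / 5) = A + w := by rw [hw]; ring
    linarith
  refine le_trans h2 (mul_le_mul_of_nonneg_left ?_ (exp_pos _).le)
  refine le_trans (exp_neg_quad hw0) ?_
  -- polynomial inequality
  have hB : 0 ≤ x ^ 2 / 3 + x ^ 3 / 4 + x ^ 4 / 5 := by positivity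
  have hB1 : x ^ 2 / 3 + x ^ 3 / 4 + x ^ 4 / 5 ≤ 51 / 100 * x ^ 2 := by
    have := mul_nonneg (sq_nonneg x) (show 0 ≤ 51 / 100 - 1 / 3 - x / 4 - x ^ 2 / 5 by nlinarith)
    nlinarith
  have hsq : w ^ 2 ≤ A ^ 2 * x ^ 2 / 4 + A * (x * (x ^ 2 / 3 + x ^ 3 / 4 + x ^ 4 / 5) +
      (51 / 100 * x ^ 2) * (x ^ 2 / 3 + x ^ 3 / 4 + x ^ 4 / 5)) := by
    have e : w ^ 2 = A ^ 2 * x ^ 2 / 4 + A ^ 2 * (x * (x ^ 2 / 3 + x ^ 3 / 4 + x ^ 4 / 5) +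
      (x ^ 2 / 3 + x ^ 3 / 4 + x ^ 4 / 5) * (x ^ 2 / 3 + x ^ 3 / 4 + x ^ 4 / 5)) := by
      rw [hw]; ring
    have h3 : x * (x ^ 2 / 3 + x ^ 3 / 4 + x ^ 4 / 5) +
      (x ^ 2 / 3 + x ^ 3 / 4 + x ^ 4 / 5) * (x ^ 2 / 3 + x ^ 3 / 4 + x ^ 4 / 5) ≤
      x * (x ^ 2 / 3 + x ^ 3 / 4 + x ^ 4 / 5) +
      (51 / 100 * x ^ 2) * (x ^ 2 / 3 + x ^ 3 / 4 + x ^ 4 / 5) := by
      have := mul_le_mul_of_nonneg_right hB1 hB
      linarith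
    have h4 : 0 ≤ x * (x ^ 2 / 3 + x ^ 3 / 4 + x ^ 4 / 5) +
      (51 / 100 * x ^ 2) * (x ^ 2 / 3 + x ^ 3 / 4 + x ^ 4 / 5) := by positivity
    have h5 : A ^ 2 ≤ A := by nlinarith
    rw [e]
    have h6 := mul_le_mul_of_nonneg_left h3 (sq_nonneg A)
    have h7 := mul_le_mul_of_nonneg_right h5 h4
    linarith
  have hx3 : 0 ≤ A * (x ^ 3 * (1 / 4 + x / 5 - (1 / 3 + x / 4 + x ^ 2 / 5 +
      51 / 100 * x * (1 / 3 + x / 4 + x ^ 2 / 5)) / 2)) := by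
    have hx4 : 0 ≤ 1 / 4 + x / 5 - (1 / 3 + x / 4 + x ^ 2 / 5 +
      51 / 100 * x * (1 / 3 + x / 4 + x ^ 2 / 5)) / 2 := by
      nlinarith [mul_nonneg hx (show 0 ≤ 1 / 2 - x by linarith), pow_nonneg hx 3,
        mul_nonneg (sq_nonneg x) (show 0 ≤ 1 / 2 - x by linarith)]
    positivity
  have e2 : 1 - w + w ^ 2 / 2 ≤ 1 - w + (A ^ 2 * x ^ 2 / 4 +
      A * (x * (x ^ 2 / 3 + x ^ 3 / 4 + x ^ 4 / 5) +
      (51 / 100 * x ^ 2) * (x ^ 2 / 3 + x ^ 3 / 4 + x ^ 4 / 5))) / 2 := by linarith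
  refine le_trans e2 ?_
  rw [hw]
  linarith

end Pool.KS
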