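import Pool.Agent.KS.Scal7

/-! The column inequality, part three. -/

namespace Pool.KS

open Real

/-- `V (1 + κ T)` is monotone in `V = exp (-T)` -/
theorem V_kappa {V W κ : ℝ} (hV : 0 < V) (hVW : V ≤ W) (hW1 : W ≤ 1) (hκ1 : κ ≤ 1)
    (hκ0 : 0 ≤ κ) :
    V * (1 + κ * (-log V)) ≤ W * (1 + κ * (-log W)) := by
  have hW : 0 < W := by linarith
  have h1 : 1 - W / V ≤ log (V / W) := by
    have := one_sub_inv_le_log_of_pos (show 0 < V / W by positivity)
    rw [inv_div] at this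
    exact this
  rw [log_div hV.ne' hW.ne'] at h1
  have h2 := mul_le_mul_of_nonneg_left h1 hV.le
  have h3 : V * (1 - W / V) = V - W := by field_simp
  rw [h3] at h2
  have h4 : log W ≤ 0 := log_nonpos hW.le hW1
  have h5 : 0 ≤ (W - V) * (1 - κ * (1 + log W)) := by
    apply mul_nonneg (by linarith)
    nlinarith
  nlinarith [mul_le_mul_of_nonneg_left h2 hκ0]

theorem mul_exp_le {t : ℝ} : t * exp (-t) ≤ 36788 / 100000 := by
  have h1 : t ≤ exp (t - 1) := by
    have := add_one_le_exp (t - 1)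
    linarith
  have h2 := mul_le_mul_of_nonneg_right h1 (exp_pos (-t)).le
  have h3 : exp (t - 1) * exp (-t) = exp (-1) := by rw [← exp_add]; congr 1; ring
  have h4 : exp (-1) ≤ 36788 / 100000 := by
    rw [exp_neg, inv_le_comm₀ (exp_pos _) (by norm_num)]
    have := exp_one_gt_d9
    norm_num at this ⊢
    linarith
  linarith

/-- Bonferroni bound -/
theorem bonf {J : Type*} {a : J → ℝ} (h0 : ∀ j, 0 ≤ a j) (h1 : ∀ j, a j < 1)
    (S : Finset J) :
    exp (-TT a S) ≤ 1 - ∑ j ∈ S, a j + ((∑ j ∈ S, a j) ^ 2 - ∑ j ∈ S, a j ^ 2) / 2 ∧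
      ∑ j ∈ S, a j ^ 2 ≤ (∑ j ∈ S, a j) ^ 2 := by
  classical
  induction S using Finset.induction_on with
  | empty => simp [TT]
  | insert j S hj ih =>
    have e1 : exp (-TT a (insert j S)) = (1 - a j) * exp (-TT a S) := by
      unfold TT
      rw [Finset.sum_insert hj, neg_add, exp_add, neg_neg, exp_log (by linarith [h1 j])]
    rw [e1, Finset.sum_insert hj, Finset.sum_insert hj]
    have h2 : 0 ≤ ∑ j ∈ S, a j := Finset.sum_nonneg (fun j _ => h0 j)
    have h3 : 0 ≤ 1 - a j := by linarith [h1 j]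
    obtain ⟨ih1, ih2⟩ := ih
    constructor
    · have h4 := mul_le_mul_of_nonneg_left ih1 h3
      have h5 := mul_nonneg (h0 j) (sub_nonneg.mpr ih2)
      nlinarith
    · nlinarith [mul_nonneg (h0 j) h2]

/-- the value `q` minus the bound for the column term, at small mass -/
theorem A_small {l ell : ℝ} (hl : exp (-l) = l) (h0 : 0 ≤ ell) (h1 : ell ≤ 3 / 4) :
    exp (-ell) * (1 + 20 / 27 * (max (1 / 2 - l + 9 / 10 * (ell - l)) 0) ^ 2 * ell) ≤
      l - l * (ell - l) + 9 / 20 * (ell - l) ^ 2 := by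
  have hlo := lam_lo hl
  have hhi := lam_hi hl
  have hl0 : 0 < l := by linarith
  obtain ⟨y, hy⟩ : ∃ y, ell = l + y := ⟨ell - l, by ring⟩
  have hE : exp (-ell) = l * exp (-y) := by
    rw [hy, neg_add, exp_add, hl]
  have hyy : ell - l = y := by rw [hy]; ring
  rw [hyy, hE]
  rcases le_total (1 / 2 - l + 9 / 10 * y) 0 with hθ | hθ
  · rw [max_eq_right hθ]
    have e : l * exp (-y) * (1 + 20 / 27 * (0 : ℝ) ^ 2 * ell) = l * exp (-y) := by ring
    rw [e]
    rcases le_total 0 y with hy0 | hy0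
    · have h2 := mul_le_mul_of_nonneg_left (exp_neg_quad hy0) hl0.le
      nlinarith [sq_nonneg y]
    · obtain ⟨h, hh⟩ : ∃ h, y = -h := ⟨-y, by ring⟩
      have hh0 : 0 ≤ h := by linarith
      have hh1 : h ≤ 568 / 1000 := by linarith
      have h2 : exp h ≤ 1 + h + h ^ 2 / 2 + h ^ 3 * (2 / 9) := by
        have := Real.exp_bound' hh0 (by linarith : h ≤ 1) (n := 3) (by norm_num)
        norm_num [Finset.sum_range_succ, Nat.factorial] at this
        linarith
      have h3 : exp h ≤ 1 + h + 64 / 100 * h ^ 2 := by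
        have : h ^ 3 * (2 / 9) ≤ h ^ 2 * (14 / 100) := by
          have := mul_nonneg (sq_nonneg h) (show 0 ≤ 14 / 100 - h * (2 / 9) by linarith)
          nlinarith
        linarith
      rw [hh, neg_neg]
      have h4 := mul_le_mul_of_nonneg_left h3 hl0.le
      nlinarith [sq_nonneg h]
  · rw [max_eq_left hθ]
    have hy0 : 746 / 10000 ≤ y := by linarith
    have hy1 : y ≤ 183 / 1000 := by linarith
    have h4 : 0 ≤ y - 746 / 10000 := by linarith
    have h5 : 0 ≤ 183 / 1000 - y := by linarith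
    have hu := exp_neg_upper (y := y) (by linarith) (by linarith)
    have hκ : 20 / 27 * (1 / 2 - l + 9 / 10 * y) ^ 2 ≤ 3 / 5 * (y - 746 / 10000) ^ 2 := by
      have : (1 / 2 - l + 9 / 10 * y) ^ 2 ≤ (9 / 10 * (y - 746 / 10000)) ^ 2 :=
        pow_le_pow_left₀ hθ (by linarith) 2
      linarith
    have hκ0 : 0 ≤ 20 / 27 * (1 / 2 - l + 9 / 10 * y) ^ 2 := by positivity
    have hell : ell ≤ 567144 / 1000000 + y := by linarith
    have hκl : 20 / 27 * (1 / 2 - l + 9 / 10 * y) ^ 2 * ell ≤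
        3 / 5 * (y - 746 / 10000) ^ 2 * (567144 / 1000000 + y) :=
      mul_le_mul hκ hell h0 (by positivity)
    have he4 : 0 ≤ 1 - y + y ^ 2 / 2 - y ^ 3 / 6 + y ^ 4 / 24 := le_trans (exp_pos _).le hu
    have hEu : l * exp (-y) ≤ 567144 / 1000000 * (1 - y + y ^ 2 / 2 - y ^ 3 / 6 + y ^ 4 / 24) :=
      mul_le_mul (by linarith) hu (exp_pos _).le (by norm_num)
    have hmul : l * exp (-y) * (1 + 20 / 27 * (1 / 2 - l + 9 / 10 * y) ^ 2 * ell) ≤
        567144 / 1000000 * (1 - y + y ^ 2 / 2 - y ^ 3 / 6 + y ^ 4 / 24) *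
          (1 + 3 / 5 * (y - 746 / 10000) ^ 2 * (567144 / 1000000 + y)) := by
      refine mul_le_mul hEu (by linarith) ?_ (mul_nonneg (by norm_num) he4)
      have := mul_nonneg hκ0 h0
      linarith
    refine le_trans hmul ?_
    have hq : 567143 / 1000000 * (1 - y) + 9 / 20 * y ^ 2 ≤ l - l * y + 9 / 20 * y ^ 2 := by
      nlinarith
    refine le_trans ?_ hq
    clear hmul hEu hκl hell hκ0 hκ hu hq he4
    linarith [mul_nonneg (pow_nonneg h4 0) (pow_nonneg h5 7),
        mul_nonneg (pow_nonneg h4 1) (pow_nonneg h5 6),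
        mul_nonneg (pow_nonneg h4 2) (pow_nonneg h5 5),
        mul_nonneg (pow_nonneg h4 3) (pow_nonneg h5 4),
        mul_nonneg (pow_nonneg h4 4) (pow_nonneg h5 3),
        mul_nonneg (pow_nonneg h4 5) (pow_nonneg h5 2),
        mul_nonneg (pow_nonneg h4 6) (pow_nonneg h5 1),
        mul_nonneg (pow_nonneg h4 7) (pow_nonneg h5 0)]

/-- numeric lower bound for the constant coefficient, `ell ≥ 3/4` -/
theorem A_big {l y : ℝ} (hlo : 567143 / 1000000 < l) (hhi : l < 567144 / 1000000)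
    (hy0 : 1828 / 10000 ≤ y) (hy1 : y ≤ 432857 / 1000000) :
    96 / 10000 - 295 / 10000 * (432857 / 1000000 - y) ≤
      (l - l * y + 9 / 20 * y ^ 2) -
        567144 / 1000000 * (1 - y + y ^ 2 / 2 - y ^ 3 / 6 + y ^ 4 / 24) *
          (1 + 3 / 5 * (y - 746 / 10000) ^ 2 * (567144 / 1000000 + y)) := by
  have h4 : 0 ≤ y - 1828 / 10000 := by linarith
  have h5 : 0 ≤ 432857 / 1000000 - y := by linarith
  have hq : 567143 / 1000000 * (1 - y) + 9 / 20 * y ^ 2 ≤ l - l * y + 9 / 20 * y ^ 2 := by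
    nlinarith
  have key : 96 / 10000 - 295 / 10000 * (432857 / 1000000 - y) ≤
      (567143 / 1000000 * (1 - y) + 9 / 20 * y ^ 2) -
        567144 / 1000000 * (1 - y + y ^ 2 / 2 - y ^ 3 / 6 + y ^ 4 / 24) *
          (1 + 3 / 5 * (y - 746 / 10000) ^ 2 * (567144 / 1000000 + y)) := by
    clear hq hlo hhi
    linarith [mul_nonneg (pow_nonneg h4 0) (pow_nonneg h5 8),
        mul_nonneg (pow_nonneg h4 1) (pow_nonneg h5 7),
        mul_nonneg (pow_nonneg h4 2) (pow_nonneg h5 6),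
        mul_nonneg (pow_nonneg h4 3) (pow_nonneg h5 5),
        mul_nonneg (pow_nonneg h4 4) (pow_nonneg h5 4),
        mul_nonneg (pow_nonneg h4 5) (pow_nonneg h5 3),
        mul_nonneg (pow_nonneg h4 6) (pow_nonneg h5 2),
        mul_nonneg (pow_nonneg h4 7) (pow_nonneg h5 1),
        mul_nonneg (pow_nonneg h4 8) (pow_nonneg h5 0)]
  linarith

theorem B_big {y : ℝ} (hy0 : 1828 / 10000 ≤ y) (hy1 : y ≤ 432857 / 1000000) :
    117 / 500 * (567144 / 1000000 + y) - 1 / 2 * ((567143 / 1000000 + y) *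
      (567143 / 1000000 * (1 - y + y ^ 2 / 2 - y ^ 3 / 6 + y ^ 4 / 24 - y ^ 5 / 120)) *
      (1 - 3 / 5 * (y - 746 / 10000) ^ 2 * (432857 / 1000000 - y))) ≤
    503 / 10000 - 205 / 1000 * (432857 / 1000000 - y) := by
  have h4 : 0 ≤ y - 1828 / 10000 := by linarith
  have h5 : 0 ≤ 432857 / 1000000 - y := by linarith
  linarith [mul_nonneg (pow_nonneg h4 0) (pow_nonneg h5 9),
        mul_nonneg (pow_nonneg h4 1) (pow_nonneg h5 8),
        mul_nonneg (pow_nonneg h4 2) (pow_nonneg h5 7),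
        mul_nonneg (pow_nonneg h4 3) (pow_nonneg h5 6),
        mul_nonneg (pow_nonneg h4 4) (pow_nonneg h5 5),
        mul_nonneg (pow_nonneg h4 5) (pow_nonneg h5 4),
        mul_nonneg (pow_nonneg h4 6) (pow_nonneg h5 3),
        mul_nonneg (pow_nonneg h4 7) (pow_nonneg h5 2),
        mul_nonneg (pow_nonneg h4 8) (pow_nonneg h5 1),
        mul_nonneg (pow_nonneg h4 9) (pow_nonneg h5 0)]

theorem C_big {y : ℝ} (hy0 : 1828 / 10000 ≤ y) (hy1 : y ≤ 432857 / 1000000) :
    764 / 10000 ≤ (567143 / 1000000 * (1 - y + y ^ 2 / 2 - y ^ 3 / 6 + y ^ 4 / 24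
      - y ^ 5 / 120)) * (1 - 3 / 5 * (y - 746 / 10000) ^ 2 * (432857 / 1000000 - y)) *
      ((567143 / 1000000 + y) / 3 - (567143 / 1000000 + y) ^ 2 / 8) := by
  have h4 : 0 ≤ y - 1828 / 10000 := by linarith
  have h5 : 0 ≤ 432857 / 1000000 - y := by linarith
  linarith [mul_nonneg (pow_nonneg h4 0) (pow_nonneg h5 10),
        mul_nonneg (pow_nonneg h4 1) (pow_nonneg h5 9),
        mul_nonneg (pow_nonneg h4 2) (pow_nonneg h5 8),
        mul_nonneg (pow_nonneg h4 3) (pow_nonneg h5 7),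
        mul_nonneg (pow_nonneg h4 4) (pow_nonneg h5 6),
        mul_nonneg (pow_nonneg h4 5) (pow_nonneg h5 5),
        mul_nonneg (pow_nonneg h4 6) (pow_nonneg h5 4),
        mul_nonneg (pow_nonneg h4 7) (pow_nonneg h5 3),
        mul_nonneg (pow_nonneg h4 8) (pow_nonneg h5 2),
        mul_nonneg (pow_nonneg h4 9) (pow_nonneg h5 1),
        mul_nonneg (pow_nonneg h4 10) (pow_nonneg h5 0)]

end Pool.KS
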