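import Pool.Agent.KS.Exp

/-! Transposition: exchanging rows and columns. -/

namespace Pool.KS

open Finset

set_option linter.unusedSectionVars false

variable {I J : Type*} [Fintype I] [Fintype J] [DecidableEq I] [DecidableEq J]

/-- transpose of an edge set -/
def tr (E : Finset (I × J)) : Finset (J × I) := E.map (Equiv.prodComm I J).toEmbedding

theorem mem_tr {E : Finset (I × J)} {e : J × I} : e ∈ tr E ↔ e.swap ∈ E := by
  unfold tr
  rw [Finset.mem_map_equiv]
  rfl

theorem tr_tr (E : Finset (I × J)) : tr (tr E) = E := by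
  ext e; rw [mem_tr, mem_tr, Prod.swap_swap]

theorem card_tr (E : Finset (I × J)) : (tr E).card = E.card := Finset.card_map _

theorem tr_mono {E E' : Finset (I × J)} (h : E ⊆ E') : tr E ⊆ tr E' := by
  intro e he; rw [mem_tr] at he ⊢; exact h he

theorem matching_tr {M : Finset (I × J)} (h : IsMatching M) : IsMatching (tr M) := by
  intro e he e' he' hh
  rw [mem_tr] at he he'
  have := h _ he _ he' (by
    rcases hh with hh | hh
    · exact Or.inr hh
    · exact Or.inl hh)
  exact Prod.swap_injective this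

theorem nu_tr_le (E : Finset (I × J)) : nu E ≤ nu (tr E) := by
  obtain ⟨M, hs, hM, hc⟩ := exists_max E
  rw [← hc, ← card_tr]
  exact card_le_nu (matching_tr hM) (tr_mono hs)

theorem nu_tr (E : Finset (I × J)) : nu (tr E) = nu E := by
  refine le_antisymm ?_ (nu_tr_le E)
  have := nu_tr_le (tr E)
  rwa [tr_tr] at this

theorem tr_dC (j : J) (E : Finset (I × J)) : tr (dC j E) = dR j (tr E) := by
  ext e; rw [mem_tr, mem_dC, mem_dR, mem_tr]; rfl

theorem tr_dR (i : I) (E : Finset (I × J)) : tr (dR i E) = dC i (tr E) := by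
  ext e; rw [mem_tr, mem_dC, mem_dR, mem_tr]; rfl

theorem Lm_tr (E : Finset (I × J)) : Lm (tr E) = Rm E := by
  ext j; rw [mem_Lm, mem_Rm, ← tr_dC, nu_tr, nu_tr]

theorem Rm_tr (E : Finset (I × J)) : Rm (tr E) = Lm E := by
  ext j; rw [mem_Lm, mem_Rm, ← tr_dR, nu_tr, nu_tr]

/-- transposed probabilities -/
def pt (p : I × J → ℝ) : J × I → ℝ := fun e => p e.swap

theorem W_tr (p : I × J → ℝ) (E : Finset (I × J)) : W (pt p) (tr E) = W p E := by
  unfold W pt
  rw [← Equiv.prod_comp (Equiv.prodComm I J)]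
  refine Finset.prod_congr rfl (fun e _ => ?_)
  have : (Equiv.prodComm I J) e ∈ tr E ↔ e ∈ E := by
    rw [mem_tr]; rfl
  simp only [this]
  rfl

theorem Ex_tr (p : I × J → ℝ) (f : Finset (J × I) → ℝ) :
    Ex p (fun E => f (tr E)) = Ex (pt p) f := by
  unfold Ex
  let e : Finset (I × J) ≃ Finset (J × I) :=
    ⟨tr, tr, tr_tr, tr_tr⟩
  rw [← Equiv.sum_comp e (fun E' => W (pt p) E' * f E')]
  refine Finset.sum_congr rfl (fun E _ => ?_)
  have : e E = tr E := rfl
  rw [this, W_tr]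

theorem Ex_Yj (p : I × J → ℝ) (j : J) : Ex p (Yj j) = Ex (pt p) (Xi j) := by
  rw [← Ex_tr]
  refine Ex_congr p (fun E => ?_)
  unfold Yj Xi
  rw [Lm_tr]

theorem Ex_PsiL (p : I × J → ℝ) (Ψ : Finset I → ℝ) :
    Ex p (fun E => Ψ (Lm E)) = Ex (pt p) (fun E => Ψ (Rm E)) := by
  rw [← Ex_tr]
  refine Ex_congr p (fun E => ?_)
  rw [Rm_tr]

theorem Ex_mij (p : I × J → ℝ) (i : I) (j : J) :
    Ex p (mij i j) = Ex (pt p) (mij j i) := by
  rw [← Ex_tr]
  refine Ex_congr p (fun E => ?_)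
  unfold mij
  rw [← tr_dC, Rm_tr, Rm_tr]
  simp only [cross_symm i j E]

end Pool.KS
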